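import Pool.Agent.TameArb.Zlog
import Pool.Agent.Arb.Primes

set_option autoImplicit false

open NumberField IsDedekindDomain

namespace Pool.Agent.TameArb

namespace ChebAux

open Pool.Agent.Arb

variable {L : Type*} [Field L] [NumberField L]

omit [NumberField L] in
lemma SS_gpow (g : L ≃+* L) (d : ℕ) :
    (SS (g ^ d : L ≃+* L) : RingAut (𝓞 L)) = (SS g : RingAut (𝓞 L)) ^ d := by
  apply RingEquiv.ext
  intro x
  apply RingOfIntegers.ext
  rw [SS_pow]
  rfl

omit [NumberField L] in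
lemma SS_pow_N (g : L ≃+* L) {N : ℕ} (hg : g ^ N = 1) : (SS g : RingAut (𝓞 L)) ^ N = 1 := by
  rw [← SS_gpow, hg]
  rfl

lemma fix_zpow (g : L ≃+* L) (d : ℕ) (k : ℤ) (y : 𝓞 (fixF (g ^ d : L ≃+* L))) :
    ((SS g : RingAut (𝓞 L)) ^ ((d : ℤ) * k)) (algebraMap _ (𝓞 L) y) = algebraMap _ (𝓞 L) y := by
  rw [zpow_mul, zpow_natCast, ← SS_gpow]
  have h1 : ∀ z : 𝓞 (fixF (g ^ d : L ≃+* L)), (SS (g ^ d : L ≃+* L) : RingAut (𝓞 L))
      (algebraMap _ (𝓞 L) z) = algebraMap _ (𝓞 L) z := fun z => SS_fix _ z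
  let H : Subgroup (RingAut (𝓞 L)) :=
    { carrier := {h | h (algebraMap (𝓞 (fixF (g ^ d : L ≃+* L))) (𝓞 L) y) =
        algebraMap (𝓞 (fixF (g ^ d : L ≃+* L))) (𝓞 L) y}
      mul_mem' := by
        intro a b ha hb
        show a (b _) = _
        rw [hb, ha]
      one_mem' := rfl
      inv_mem' := by
        intro a ha
        show a.symm _ = _
        rw [RingEquiv.symm_apply_eq]
        exact ha.symm }
  have h2 : (SS (g ^ d : L ≃+* L) : RingAut (𝓞 L)) ∈ H := h1 y
  exact Subgroup.zpow_mem H h2 k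

/-- the conjugate of a prime -/
def conj (S : RingAut (𝓞 L)) (w : HeightOneSpectrum (𝓞 L)) : HeightOneSpectrum (𝓞 L) where
  asIdeal := w.asIdeal.comap (S : 𝓞 L ≃+* 𝓞 L)
  isPrime := w.isPrime.comap _
  ne_bot := by
    intro h
    apply w.ne_bot
    rw [eq_bot_iff]
    intro x hx
    have h1 : (S : 𝓞 L ≃+* 𝓞 L).symm x ∈ w.asIdeal.comap (S : 𝓞 L ≃+* 𝓞 L) := by
      show (S : 𝓞 L ≃+* 𝓞 L) ((S : 𝓞 L ≃+* 𝓞 L).symm x) ∈ w.asIdeal
      rw [RingEquiv.apply_symm_apply]; exact hx
    rw [h] at h1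
    have h2 : (S : 𝓞 L ≃+* 𝓞 L).symm x = 0 := h1
    have : x = 0 := by
      have := congrArg (S : 𝓞 L ≃+* 𝓞 L) h2
      rwa [RingEquiv.apply_symm_apply, map_zero] at this
    rw [this]; exact zero_mem _

lemma mem_conj (S : RingAut (𝓞 L)) (w : HeightOneSpectrum (𝓞 L)) (x : 𝓞 L) :
    x ∈ (conj S w).asIdeal ↔ S x ∈ w.asIdeal := Iff.rfl

/-- the prime below -/
def dn (τ : L ≃+* L) (w : HeightOneSpectrum (𝓞 L)) : HeightOneSpectrum (𝓞 (fixF τ)) where
  asIdeal := un τ w.asIdeal
  isPrime := w.isPrime.under _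
  ne_bot := un_ne_bot τ w.ne_bot

lemma mem_dn (τ : L ≃+* L) (w : HeightOneSpectrum (𝓞 L)) (y : 𝓞 (fixF τ)) :
    y ∈ (dn τ w).asIdeal ↔ algebraMap _ (𝓞 L) y ∈ w.asIdeal := Iff.rfl

lemma exists_above (τ : L ≃+* L) (v : HeightOneSpectrum (𝓞 (fixF τ))) :
    ∃ w : HeightOneSpectrum (𝓞 L), dn τ w = v := by
  have hPm : v.asIdeal.IsMaximal := v.isMaximal
  obtain ⟨q, hq1, hq2⟩ := Ideal.exists_maximal_ideal_liesOver_of_isIntegral (S := 𝓞 L) v.asIdeal
  have hne : q ≠ ⊥ := by
    rintro rfl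
    apply v.ne_bot
    rw [hq2.over]
    exact Ideal.comap_bot_of_injective _ (FaithfulSMul.algebraMap_injective _ _)
  refine ⟨⟨q, hq1.isPrime, hne⟩, ?_⟩
  apply HeightOneSpectrum.ext
  exact hq2.over.symm

/-- all powers of `S` preserving `w` have exponent divisible by `d` -/
def Dv (S : RingAut (𝓞 L)) (d : ℕ) (w : HeightOneSpectrum (𝓞 L)) : Prop :=
  ∀ j : ℤ, S ^ j ∈ stab w.asIdeal → (d : ℤ) ∣ j

lemma dn_conj_pow (g : L ≃+* L) (i : ℤ) (w : HeightOneSpectrum (𝓞 L)) :
    dn g (conj ((SS g : RingAut (𝓞 L)) ^ i) w) = dn g w := by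
  apply HeightOneSpectrum.ext
  ext y
  rw [mem_dn, mem_dn, mem_conj]
  have h := fix_zpow (g := g) 1 i
  have h1 : ((SS g : RingAut (𝓞 L)) ^ i) (algebraMap _ (𝓞 L) y) = algebraMap _ (𝓞 L) y := by
    have hfix : (SS g : RingAut (𝓞 L)) (algebraMap _ (𝓞 L) y) = algebraMap _ (𝓞 L) y := SS_fix g y
    let H : Subgroup (RingAut (𝓞 L)) :=
      { carrier := {h | h (algebraMap (𝓞 (fixF g)) (𝓞 L) y) = algebraMap (𝓞 (fixF g)) (𝓞 L) y}
        mul_mem' := by
          intro a b ha hb
          show a (b _) = _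
          rw [hb, ha]
        one_mem' := rfl
        inv_mem' := by
          intro a ha
          show a.symm _ = _
          rw [RingEquiv.symm_apply_eq]
          exact ha.symm }
    have h2 : (SS g : RingAut (𝓞 L)) ∈ H := hfix
    exact Subgroup.zpow_mem H h2 i
  rw [h1]

lemma Dv_conj (S : RingAut (𝓞 L)) (d : ℕ) (i : ℤ) (w : HeightOneSpectrum (𝓞 L)) :
    Dv S d (conj (S ^ i) w) ↔ Dv S d w := by
  have key : ∀ j : ℤ, S ^ j ∈ stab (conj (S ^ i) w).asIdeal ↔ S ^ j ∈ stab w.asIdeal := by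
    intro j
    rw [mem_stab, mem_stab]
    constructor
    · intro h x
      have h1 := h ((S ^ (-i)) x)
      rw [mem_conj, mem_conj] at h1
      have e1 : (S ^ i) ((S ^ j) ((S ^ (-i)) x)) = (S ^ j) x := by
        have : S ^ i * (S ^ j * S ^ (-i)) = S ^ j := by
          rw [← zpow_add, ← zpow_add]; congr 1; ring
        conv_rhs => rw [← this]
        rfl
      have e2 : (S ^ i) ((S ^ (-i)) x) = x := by
        have : S ^ i * S ^ (-i) = 1 := by
          rw [← zpow_add, add_neg_cancel, zpow_zero]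
        have h3 := DFunLike.congr_fun this x
        exact h3
      rw [e1, e2] at h1
      exact h1
    · intro h x
      rw [mem_conj, mem_conj]
      have e1 : (S ^ i) ((S ^ j) x) = (S ^ j) ((S ^ i) x) := by
        have : S ^ i * S ^ j = S ^ j * S ^ i := by
          rw [← zpow_add, ← zpow_add, add_comm]
        exact DFunLike.congr_fun this x
      rw [e1]
      exact h _
  unfold Dv
  constructor
  · intro h j hj
    exact h j ((key j).2 hj)
  · intro h j hj
    exact h j ((key j).1 hj)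

lemma surj (g : L ≃+* L) {N : ℕ} (hN : 0 < N) (hg : g ^ N = 1) (d : ℕ) (hd : 0 < d)
    (w w' : HeightOneSpectrum (𝓞 L)) (h : dn g w = dn g w') :
    ∃ i : Fin d, dn (g ^ d : L ≃+* L) w' =
      dn (g ^ d : L ≃+* L) (conj ((SS g : RingAut (𝓞 L)) ^ (i : ℤ)) w) := by
  have h0 : un g w.asIdeal = un g w'.asIdeal := congrArg HeightOneSpectrum.asIdeal h
  have := w.isPrime
  have := w'.isPrime
  obtain ⟨j, hj⟩ := exists_conj g hN hg w.asIdeal w'.asIdeal h0
  have hdz : (0 : ℤ) < d := by exact_mod_cast hd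
  have h1 := Int.emod_nonneg j hdz.ne'
  have h2 := Int.emod_lt_of_pos j hdz
  refine ⟨⟨(j % d).toNat, by omega⟩, ?_⟩
  apply HeightOneSpectrum.ext
  ext y
  rw [mem_dn, mem_dn, mem_conj, hj]
  have h3 : (((j % d).toNat : ℕ) : ℤ) = j % d := Int.toNat_of_nonneg h1
  simp only [h3]
  have h4 : j = j % d + d * (j / d) := (Int.emod_add_mul_ediv j d).symm
  have h5 : ((SS g : RingAut (𝓞 L)) ^ j) (algebraMap _ (𝓞 L) y) =
      ((SS g : RingAut (𝓞 L)) ^ (j % d)) (algebraMap _ (𝓞 L) y) := by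
    conv_lhs => rw [h4, zpow_add]
    show ((SS g : RingAut (𝓞 L)) ^ (j % d)) (((SS g : RingAut (𝓞 L)) ^ ((d : ℤ) * (j / d)))
      (algebraMap _ (𝓞 L) y)) = _
    rw [fix_zpow]
  rw [h5]

lemma inj (g : L ≃+* L) {N : ℕ} (hN : 0 < N) (hg : g ^ N = 1) (d : ℕ)
    (w : HeightOneSpectrum (𝓞 L)) (hw : Dv (SS g : RingAut (𝓞 L)) d w) (i i' : Fin d)
    (h : dn (g ^ d : L ≃+* L) (conj ((SS g : RingAut (𝓞 L)) ^ (i : ℤ)) w) =
      dn (g ^ d : L ≃+* L) (conj ((SS g : RingAut (𝓞 L)) ^ (i' : ℤ)) w)) : i = i' := by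
  set S : RingAut (𝓞 L) := SS g with hS
  have h0 : un (g ^ d : L ≃+* L) (conj (S ^ (i : ℤ)) w).asIdeal =
    un (g ^ d : L ≃+* L) (conj (S ^ (i' : ℤ)) w).asIdeal := congrArg HeightOneSpectrum.asIdeal h
  have := (conj (S ^ (i : ℤ)) w).isPrime
  have := (conj (S ^ (i' : ℤ)) w).isPrime
  have hgd : (g ^ d : L ≃+* L) ^ N = 1 := by
    rw [← pow_mul, mul_comm, pow_mul, hg, one_pow]
  obtain ⟨k, hk⟩ := exists_conj (g ^ d : L ≃+* L) hN hgd _ _ h0
  have hmem : S ^ ((i : ℤ) + d * k - i') ∈ stab w.asIdeal := by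
    rw [mem_stab]
    intro y
    have h1 := hk ((S ^ (-(i' : ℤ))) y)
    rw [mem_conj, mem_conj] at h1
    have e1 : (S ^ (i' : ℤ)) ((S ^ (-(i' : ℤ))) y) = y := by
      have : S ^ (i' : ℤ) * S ^ (-(i' : ℤ)) = 1 := by
        rw [← zpow_add, add_neg_cancel, zpow_zero]
      exact DFunLike.congr_fun this y
    have e2 : (S ^ (i : ℤ)) (((SS (g ^ d : L ≃+* L) : RingAut (𝓞 L)) ^ k)
        ((S ^ (-(i' : ℤ))) y)) = (S ^ ((i : ℤ) + d * k - i')) y := by
      have : S ^ (i : ℤ) * ((SS (g ^ d : L ≃+* L) : RingAut (𝓞 L)) ^ k * S ^ (-(i' : ℤ))) =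
          S ^ ((i : ℤ) + d * k - i') := by
        rw [SS_gpow, ← hS, ← zpow_natCast S d, ← zpow_mul, ← zpow_add, ← zpow_add]
        congr 1; ring
      exact DFunLike.congr_fun this y
    rw [e1, e2] at h1
    exact h1.symm
  have hdvd := hw _ hmem
  have h2 : (d : ℤ) ∣ (i : ℤ) - i' := by
    have : (i : ℤ) - i' = ((i : ℤ) + d * k - i') - d * k := by ring
    rw [this]
    exact dvd_sub hdvd (dvd_mul_right _ _)
  obtain ⟨c, hc⟩ := h2
  have hi := i.2
  have hi' := i'.2
  have h3 : c = 0 := by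
    by_contra hne
    rcases lt_or_gt_of_ne hne with h | h
    · have : (d : ℤ) * c ≤ d * (-1) := by
        apply mul_le_mul_of_nonneg_left (by omega) (by positivity)
      omega
    · have : (d : ℤ) * 1 ≤ d * c := by
        apply mul_le_mul_of_nonneg_left (by omega) (by positivity)
      omega
  rw [h3, mul_zero] at hc
  apply Fin.ext
  omega

/-- the inclusion of the fixed fields -/
def incl (g : L ≃+* L) (d : ℕ) : fixF g →+* fixF (g ^ d : L ≃+* L) where
  toFun x := ⟨(x : L), by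
    have hx : g (x : L) = x := x.2
    have : ∀ n : ℕ, ((g : RingAut L) ^ n) (x : L) = x := by
      intro n
      induction n with
      | zero => rfl
      | succ n ih =>
        rw [pow_succ]
        show ((g : RingAut L) ^ n) (g (x : L)) = x
        rw [hx, ih]
    exact this d⟩
  map_zero' := rfl
  map_one' := rfl
  map_add' _ _ := rfl
  map_mul' _ _ := rfl

/-- the inclusion of the rings of integers -/
noncomputable def inclO (g : L ≃+* L) (d : ℕ) : 𝓞 (fixF g) →+* 𝓞 (fixF (g ^ d : L ≃+* L)) :=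
  RingOfIntegers.mapRingHom (incl g d)

lemma inclO_map (g : L ≃+* L) (d : ℕ) (y : 𝓞 (fixF g)) :
    algebraMap _ (𝓞 L) (inclO g d y) = algebraMap _ (𝓞 L) y := by
  apply RingOfIntegers.ext
  rfl

lemma comap_inclO (g : L ≃+* L) (d : ℕ) (w : HeightOneSpectrum (𝓞 L)) :
    (dn (g ^ d : L ≃+* L) w).asIdeal.comap (inclO g d) = (dn g w).asIdeal := by
  ext y
  rw [Ideal.mem_comap, mem_dn, mem_dn, inclO_map]

/-- the residue field map -/
noncomputable def resMap (g : L ≃+* L) (d : ℕ) (w : HeightOneSpectrum (𝓞 L)) :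
    (𝓞 (fixF g) ⧸ (dn g w).asIdeal) →+*
      (𝓞 (fixF (g ^ d : L ≃+* L)) ⧸ (dn (g ^ d : L ≃+* L) w).asIdeal) :=
  Ideal.quotientMap _ (inclO g d) (comap_inclO g d w).ge

lemma resMap_mk (g : L ≃+* L) (d : ℕ) (w : HeightOneSpectrum (𝓞 L)) (y : 𝓞 (fixF g)) :
    resMap g d w (Ideal.Quotient.mk _ y) = Ideal.Quotient.mk _ (inclO g d y) :=
  Ideal.quotientMap_mk

lemma resMap_inj (g : L ≃+* L) (d : ℕ) (w : HeightOneSpectrum (𝓞 L)) :
    Function.Injective (resMap g d w) := by
  rw [injective_iff_map_eq_zero]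
  intro x hx
  obtain ⟨y, rfl⟩ := Ideal.Quotient.mk_surjective x
  rw [resMap_mk, Ideal.Quotient.eq_zero_iff_mem] at hx
  rw [Ideal.Quotient.eq_zero_iff_mem, ← comap_inclO g d w]
  exact hx

/-- (F3) -/
lemma norm_eq (g : L ≃+* L) {N : ℕ} (hN : 0 < N) (hg : g ^ N = 1) (d : ℕ) (hd : 0 < d)
    (w : HeightOneSpectrum (𝓞 L)) (hw : Dv (SS g : RingAut (𝓞 L)) d w) :
    Ideal.absNorm (dn (g ^ d : L ≃+* L) w).asIdeal = Ideal.absNorm (dn g w).asIdeal := by
  set S : RingAut (𝓞 L) := SS g with hS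
  rw [Ideal.absNorm_apply, Ideal.absNorm_apply, Submodule.cardQuot_apply, Submodule.cardQuot_apply]
  symm
  refine Nat.card_eq_of_bijective (resMap g d w) ⟨resMap_inj g d w, ?_⟩
  intro x
  obtain ⟨x, rfl⟩ := Ideal.Quotient.mk_surjective x
  have : NeZero d := ⟨hd.ne'⟩
  -- CRT
  have hcop : Pairwise (Function.onFun IsCoprime (fun i : Fin d =>
      (dn (g ^ d : L ≃+* L) (conj (S ^ ((i : ℕ) : ℤ)) w)).asIdeal)) := by
    intro i i' hii
    have hm := (dn (g ^ d : L ≃+* L) (conj (S ^ ((i : ℕ) : ℤ)) w)).isMaximal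
    have hm' := (dn (g ^ d : L ≃+* L) (conj (S ^ ((i' : ℕ) : ℤ)) w)).isMaximal
    show IsCoprime _ _
    rw [Ideal.isCoprime_iff_sup_eq]
    apply hm.coprime_of_ne hm'
    intro heq
    exact hii (inj g hN hg d w hw i i' (HeightOneSpectrum.ext heq))
  obtain ⟨b, hb⟩ := Ideal.exists_forall_sub_mem_ideal hcop (fun i => if i = 0 then 1 else 0)
  set X : 𝓞 L := algebraMap _ (𝓞 L) (b * x) with hX
  have hSd : (S ^ d) X = X := by
    have h1 := fix_zpow g d 1 (b * x)
    rw [mul_one, zpow_natCast] at h1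
    exact h1
  have hz : SS g (∑ i ∈ Finset.range d, (S ^ i) X) = ∑ i ∈ Finset.range d, (S ^ i) X := by
    rw [map_sum]
    have h1 : ∀ i ∈ Finset.range d, SS g ((S ^ i) X) = (S ^ (i + 1)) X := by
      intro i _
      rw [pow_succ']
      rfl
    rw [Finset.sum_congr rfl h1]
    have h2 := Finset.sum_range_succ' (fun i => (S ^ i) X) d
    have h3 := Finset.sum_range_succ (fun i => (S ^ i) X) d
    rw [h3, hSd] at h2
    simp only [pow_zero] at h2
    have h4 : (1 : RingAut (𝓞 L)) X = X := rfl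
    rw [h4] at h2
    exact (add_right_cancel h2).symm
  obtain ⟨z, hz'⟩ := exists_of_SS g hz
  refine ⟨Ideal.Quotient.mk _ z, ?_⟩
  rw [resMap_mk, Ideal.Quotient.mk_eq_mk_iff_sub_mem, mem_dn, map_sub, inclO_map, hz']
  have hd1 : Finset.range d = insert 0 ((Finset.range d).erase 0) := by
    rw [Finset.insert_erase]
    exact Finset.mem_range.mpr hd
  rw [hd1, Finset.sum_insert (Finset.notMem_erase _ _)]
  have h0 : (S ^ 0) X = X := rfl
  rw [h0]
  have hsplit : X + ∑ i ∈ (Finset.range d).erase 0, (S ^ i) X - algebraMap _ (𝓞 L) x =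
      algebraMap _ (𝓞 L) ((b - 1) * x) + ∑ i ∈ (Finset.range d).erase 0, (S ^ i) X := by
    rw [hX]
    simp only [map_mul, map_sub, map_one]
    ring
  rw [hsplit]
  apply add_mem
  · rw [map_mul]
    apply Ideal.mul_mem_right
    have h5 := hb 0
    rw [if_pos rfl, mem_dn, mem_conj] at h5
    exact h5
  · apply sum_mem
    intro i hi
    rw [Finset.mem_erase, Finset.mem_range] at hi
    rw [hX, map_mul, map_mul]
    apply Ideal.mul_mem_right
    have h5 := hb ⟨i, hi.2⟩
    rw [if_neg (by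
      intro h
      exact hi.1 (congrArg Fin.val h)), sub_zero, mem_dn, mem_conj] at h5
    simpa using h5


/-- forget the algebra structure -/
def forget : (L ≃ₐ[ℚ] L) →* RingAut L where
  toFun f := f.toRingEquiv
  map_one' := rfl
  map_mul' _ _ := rfl

/-- Artin: powers with exponent not divisible by `d` move the fixed field of `g^d` -/
lemma moved (g : L ≃+* L) (d : ℕ) (hd : d ∣ orderOf (g : RingAut L)) (j : ℤ) (hj : ¬ (d : ℤ) ∣ j) :
    ∃ x : L, x ∈ fixF (g ^ d : L ≃+* L) ∧ ((g : RingAut L) ^ j) x ≠ x := by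
  by_contra hcon
  push Not at hcon
  apply hj
  set gA : L ≃ₐ[ℚ] L := RingEquiv.toRatAlgEquiv g with hgA
  have hfor : forget gA = (g : RingAut L) := by
    apply RingEquiv.ext
    intro x
    rfl
  have hpow : ∀ (k : ℤ) (x : L), (gA ^ k) x = ((g : RingAut L) ^ k) x := by
    intro k x
    rw [← hfor, ← map_zpow]
    rfl
  set H := Subgroup.zpowers (gA ^ d) with hH
  have h1 : gA ^ j ∈ IntermediateField.fixingSubgroup (IntermediateField.fixedField H) := by
    rw [IntermediateField.mem_fixingSubgroup_iff]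
    intro x hx
    rw [hpow]
    apply hcon
    have h2 := (IntermediateField.mem_fixedField_iff H x).1 hx (gA ^ d) (Subgroup.mem_zpowers _)
    have h3 := hpow d x
    rw [zpow_natCast, zpow_natCast] at h3
    rw [h3] at h2
    exact h2
  rw [IntermediateField.fixingSubgroup_fixedField] at h1
  obtain ⟨k, hk⟩ := Subgroup.mem_zpowers_iff.1 h1
  have h2 := congrArg forget hk
  rw [map_zpow, map_pow, map_zpow, hfor, ← zpow_natCast, ← zpow_mul] at h2
  have h3 : (g : RingAut L) ^ (j - d * k) = 1 := by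
    rw [zpow_sub, ← h2, mul_inv_cancel]
  have h4 := orderOf_dvd_iff_zpow_eq_one.2 h3
  have h5 : (d : ℤ) ∣ j - d * k := (Int.natCast_dvd_natCast.2 hd).trans h4
  have h6 : j = (j - d * k) + d * k := by ring
  rw [h6]
  exact dvd_add h5 (dvd_mul_right _ _)

lemma exists_c (g : L ≃+* L) (d : ℕ) (hd : d ∣ orderOf (g : RingAut L)) (j : ℤ)
    (hj : ¬ (d : ℤ) ∣ j) : ∃ a c : 𝓞 (fixF (g ^ d : L ≃+* L)), c ≠ 0 ∧
      algebraMap _ (𝓞 L) c = ((SS g : RingAut (𝓞 L)) ^ j) (algebraMap _ (𝓞 L) a) -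
        algebraMap _ (𝓞 L) a := by
  obtain ⟨x, hx, hne⟩ := moved g d hd j hj
  set S : RingAut (𝓞 L) := SS g with hS
  have hSz : ∀ (k : ℤ) (y : 𝓞 L), (((S ^ k) y : 𝓞 L) : L) = ((g : RingAut L) ^ k) (y : L) := by
    intro k y
    let ψ : RingAut L →* RingAut (𝓞 L) :=
      { toFun := fun f => SS f
        map_one' := by
          apply RingEquiv.ext; intro x; rfl
        map_mul' := by
          intro f f'; apply RingEquiv.ext; intro x; rfl }
    have h1 : S ^ k = ψ ((g : RingAut L) ^ k) := by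
      rw [map_zpow]; rfl
    rw [h1]
    rfl
  -- an integral element that is moved
  have hint : ∃ a : 𝓞 (fixF (g ^ d : L ≃+* L)), (S ^ j) (algebraMap _ (𝓞 L) a) ≠
      algebraMap _ (𝓞 L) a := by
    by_contra hcon
    push Not at hcon
    apply hne
    obtain ⟨a, b, hb, hab⟩ := IsFractionRing.div_surjective (A := 𝓞 (fixF (g ^ d : L ≃+* L)))
      (⟨x, hx⟩ : fixF (g ^ d : L ≃+* L))
    have hx' : x = (algebraMap _ (𝓞 L) a : 𝓞 L) / (algebraMap _ (𝓞 L) b : 𝓞 L) := by
      have := congrArg (fun z : fixF (g ^ d : L ≃+* L) => (z : L)) hab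
      simp only at this
      rw [← this]
      rfl
    rw [hx', map_div₀, ← hSz, ← hSz, hcon, hcon]
  obtain ⟨a, ha⟩ := hint
  have hfixa : (SS (g ^ d : L ≃+* L)) ((S ^ j) (algebraMap _ (𝓞 L) a) - algebraMap _ (𝓞 L) a) =
      (S ^ j) (algebraMap _ (𝓞 L) a) - algebraMap _ (𝓞 L) a := by
    have h1 := SS_fix (g ^ d : L ≃+* L) a
    have h2 : (SS (g ^ d : L ≃+* L)) ((S ^ j) (algebraMap _ (𝓞 L) a)) =
        (S ^ j) ((SS (g ^ d : L ≃+* L)) (algebraMap _ (𝓞 L) a)) := by
      have h3 : (SS (g ^ d : L ≃+* L) : RingAut (𝓞 L)) * S ^ j =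
          S ^ j * (SS (g ^ d : L ≃+* L) : RingAut (𝓞 L)) := by
        rw [SS_gpow, ← hS, ← zpow_natCast, ← zpow_add, ← zpow_add, add_comm]
      exact DFunLike.congr_fun h3 _
    rw [map_sub, h2, h1]
  obtain ⟨c, hc⟩ := exists_of_SS (g ^ d : L ≃+* L) hfixa
  refine ⟨a, c, ?_, hc⟩
  rintro rfl
  rw [map_zero] at hc
  exact ha (sub_eq_zero.1 hc.symm)

/-- the exceptional set -/
lemma exceptional (g : L ≃+* L) (d : ℕ) (hd : d ∣ orderOf (g : RingAut L)) :
    ∃ B : Set (HeightOneSpectrum (𝓞 (fixF (g ^ d : L ≃+* L)))), B.Finite ∧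
      ∀ w : HeightOneSpectrum (𝓞 L), ¬ Dv (SS g : RingAut (𝓞 L)) d w →
        Ideal.absNorm (dn (g ^ d : L ≃+* L) w).asIdeal = Ideal.absNorm (dn g w).asIdeal →
        dn (g ^ d : L ≃+* L) w ∈ B := by
  classical
  set S : RingAut (𝓞 L) := SS g with hS
  set N := orderOf (g : RingAut L) with hN
  have hNpos : 0 < N := by
    rw [hN, orderOf_pos_iff]
    set gA : L ≃ₐ[ℚ] L := RingEquiv.toRatAlgEquiv g with hgA
    have hfin : IsOfFinOrder gA := isOfFinOrder_of_finite gA
    have hfor : forget gA = (g : RingAut L) := by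
      apply RingEquiv.ext
      intro x
      rfl
    rw [← hfor]
    exact forget.isOfFinOrder hfin
  have hSN : S ^ N = 1 := SS_pow_N g (pow_orderOf_eq_one _)
  have hex : ∀ j : ℤ, ¬ (d : ℤ) ∣ j → ∃ a c : 𝓞 (fixF (g ^ d : L ≃+* L)), c ≠ 0 ∧
      algebraMap _ (𝓞 L) c = (S ^ j) (algebraMap _ (𝓞 L) a) - algebraMap _ (𝓞 L) a :=
    fun j hj => exists_c g d hd j hj
  choose! a c hc0 hc using hex
  refine ⟨⋃ j ∈ (Finset.range N).filter (fun j : ℕ => ¬ (d : ℤ) ∣ (j : ℤ)),
    {v | v.asIdeal ∣ Ideal.span {c (j : ℤ)}}, ?_, ?_⟩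
  · apply Set.Finite.biUnion (Finset.finite_toSet _)
    intro j hj
    rw [Finset.mem_coe, Finset.mem_filter] at hj
    apply Ideal.finite_factors
    rw [Ne, Ideal.zero_eq_bot, Ideal.span_singleton_eq_bot]
    exact hc0 _ hj.2
  · intro w hw hnorm
    unfold Dv at hw
    push Not at hw
    obtain ⟨j, hj, hdj⟩ := hw
    -- reduce j mod N
    have hNz : (0 : ℤ) < N := by exact_mod_cast hNpos
    set j' := (j % N).toNat with hj'
    have h1 := Int.emod_nonneg j hNz.ne'
    have h2 := Int.emod_lt_of_pos j hNz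
    have h3 : ((j' : ℕ) : ℤ) = j % N := Int.toNat_of_nonneg h1
    have h4 : S ^ ((j' : ℕ) : ℤ) = S ^ j := by
      rw [h3]
      conv_rhs => rw [← Int.emod_add_mul_ediv j N]
      rw [zpow_add, zpow_mul, zpow_natCast, hSN, one_zpow, mul_one]
    have h5 : ¬ (d : ℤ) ∣ (j' : ℤ) := by
      intro h
      apply hdj
      rw [h3] at h
      rw [← Int.emod_add_mul_ediv j N]
      exact dvd_add h ((Int.natCast_dvd_natCast.2 hd).mul_right _)
    rw [Set.mem_iUnion₂]
    refine ⟨j', ?_, ?_⟩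
    · rw [Finset.mem_filter, Finset.mem_range]
      exact ⟨by omega, h5⟩
    · show (dn (g ^ d : L ≃+* L) w).asIdeal ∣ Ideal.span {c (j' : ℤ)}
      rw [Ideal.dvd_span_singleton, mem_dn, hc _ h5, h4]
      -- surjectivity of the residue map
      have hbij : Function.Bijective (resMap g d w) := by
        have hf : Finite (𝓞 (fixF (g ^ d : L ≃+* L)) ⧸ (dn (g ^ d : L ≃+* L) w).asIdeal) :=
          Ideal.finiteQuotientOfFreeOfNeBot _ (dn (g ^ d : L ≃+* L) w).ne_bot
        rw [Nat.bijective_iff_injective_and_card]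
        refine ⟨resMap_inj g d w, ?_⟩
        rw [Ideal.absNorm_apply, Ideal.absNorm_apply, Submodule.cardQuot_apply,
          Submodule.cardQuot_apply] at hnorm
        exact hnorm.symm
      obtain ⟨y, hy⟩ := hbij.2 (Ideal.Quotient.mk _ (a (j' : ℤ)))
      obtain ⟨y, rfl⟩ := Ideal.Quotient.mk_surjective y
      rw [resMap_mk, Ideal.Quotient.mk_eq_mk_iff_sub_mem, mem_dn, map_sub, inclO_map] at hy
      set A : 𝓞 L := algebraMap _ (𝓞 L) (a (j' : ℤ)) with hA
      have h6 : (S ^ j) (algebraMap _ (𝓞 L) y - A) ∈ w.asIdeal := (mem_stab.1 hj _).2 hy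
      have h7 : (S ^ j) (algebraMap _ (𝓞 L) y) = algebraMap _ (𝓞 L) y := by
        have hfix : S (algebraMap _ (𝓞 L) y) = algebraMap _ (𝓞 L) y := SS_fix g y
        let H : Subgroup (RingAut (𝓞 L)) :=
          { carrier := {h | h (algebraMap (𝓞 (fixF g)) (𝓞 L) y) = algebraMap (𝓞 (fixF g)) (𝓞 L) y}
            mul_mem' := by
              intro a b ha hb
              show a (b _) = _
              rw [hb, ha]
            one_mem' := rfl
            inv_mem' := by
              intro a ha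
              show a.symm _ = _
              rw [RingEquiv.symm_apply_eq]
              exact ha.symm }
        have h2 : S ∈ H := hfix
        exact Subgroup.zpow_mem H h2 j
      rw [map_sub, h7] at h6
      have h8 : (S ^ j) A - A = (algebraMap _ (𝓞 L) y - A) - (algebraMap _ (𝓞 L) y - (S ^ j) A) := by
        ring
      rw [h8]
      exact sub_mem hy h6

/-- otherwise the norm is at least the square -/
lemma norm_sq (g : L ≃+* L) (d : ℕ) (w : HeightOneSpectrum (𝓞 L))
    (h : Ideal.absNorm (dn (g ^ d : L ≃+* L) w).asIdeal ≠ Ideal.absNorm (dn g w).asIdeal) :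
    Ideal.absNorm (dn g w).asIdeal ^ 2 ≤ Ideal.absNorm (dn (g ^ d : L ≃+* L) w).asIdeal := by
  have hm := (dn g w).isMaximal
  have hm' := (dn (g ^ d : L ≃+* L) w).isMaximal
  have hf : Finite (𝓞 (fixF (g ^ d : L ≃+* L)) ⧸ (dn (g ^ d : L ≃+* L) w).asIdeal) :=
    Ideal.finiteQuotientOfFreeOfNeBot _ (dn (g ^ d : L ≃+* L) w).ne_bot
  have hf' : Finite (𝓞 (fixF g) ⧸ (dn g w).asIdeal) :=
    Ideal.finiteQuotientOfFreeOfNeBot _ (dn g w).ne_bot
  let _ : Field (𝓞 (fixF g) ⧸ (dn g w).asIdeal) := Ideal.Quotient.field _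
  let _ : Algebra (𝓞 (fixF g) ⧸ (dn g w).asIdeal)
    (𝓞 (fixF (g ^ d : L ≃+* L)) ⧸ (dn (g ^ d : L ≃+* L) w).asIdeal) := (resMap g d w).toAlgebra
  have hcard := Module.natCard_eq_pow_finrank (K := 𝓞 (fixF g) ⧸ (dn g w).asIdeal)
    (V := 𝓞 (fixF (g ^ d : L ≃+* L)) ⧸ (dn (g ^ d : L ≃+* L) w).asIdeal)
  rw [Ideal.absNorm_apply, Ideal.absNorm_apply, Submodule.cardQuot_apply,
    Submodule.cardQuot_apply] at h ⊢
  rw [hcard] at h ⊢
  set f := Module.finrank (𝓞 (fixF g) ⧸ (dn g w).asIdeal)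
    (𝓞 (fixF (g ^ d : L ≃+* L)) ⧸ (dn (g ^ d : L ≃+* L) w).asIdeal) with hfdef
  have h1 : f ≠ 1 := by
    intro h1
    rw [h1, pow_one] at h
    exact h rfl
  have h2 : f ≠ 0 := by
    intro h2
    rw [h2, pow_zero] at hcard
    have : Nontrivial (𝓞 (fixF (g ^ d : L ≃+* L)) ⧸ (dn (g ^ d : L ≃+* L) w).asIdeal) :=
      Ideal.Quotient.nontrivial_iff.2 hm'.ne_top
    have h3 := Finite.one_lt_card (α := 𝓞 (fixF (g ^ d : L ≃+* L)) ⧸
      (dn (g ^ d : L ≃+* L) w).asIdeal)
    omega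
  exact Nat.pow_le_pow_right Nat.card_pos (by omega)


section sums

open scoped ENNReal

variable {F : Type*} [Field F] [NumberField F]

lemma one_le_norm (v : HeightOneSpectrum (𝓞 F)) : (1 : ℝ) ≤ (Ideal.absNorm v.asIdeal : ℝ) := by
  have h : Ideal.absNorm v.asIdeal ≠ 0 := by
    rw [Ne, Ideal.absNorm_eq_zero_iff]
    exact v.ne_bot
  exact_mod_cast Nat.one_le_iff_ne_zero.2 h

lemma pt_nonneg (s : ℝ) (v : HeightOneSpectrum (𝓞 F)) : 0 ≤ pt s v := by
  unfold pt
  positivity

lemma pt_le_one {s : ℝ} (hs : 0 ≤ s) (v : HeightOneSpectrum (𝓞 F)) : pt s v ≤ 1 := by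
  unfold pt
  exact Real.rpow_le_one_of_one_le_of_nonpos (one_le_norm v) (by linarith)

/-- the `ℝ≥0∞` version -/
noncomputable def ept (s : ℝ) (v : HeightOneSpectrum (𝓞 F)) : ℝ≥0∞ := ENNReal.ofReal (pt s v)

lemma tsum_ept {s : ℝ} (hs : 1 < s) :
    ∑' v : HeightOneSpectrum (𝓞 F), ept s v =
      ENNReal.ofReal (∑' v : HeightOneSpectrum (𝓞 F), pt s v) :=
  (ENNReal.ofReal_tsum_of_nonneg (fun v => pt_nonneg s v) (pt_summable F hs)).symm

lemma summable_ite (p : HeightOneSpectrum (𝓞 F) → Prop) [DecidablePred p] {s : ℝ} (hs : 1 < s) :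
    Summable (fun v : HeightOneSpectrum (𝓞 F) => if p v then pt s v else 0) := by
  apply Summable.of_nonneg_of_le _ _ (pt_summable F hs)
  · intro v
    split_ifs
    · exact pt_nonneg s v
    · exact le_rfl
  · intro v
    split_ifs
    · exact le_rfl
    · exact pt_nonneg s v

lemma tsum_ite (p : HeightOneSpectrum (𝓞 F) → Prop) [DecidablePred p] {s : ℝ} (hs : 1 < s) :
    ∑' v : HeightOneSpectrum (𝓞 F), (if p v then ept s v else 0) =
      ENNReal.ofReal (∑' v : HeightOneSpectrum (𝓞 F), if p v then pt s v else 0) := by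
  rw [ENNReal.ofReal_tsum_of_nonneg _ (summable_ite p hs)]
  · apply tsum_congr
    intro v
    split_ifs
    · rfl
    · simp
  · intro v
    split_ifs
    · exact pt_nonneg s v
    · exact le_rfl

end sums

open scoped ENNReal in
open Classical in
/-- the comparison of the sums over the primes of `L^(g^d)` and of `L^g` -/
lemma compare (g : L ≃+* L) (hgo : 0 < orderOf (g : RingAut L)) (d : ℕ) (hd0 : 0 < d)
    (hd : d ∣ orderOf (g : RingAut L))
    (Qc : HeightOneSpectrum (𝓞 (fixF g)) → HeightOneSpectrum (𝓞 L)) (hQc : ∀ q, dn g (Qc q) = q) :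
    ∃ C : ℝ, ∀ s : ℝ, 1 < s → s < 2 →
      |∑' P : HeightOneSpectrum (𝓞 (fixF (g ^ d : L ≃+* L))), pt s P -
        d * ∑' q : HeightOneSpectrum (𝓞 (fixF g)),
          (if Dv (SS g : RingAut (𝓞 L)) d (Qc q) then pt s q else 0)| ≤ C := by
  set S : RingAut (𝓞 L) := SS g with hS
  have hg1 : g ^ orderOf (g : RingAut L) = 1 := pow_orderOf_eq_one (g : RingAut L)
  set Φ : Fin d × HeightOneSpectrum (𝓞 (fixF g)) →
      HeightOneSpectrum (𝓞 (fixF (g ^ d : L ≃+* L))) :=
    fun x => dn (g ^ d : L ≃+* L) (conj (S ^ (((x.1 : ℕ) : ℤ))) (Qc x.2)) with hΦ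
  have hbelow : ∀ x, ((Φ x).asIdeal.comap (inclO g d)) = x.2.asIdeal := by
    intro x
    rw [hΦ]
    simp only
    rw [comap_inclO, dn_conj_pow, hQc]
  have hsurj : Function.Surjective Φ := by
    intro P
    obtain ⟨w', rfl⟩ := exists_above _ P
    obtain ⟨i, hi⟩ := surj g hgo hg1 d hd0 (Qc (dn g w')) w' (hQc _)
    exact ⟨(i, dn g w'), hi.symm⟩
  have hq : ∀ x y, Φ x = Φ y → x.2 = y.2 := by
    intro x y h
    apply HeightOneSpectrum.ext
    rw [← hbelow x, ← hbelow y, h]
  obtain ⟨B, hBfin, hB⟩ := exceptional g d hd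
  -- the exceptional pairs
  have hDfin : {x | Φ x ∈ B}.Finite := by
    have hinj : Set.InjOn (fun x : Fin d × HeightOneSpectrum (𝓞 (fixF g)) => (x.1, Φ x))
        ((fun x : Fin d × HeightOneSpectrum (𝓞 (fixF g)) => (x.1, Φ x)) ⁻¹' (Set.univ ×ˢ B)) := by
      intro x _ y _ hxy
      have h1 := congrArg Prod.fst hxy
      have h2 := congrArg Prod.snd hxy
      exact Prod.ext h1 (hq x y h2)
    have h3 := (Set.finite_univ.prod hBfin).preimage hinj
    refine h3.subset ?_
    intro x hx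
    exact ⟨Set.mem_univ _, hx⟩
  set DB : ℝ≥0∞ := ∑' x, Set.indicator {x | Φ x ∈ B} (fun _ => (1 : ℝ≥0∞)) x with hDB
  have hDBfin : DB ≠ ⊤ := by
    rw [hDB, ← tsum_subtype {x | Φ x ∈ B} (fun _ => (1 : ℝ≥0∞))]
    have : Fintype {x | Φ x ∈ B} := hDfin.fintype
    rw [tsum_fintype]
    simp
  refine ⟨d * (∑' q : HeightOneSpectrum (𝓞 (fixF g)), pt 2 q) + DB.toReal, fun s hs1 hs2 => ?_⟩
  set A : ℝ := ∑' q : HeightOneSpectrum (𝓞 (fixF g)), (if Dv S d (Qc q) then pt s q else 0) with hA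
  set Zr : ℝ := ∑' P : HeightOneSpectrum (𝓞 (fixF (g ^ d : L ≃+* L))), pt s P with hZr
  set Z2 : ℝ := ∑' q : HeightOneSpectrum (𝓞 (fixF g)), pt 2 q with hZ2
  have hA0 : 0 ≤ A := by
    apply tsum_nonneg
    intro q
    split_ifs
    · exact pt_nonneg s q
    · exact le_rfl
  have hZr0 : 0 ≤ Zr := tsum_nonneg (fun P => pt_nonneg s P)
  have hZ20 : 0 ≤ Z2 := tsum_nonneg (fun P => pt_nonneg 2 P)
  -- norms
  have hnorm1 : ∀ x : Fin d × HeightOneSpectrum (𝓞 (fixF g)), Dv S d (Qc x.2) →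
      pt s (Φ x) = pt s x.2 := by
    intro x hx
    have h1 := norm_eq g hgo hg1 d hd0 (conj (S ^ (((x.1 : ℕ) : ℤ))) (Qc x.2))
      ((Dv_conj S d _ _).2 hx)
    rw [dn_conj_pow, hQc] at h1
    unfold pt
    rw [h1]
  have hprod : ∀ f : HeightOneSpectrum (𝓞 (fixF g)) → ℝ≥0∞,
      ∑' x : Fin d × HeightOneSpectrum (𝓞 (fixF g)), f x.2 = d * ∑' q, f q := by
    intro f
    rw [ENNReal.tsum_prod (f := fun (_ : Fin d) (q : HeightOneSpectrum (𝓞 (fixF g))) => f q),
      tsum_fintype, Finset.sum_const, Finset.card_univ, Fintype.card_fin, nsmul_eq_mul]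
  -- upper bound
  have hU : ENNReal.ofReal Zr ≤ d * ENNReal.ofReal A + d * ENNReal.ofReal Z2 + DB := by
    rw [hZr, ← tsum_ept hs1]
    refine (ENNReal.tsum_le_tsum_comp_of_surjective hsurj (ept s)).trans ?_
    have hb : ∀ x : Fin d × HeightOneSpectrum (𝓞 (fixF g)), ept s (Φ x) ≤
        (if Dv S d (Qc x.2) then ept s x.2 else 0) + ept 2 x.2 +
          Set.indicator {x | Φ x ∈ B} (fun _ => (1 : ℝ≥0∞)) x := by
      intro x
      by_cases hx : Dv S d (Qc x.2)
      · rw [if_pos hx]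
        have : ept s (Φ x) = ept s x.2 := by
          unfold ept
          rw [hnorm1 x hx]
        rw [this, add_assoc]
        exact le_self_add
      · rw [if_neg hx, zero_add]
        set w' := conj (S ^ (((x.1 : ℕ) : ℤ))) (Qc x.2) with hw'
        have hw'D : ¬ Dv S d w' := fun h => hx ((Dv_conj S d _ _).1 h)
        have hdn : dn g w' = x.2 := by
          rw [hw', dn_conj_pow, hQc]
        by_cases hnorm : Ideal.absNorm (dn (g ^ d : L ≃+* L) w').asIdeal =
            Ideal.absNorm (dn g w').asIdeal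
        · have hmem : Φ x ∈ B := hB w' hw'D hnorm
          rw [Set.indicator_of_mem (show x ∈ {x | Φ x ∈ B} from hmem)]
          refine le_trans ?_ le_add_self
          unfold ept
          rw [← ENNReal.ofReal_one]
          exact ENNReal.ofReal_le_ofReal (pt_le_one (by linarith) _)
        · refine le_trans ?_ le_self_add
          unfold ept
          apply ENNReal.ofReal_le_ofReal
          have h1 := norm_sq g d w' hnorm
          rw [hdn] at h1
          have h2 : ((Ideal.absNorm x.2.asIdeal : ℝ)) ^ 2 ≤ (Ideal.absNorm (Φ x).asIdeal : ℝ) := by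
            exact_mod_cast h1
          have h3 := one_le_norm x.2
          unfold pt
          calc (Ideal.absNorm (Φ x).asIdeal : ℝ) ^ (-s) ≤
                ((Ideal.absNorm x.2.asIdeal : ℝ) ^ 2) ^ (-s) :=
                Real.rpow_le_rpow_of_nonpos (by positivity) h2 (by linarith)
            _ ≤ ((Ideal.absNorm x.2.asIdeal : ℝ) ^ 2) ^ (-(1 : ℝ)) :=
                Real.rpow_le_rpow_of_exponent_le (one_le_pow₀ h3) (by linarith)
            _ = (Ideal.absNorm x.2.asIdeal : ℝ) ^ (-(2 : ℝ)) := by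
                rw [← Real.rpow_natCast, ← Real.rpow_mul (by positivity)]
                norm_num
    refine (ENNReal.tsum_le_tsum hb).trans ?_
    rw [ENNReal.tsum_add, ENNReal.tsum_add,
      hprod (fun q => if Dv S d (Qc q) then ept s q else 0), hprod (fun q => ept 2 q),
      tsum_ite (fun q => Dv S d (Qc q)) hs1, tsum_ept (by norm_num : (1:ℝ) < 2)]
  -- lower bound
  have hL : d * ENNReal.ofReal A ≤ ENNReal.ofReal Zr := by
    rw [hA, ← tsum_ite (fun q => Dv S d (Qc q)) hs1, hZr, ← tsum_ept hs1,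
      ← hprod (fun q => if Dv S d (Qc q) then ept s q else 0)]
    set J : Set (Fin d × HeightOneSpectrum (𝓞 (fixF g))) := {x | Dv S d (Qc x.2)} with hJ
    have h1 : ∑' x : Fin d × HeightOneSpectrum (𝓞 (fixF g)),
        (if Dv S d (Qc x.2) then ept s x.2 else 0) = ∑' x : J, ept s (Φ x.1) := by
      rw [tsum_subtype J (fun x => ept s (Φ x))]
      apply tsum_congr
      intro x
      by_cases hx : Dv S d (Qc x.2)
      · rw [if_pos hx, Set.indicator_of_mem (show x ∈ J from hx)]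
        unfold ept
        rw [hnorm1 x hx]
      · rw [if_neg hx, Set.indicator_of_notMem (show x ∉ J from hx)]
    rw [h1]
    have hinj : Function.Injective (fun x : J => Φ x.1) := by
      rintro ⟨x, hx⟩ ⟨y, hy⟩ hxy
      have h2 : x.2 = y.2 := hq x y hxy
      have h3 : x.1 = y.1 := by
        apply inj g hgo hg1 d (Qc x.2) hx
        have h4 : Φ x = Φ y := hxy
        rw [hΦ] at h4
        simp only at h4
        rw [← h2] at h4
        exact h4
      exact Subtype.ext (Prod.ext h3 h2)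
    exact ENNReal.tsum_comp_le_tsum_of_injective hinj (ept s)
  -- conclusion
  have hU' : Zr ≤ d * A + d * Z2 + DB.toReal := by
    have h1 : ENNReal.ofReal Zr ≤ ENNReal.ofReal (d * A + d * Z2 + DB.toReal) := by
      rw [ENNReal.ofReal_add (by positivity) ENNReal.toReal_nonneg,
        ENNReal.ofReal_add (by positivity) (by positivity),
        ENNReal.ofReal_mul (by positivity), ENNReal.ofReal_mul (by positivity),
        ENNReal.ofReal_natCast, ENNReal.ofReal_toReal hDBfin]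
      exact hU
    exact (ENNReal.ofReal_le_ofReal_iff (by positivity)).1 h1
  have hL' : d * A ≤ Zr := by
    have h1 : ENNReal.ofReal (d * A) ≤ ENNReal.ofReal Zr := by
      rw [ENNReal.ofReal_mul (by positivity), ENNReal.ofReal_natCast]
      exact hL
    exact (ENNReal.ofReal_le_ofReal_iff hZr0).1 h1
  rw [abs_le]
  have h5 : 0 ≤ DB.toReal := ENNReal.toReal_nonneg
  have h6 : 0 ≤ (d:ℝ) * Z2 := by positivity
  constructor
  · linarith
  · linarith

omit [NumberField L] in
/-- the period of a prime -/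
lemma exists_per (S : RingAut (𝓞 L)) {N : ℕ} (hS : S ^ N = 1)
    (w : HeightOneSpectrum (𝓞 L)) :
    ∃ r : ℕ, r ∣ N ∧ (∀ d : ℕ, Dv S d w ↔ d ∣ r) ∧ S ^ r ∈ stab w.asIdeal := by
  let H : AddSubgroup ℤ :=
    { carrier := {j | S ^ j ∈ stab w.asIdeal}
      add_mem' := by
        intro a b ha hb
        show S ^ (a + b) ∈ stab w.asIdeal
        rw [zpow_add]
        exact mul_mem ha hb
      zero_mem' := by
        show S ^ (0 : ℤ) ∈ stab w.asIdeal
        rw [zpow_zero]
        exact one_mem _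
      neg_mem' := by
        intro a ha
        show S ^ (-a) ∈ stab w.asIdeal
        rw [zpow_neg]
        exact inv_mem ha }
  have hH : ∀ j, j ∈ H ↔ S ^ j ∈ stab w.asIdeal := fun _ => Iff.rfl
  obtain ⟨a, ha⟩ := Int.subgroup_cyclic H
  have ha' : ∀ j, j ∈ H ↔ a ∣ j := by
    intro j
    rw [ha, AddSubgroup.mem_closure_singleton]
    constructor
    · rintro ⟨n, rfl⟩
      exact ⟨n, by rw [smul_eq_mul, mul_comm]⟩
    · rintro ⟨n, rfl⟩
      exact ⟨n, by rw [smul_eq_mul, mul_comm]⟩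
  refine ⟨a.natAbs, ?_, ?_, ?_⟩
  · have h1 : (N : ℤ) ∈ H := by
      rw [hH, zpow_natCast, hS]
      exact one_mem _
    rw [ha'] at h1
    rw [← Int.natCast_dvd_natCast, Int.natAbs_dvd]
    exact h1
  · intro d
    constructor
    · intro h
      have h1 := h a ((hH a).1 ((ha' a).2 dvd_rfl))
      exact Int.natCast_dvd.1 h1
    · intro h j hj
      have h1 := (ha' j).1 ((hH j).2 hj)
      exact (Int.natCast_dvd.2 h).trans h1
  · have h1 : ((a.natAbs : ℕ) : ℤ) ∈ H := by
      rw [ha']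
      exact Int.dvd_natAbs.2 dvd_rfl
    rw [hH, zpow_natCast] at h1
    exact h1

lemma moebius_sum (N r : ℕ) (hN : 0 < N) (hr : r ∣ N) :
    ∑ d ∈ N.divisors, ((ArithmeticFunction.moebius d : ℤ) : ℝ) * (if d ∣ r then (1:ℝ) else 0) =
      if r = 1 then 1 else 0 := by
  have hr0 : r ≠ 0 := by
    rintro rfl
    rw [Nat.zero_dvd] at hr
    omega
  have h1 : ∑ d ∈ N.divisors, ((ArithmeticFunction.moebius d : ℤ) : ℝ) *
      (if d ∣ r then (1:ℝ) else 0) = ∑ d ∈ r.divisors, ((ArithmeticFunction.moebius d : ℤ) : ℝ) := by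
    simp only [mul_ite, mul_one, mul_zero]
    rw [← Finset.sum_filter]
    apply Finset.sum_congr
    · ext d
      simp only [Finset.mem_filter, Nat.mem_divisors]
      constructor
      · rintro ⟨_, h⟩
        exact ⟨h, hr0⟩
      · rintro ⟨h, _⟩
        exact ⟨⟨h.trans hr, by omega⟩, h⟩
    · intros
      rfl
  rw [h1]
  have h2 := ArithmeticFunction.coe_zeta_mul_coe_moebius (R := ℤ)
  have h3 : ((ArithmeticFunction.zeta : ArithmeticFunction ℤ) * ArithmeticFunction.moebius) r =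
      (1 : ArithmeticFunction ℤ) r := by
    have := ArithmeticFunction.coe_zeta_mul_moebius
    rw [this]
  rw [ArithmeticFunction.coe_zeta_mul_apply, ArithmeticFunction.one_apply] at h3
  have h4 : ((∑ i ∈ r.divisors, ArithmeticFunction.moebius i : ℤ) : ℝ) =
      ((if r = 1 then 1 else 0 : ℤ) : ℝ) := by rw [h3]
  push_cast at h4
  rw [h4]

lemma moebius_totient (N : ℕ) (hN : 0 < N) :
    ∑ d ∈ N.divisors, ((ArithmeticFunction.moebius d : ℤ) : ℝ) / d =
      (Nat.totient N : ℝ) / N := by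
  have h1 := (ArithmeticFunction.sum_eq_iff_sum_mul_moebius_eq (R := ℝ)
    (f := fun n => (Nat.totient n : ℝ)) (g := fun n => (n : ℝ))).1 (by
      intro n hn
      exact_mod_cast Nat.sum_totient n) N hN
  rw [← h1, Nat.sum_divisorsAntidiagonal (fun a b => ((ArithmeticFunction.moebius a : ℤ) : ℝ) * b),
    Finset.sum_div]
  apply Finset.sum_congr rfl
  intro d hd
  have hdN := Nat.dvd_of_mem_divisors hd
  have hd0 : (d : ℝ) ≠ 0 := by
    have := Nat.pos_of_mem_divisors hd
    positivity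
  have hN0 : (N : ℝ) ≠ 0 := by positivity
  rw [Nat.cast_div hdN hd0]
  field_simp

end ChebAux


open ChebAux Pool.Agent.Arb in
open scoped ENNReal in
open Classical in
/-- CHEB2: the primes of `K` below the primes of `L` fixed by `g` have positive lower Dirichlet
density. -/
theorem fixed_primes (K L : Type*) [Field K] [NumberField K] [Field L] [NumberField L]
    [Algebra K L] (g : L ≃ₐ[K] L) (N : ℕ) (hN : 0 < N) (hg : g ^ N = 1) :
    ∃ c : ℝ, 0 < c ∧ ∃ C : ℝ, ∀ s : ℝ, 1 < s → s < 2 →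
      c * Real.log (1 / (s - 1)) - C ≤
        ∑' v : {v : HeightOneSpectrum (𝓞 K) // ∃ w : HeightOneSpectrum (𝓞 L),
          w.under (𝓞 K) = v ∧ ∀ z : L, w.valuation L (g z) = w.valuation L z}, pt s v.1 := by
  set gr : L ≃+* L := g.toRingEquiv with hgr
  have hgrN : (gr : RingAut L) ^ N = 1 := by
    let fK : (L ≃ₐ[K] L) →* RingAut L :=
      { toFun := fun f => f.toRingEquiv
        map_one' := rfl
        map_mul' := fun _ _ => rfl }
    have h1 : fK g = (gr : RingAut L) := rfl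
    rw [← h1, ← map_pow, hg, map_one]
  set M := orderOf (gr : RingAut L) with hM
  have hMpos : 0 < M := by
    rw [hM, orderOf_pos_iff]
    exact isOfFinOrder_iff_pow_eq_one.2 ⟨N, hN, hgrN⟩
  set S : RingAut (𝓞 L) := SS gr with hS
  have hSM : S ^ M = 1 := SS_pow_N gr (pow_orderOf_eq_one (gr : RingAut L))
  choose Qc hQc using exists_above gr
  choose r hrM hrD hrS using fun q => exists_per S hSM (Qc q)
  -- estimates for the fields L^(g^d)
  have hest : ∀ d ∈ M.divisors, ∃ D : ℝ, 0 ≤ D ∧ ∀ s : ℝ, 1 < s → s < 2 →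
      |Real.log (1 / (s - 1)) - d * ∑' q : HeightOneSpectrum (𝓞 (fixF gr)),
          (if Dv S d (Qc q) then pt s q else 0)| ≤ D := by
    intro d hd
    have hdM := Nat.dvd_of_mem_divisors hd
    have hd0 := Nat.pos_of_mem_divisors hd
    obtain ⟨C1, hC1⟩ := compare gr hMpos d hd0 hdM Qc hQc
    obtain ⟨C2, hC2⟩ := log_zeta_est (fixF (gr ^ d : L ≃+* L))
    have hC1' := (abs_nonneg _).trans (hC1 (3/2) (by norm_num) (by norm_num))
    have hC2' := (abs_nonneg _).trans (hC2 (3/2) (by norm_num) (by norm_num))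
    refine ⟨C2 + C1, by linarith, fun s hs1 hs2 => ?_⟩
    have h1 := hC1 s hs1 hs2
    have h2 := hC2 s hs1 hs2
    calc _ = |(Real.log (1 / (s - 1)) - ∑' P : HeightOneSpectrum (𝓞 (fixF (gr ^ d : L ≃+* L))),
            pt s P) + (∑' P : HeightOneSpectrum (𝓞 (fixF (gr ^ d : L ≃+* L))), pt s P -
            d * ∑' q : HeightOneSpectrum (𝓞 (fixF gr)),
              (if Dv S d (Qc q) then pt s q else 0))| := by congr 1; ring
      _ ≤ _ := (abs_add_le _ _).trans (add_le_add h2 h1)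
  choose! D hD0 hD using hest
  -- the sum over the primes with r = 1
  have hmoeb : ∀ s : ℝ, 1 < s → s < 2 →
      ∑' q : HeightOneSpectrum (𝓞 (fixF gr)), (if r q = 1 then pt s q else 0) =
        ∑ d ∈ M.divisors, ((ArithmeticFunction.moebius d : ℤ) : ℝ) *
          ∑' q : HeightOneSpectrum (𝓞 (fixF gr)), (if Dv S d (Qc q) then pt s q else 0) := by
    intro s hs1 hs2
    have h1 : ∀ q : HeightOneSpectrum (𝓞 (fixF gr)), (if r q = 1 then pt s q else 0) =
        ∑ d ∈ M.divisors, ((ArithmeticFunction.moebius d : ℤ) : ℝ) *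
          (if Dv S d (Qc q) then pt s q else 0) := by
      intro q
      have h2 := moebius_sum M (r q) hMpos (hrM q)
      calc (if r q = 1 then pt s q else 0) = (if r q = 1 then (1:ℝ) else 0) * pt s q := by
            split_ifs <;> simp
        _ = _ := by
            rw [← h2, Finset.sum_mul]
            apply Finset.sum_congr rfl
            intro d _
            by_cases hdr : d ∣ r q
            · rw [if_pos hdr, if_pos ((hrD q d).2 hdr), mul_one]
            · rw [if_neg hdr, if_neg (fun h => hdr ((hrD q d).1 h))]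
              ring
    rw [tsum_congr h1, Summable.tsum_finsetSum]
    · apply Finset.sum_congr rfl
      intro d _
      rw [tsum_mul_left]
    · intro d _
      exact (summable_ite (fun q => Dv S d (Qc q)) hs1).mul_left _
  have hlow : ∀ s : ℝ, 1 < s → s < 2 →
      (Nat.totient M : ℝ) / M * Real.log (1 / (s - 1)) - ∑ d ∈ M.divisors, D d ≤
      ∑' q : HeightOneSpectrum (𝓞 (fixF gr)), (if r q = 1 then pt s q else 0) := by
    intro s hs1 hs2
    rw [hmoeb s hs1 hs2, ← moebius_totient M hMpos, Finset.sum_mul, ← Finset.sum_sub_distrib]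
    apply Finset.sum_le_sum
    intro d hd
    have h1 := hD d hd s hs1 hs2
    have hd0 : (0:ℝ) < d := by exact_mod_cast Nat.pos_of_mem_divisors hd
    have hd1 : (1:ℝ) ≤ d := by exact_mod_cast Nat.pos_of_mem_divisors hd
    set A := ∑' q : HeightOneSpectrum (𝓞 (fixF gr)), (if Dv S d (Qc q) then pt s q else 0) with hA
    set Lg := Real.log (1 / (s - 1)) with hLg
    have hmu : |((ArithmeticFunction.moebius d : ℤ) : ℝ)| ≤ 1 := by
      have := ArithmeticFunction.abs_moebius_le_one (n := d)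
      exact_mod_cast this
    have h2 : |((ArithmeticFunction.moebius d : ℤ) : ℝ) / d * (Lg - d * A)| ≤ D d := by
      rw [abs_mul, abs_div, abs_of_pos hd0]
      calc |((ArithmeticFunction.moebius d : ℤ) : ℝ)| / d * |Lg - d * A| ≤ 1 * |Lg - d * A| := by
            apply mul_le_mul_of_nonneg_right _ (abs_nonneg _)
            rw [div_le_one hd0]
            exact hmu.trans hd1
        _ ≤ D d := by rw [one_mul]; exact h1
    have h3 := (abs_le.1 h2).2
    have h4 : ((ArithmeticFunction.moebius d : ℤ) : ℝ) / d * (Lg - d * A) =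
        ((ArithmeticFunction.moebius d : ℤ) : ℝ) / d * Lg -
          ((ArithmeticFunction.moebius d : ℤ) : ℝ) * A := by
      field_simp
    rw [h4] at h3
    linarith
  -- comparison with K
  let κ : K →+* fixF gr :=
    { toFun := fun x => ⟨algebraMap K L x, g.commutes x⟩
      map_zero' := Subtype.ext (map_zero _)
      map_one' := Subtype.ext (map_one _)
      map_add' := fun x y => Subtype.ext (map_add _ x y)
      map_mul' := fun x y => Subtype.ext (map_mul _ x y) }
  let _ : Algebra K (fixF gr) := κ.toAlgebra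
  obtain ⟨n, hn⟩ : ∃ n, n = Module.finrank K (fixF gr) := ⟨_, rfl⟩
  have hmap : ∀ y : 𝓞 K, algebraMap (𝓞 (fixF gr)) (𝓞 L) (algebraMap (𝓞 K) (𝓞 (fixF gr)) y) =
      algebraMap (𝓞 K) (𝓞 L) y := by
    intro y
    apply RingOfIntegers.ext
    rfl
  have hunder : ∀ q : HeightOneSpectrum (𝓞 (fixF gr)),
      ((Qc q).under (𝓞 K)).asIdeal = q.asIdeal.comap (algebraMap (𝓞 K) (𝓞 (fixF gr))) := by
    intro q
    ext y
    rw [Ideal.mem_comap]
    conv_rhs => rw [← hQc q]
    rw [mem_dn, hmap]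
    exact Iff.rfl
  set V : Set (HeightOneSpectrum (𝓞 K)) := {v | ∃ w : HeightOneSpectrum (𝓞 L),
          w.under (𝓞 K) = v ∧ ∀ z : L, w.valuation L (g z) = w.valuation L z} with hV
  have hval : ∀ q, r q = 1 → (Qc q).under (𝓞 K) ∈ V := by
    intro q hq
    refine ⟨Qc q, rfl, fun z => ?_⟩
    have h1 := hrS q
    rw [hq, pow_one] at h1
    exact valuation_eq gr (Qc q) (mem_stab.1 h1) z
  let ψ : {q : HeightOneSpectrum (𝓞 (fixF gr)) | r q = 1} → V := fun q =>
    ⟨(Qc q.1).under (𝓞 K), hval q.1 q.2⟩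
  have hfib : ∀ v : V, ENat.card (ψ ⁻¹' {v}) ≤ (n : ℕ∞) := by
    intro v
    have hm := v.1.isMaximal
    have hnz : NoZeroSMulDivisors (𝓞 K) (𝓞 (fixF gr)) := ⟨fun {a x} h => by
      rw [Algebra.smul_def, mul_eq_zero] at h
      rcases h with h | h
      · left
        exact (FaithfulSMul.algebraMap_injective (𝓞 K) (𝓞 (fixF gr))) (h.trans (map_zero _).symm)
      · right
        exact h⟩
    set P := IsDedekindDomain.primesOverFinset v.1.asIdeal (𝓞 (fixF gr)) with hP
    have hcard : P.card ≤ n := by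
      rw [hn]
      exact Ideal.card_primesOverFinset_le_finrank (𝓞 (fixF gr)) K (fixF gr) v.1.ne_bot
    let ι : (ψ ⁻¹' {v}) → P := fun q => ⟨q.1.1.asIdeal, by
      rw [hP, IsDedekindDomain.mem_primesOverFinset_iff v.1.ne_bot]
      refine ⟨q.1.1.isPrime, ⟨?_⟩⟩
      have h1 : ψ q.1 = v := q.2
      have h2 : ((Qc q.1.1).under (𝓞 K)) = v.1 := congrArg Subtype.val h1
      rw [← h2, hunder]⟩
    have hι : Function.Injective ι := by
      intro q q' h
      apply Subtype.ext
      apply Subtype.ext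
      apply HeightOneSpectrum.ext
      exact congrArg Subtype.val h
    have hfin : Finite (ψ ⁻¹' {v}) := Finite.of_injective ι hι
    have h3 : Nat.card (ψ ⁻¹' {v}) ≤ n := by
      refine (Nat.card_le_card_of_injective ι hι).trans ?_
      rw [Nat.card_eq_fintype_card, Fintype.card_coe]
      exact hcard
    rw [ENat.card_eq_coe_natCard]
    exact_mod_cast h3
  have hn1 : 1 ≤ n := by
    rw [hn]
    exact Module.finrank_pos
  have hn0 : (0:ℝ) < n := by exact_mod_cast hn1
  have hcomp : ∀ s : ℝ, 1 < s → s < 2 →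
      ∑' q : HeightOneSpectrum (𝓞 (fixF gr)), (if r q = 1 then pt s q else 0) ≤
        n * ∑' v : V, pt s v.1 := by
    intro s hs1 hs2
    have hsumV : Summable (fun v : V => pt s v.1) := (pt_summable K hs1).subtype V
    have h0 : 0 ≤ ∑' v : V, pt s v.1 := tsum_nonneg (fun v => pt_nonneg s v.1)
    have hofV : ENNReal.ofReal (∑' v : V, pt s v.1) = ∑' v : V, ENNReal.ofReal (pt s v.1) :=
      ENNReal.ofReal_tsum_of_nonneg (f := fun v : V => pt s v.1)
        (fun v : V => pt_nonneg s (v : HeightOneSpectrum (𝓞 K))) hsumV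
    rw [← ENNReal.ofReal_le_ofReal_iff (mul_nonneg hn0.le h0), ← tsum_ite (fun q => r q = 1) hs1,
      ENNReal.ofReal_mul hn0.le, ENNReal.ofReal_natCast, hofV]
    have h1 : ∑' q : HeightOneSpectrum (𝓞 (fixF gr)), (if r q = 1 then ept s q else 0) =
        ∑' q : {q : HeightOneSpectrum (𝓞 (fixF gr)) | r q = 1}, ept s q.1 := by
      rw [tsum_subtype {q : HeightOneSpectrum (𝓞 (fixF gr)) | r q = 1} (ept s)]
      apply tsum_congr
      intro q
      by_cases hq : r q = 1
      · rw [if_pos hq, Set.indicator_of_mem (show q ∈ {q | r q = 1} from hq)]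
      · rw [if_neg hq, Set.indicator_of_notMem (show q ∉ {q | r q = 1} from hq)]
    rw [h1]
    calc ∑' q : {q : HeightOneSpectrum (𝓞 (fixF gr)) | r q = 1}, ept s q.1 ≤
          ∑' q : {q : HeightOneSpectrum (𝓞 (fixF gr)) | r q = 1}, ept s (ψ q).1 := by
          apply ENNReal.tsum_le_tsum
          intro q
          unfold ept pt
          apply ENNReal.ofReal_le_ofReal
          have h2 : Ideal.absNorm (ψ q).1.asIdeal ≤ Ideal.absNorm q.1.asIdeal := by
            rw [Ideal.absNorm_apply, Ideal.absNorm_apply, Submodule.cardQuot_apply,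
              Submodule.cardQuot_apply]
            have hf : Finite (𝓞 (fixF gr) ⧸ q.1.asIdeal) :=
              Ideal.finiteQuotientOfFreeOfNeBot _ q.1.ne_bot
            have hle : (ψ q).1.asIdeal ≤ q.1.asIdeal.comap (algebraMap (𝓞 K) (𝓞 (fixF gr))) :=
              (hunder q.1).le
            have hge : q.1.asIdeal.comap (algebraMap (𝓞 K) (𝓞 (fixF gr))) ≤ (ψ q).1.asIdeal :=
              (hunder q.1).ge
            exact Nat.card_le_card_of_injective
              (Ideal.quotientMap q.1.asIdeal (algebraMap (𝓞 K) (𝓞 (fixF gr))) hle)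
              (Ideal.quotientMap_injective' hge)
          have h3 : (Ideal.absNorm (ψ q).1.asIdeal : ℝ) ≤ (Ideal.absNorm q.1.asIdeal : ℝ) := by
            exact_mod_cast h2
          have h4 := one_le_norm (ψ q).1
          exact Real.rpow_le_rpow_of_nonpos (by linarith) h3 (by linarith)
      _ = ∑' v : V, ∑' q : ψ ⁻¹' {v}, ept s (ψ q.1).1 :=
          (ENNReal.tsum_fiberwise (fun q => ept s (ψ q).1) ψ).symm
      _ = ∑' v : V, ∑' q : ψ ⁻¹' {v}, ept s v.1 := by
          apply tsum_congr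
          intro v
          apply tsum_congr
          intro q
          have h2 : ψ q.1 = v := q.2
          rw [h2]
      _ ≤ ∑' v : V, (n : ℝ≥0∞) * ept s v.1 := by
          apply ENNReal.tsum_le_tsum
          intro v
          rw [ENNReal.tsum_const]
          apply mul_le_mul_left
          exact_mod_cast hfib v
      _ = (n : ℝ≥0∞) * ∑' v : V, ENNReal.ofReal (pt s v.1) := by
          rw [ENNReal.tsum_mul_left]
          rfl
  refine ⟨(Nat.totient M : ℝ) / M / n, by
    have := Nat.totient_pos.2 hMpos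
    positivity, (∑ d ∈ M.divisors, D d) / n, fun s hs1 hs2 => ?_⟩
  have h1 := (hlow s hs1 hs2).trans (hcomp s hs1 hs2)
  have h2 : (Nat.totient M : ℝ) / M / n * Real.log (1 / (s - 1)) - (∑ d ∈ M.divisors, D d) / n =
      ((Nat.totient M : ℝ) / M * Real.log (1 / (s - 1)) - ∑ d ∈ M.divisors, D d) / n := by
    ring
  rw [h2, div_le_iff₀ hn0]
  exact h1.trans (le_of_eq (mul_comm _ _))

end Pool.Agent.TameArb
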