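import Pool.Agent.TameArb.Comp
import Pool.Agent.TameArb.Cheb

/-!
# From an automorphism without fixed points to primes
-/

set_option autoImplicit false

open Polynomial WithZero NumberField IsDedekindDomain
open scoped WithZero

namespace Pool.Agent.TameArb

theorem exists_split (K : Type) [Field K] [NumberField K] (f : K[X]) :
    ∃ (L : Type) (_ : Field L) (_ : NumberField L) (_ : Algebra K L) (_ : IsGalois K L),
      (f.map (algebraMap K L)).Splits := by
  have hc : CharZero f.SplittingField :=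
    charZero_of_injective_algebraMap (algebraMap K f.SplittingField).injective
  have h1 : FiniteDimensional K f.SplittingField := inferInstance
  have h2 : FiniteDimensional ℚ f.SplittingField := FiniteDimensional.trans ℚ K f.SplittingField
  have h3 : NumberField f.SplittingField := ⟨⟩
  have h4 : Normal K f.SplittingField := Normal.of_isSplittingField f
  have h5 : IsGalois K f.SplittingField := ⟨⟩
  exact ⟨f.SplittingField, inferInstance, h3, inferInstance, h5, IsSplittingField.splits _ f⟩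

section

variable {K : Type*} [Field K] {L : Type*} [Field L] [Algebra K L]
  {v : Valuation K ℤᵐ⁰} {V : Valuation L ℤᵐ⁰} {e : ℕ} {φ : K[X]}

theorem itp_lead (hφ : Good v φ) (hd : 2 ≤ φ.natDegree) (n : ℕ) :
    v (itp φ n).leadingCoeff = 1 := by
  induction n with
  | zero => simp [itp]
  | succ n ih =>
    rw [itp_succ, leadingCoeff_comp, map_mul, map_pow, ih, one_pow, mul_one, hφ.lead]
    rw [itp_natDegree]; positivity

theorem Over.exists_root_close (h : Over v V e) (hφ : Good v φ) (hd : 2 ≤ φ.natDegree) {n : ℕ}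
    {γ : L} (hs : ((itp φ n).map (algebraMap K L) - C γ).Splits) {a : L}
    (ha : V ((ph φ)^[n] a - γ) < 1) : ∃ x : L, (ph φ)^[n] x = γ ∧ V (a - x) < 1 := by
  set P : L[X] := (itp φ n).map (algebraMap K L) with hP
  have hPd : P.natDegree = φ.natDegree ^ n := by rw [hP, natDegree_map, itp_natDegree]
  have hpos : 0 < P.natDegree := by rw [hPd]; positivity
  have hne : P - C γ ≠ 0 := by
    intro h0
    have h1 : P = C γ := sub_eq_zero.mp h0
    rw [h1, natDegree_C] at hpos
    exact lt_irrefl _ hpos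
  have hlead : (P - C γ).leadingCoeff = P.leadingCoeff := by
    rw [leadingCoeff, leadingCoeff, natDegree_sub_C, coeff_sub, coeff_C_of_ne_zero hpos.ne',
      sub_zero]
  have hV : V (P - C γ).leadingCoeff = 1 := by
    rw [hlead, hP, leadingCoeff_map, h.eq_one]
    exact itp_lead hφ hd n
  have hE := hs.eval_eq_prod_roots a
  have hE2 : (P - C γ).eval a = (ph φ)^[n] a - γ := by
    rw [eval_sub, eval_C, hP, eval_map_algebraMap, itp_aeval]
  by_contra hcon
  push Not at hcon
  have h1 : 1 ≤ V ((P - C γ).eval a) := by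
    rw [hE, map_mul, hV, one_mul, map_multiset_prod, Multiset.map_map]
    apply Multiset.one_le_prod_of_one_le
    intro y hy
    obtain ⟨x, hx, rfl⟩ := Multiset.mem_map.mp hy
    rw [mem_roots hne, IsRoot.def, eval_sub, eval_C, sub_eq_zero, hP, eval_map_algebraMap,
      itp_aeval] at hx
    exact hcon x hx
  rw [hE2] at h1
  exact absurd ha (not_lt.mpr h1)

end

section

variable {K : Type} [Field K] [NumberField K]

theorem finite_lt (x : K) (hx : x ≠ 0) :
    {v : HeightOneSpectrum (𝓞 K) | v.valuation K x < 1}.Finite := by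
  obtain ⟨a, b, hb, rfl⟩ := IsFractionRing.div_surjective (A := 𝓞 K) x
  have hb0 : b ≠ 0 := nonZeroDivisors.ne_zero hb
  have ha0 : a ≠ 0 := by
    rintro rfl
    apply hx
    rw [map_zero, zero_div]
  have h1 : (Ideal.span {a} : Ideal (𝓞 K)) ≠ 0 := by simpa using ha0
  refine (Ideal.finite_factors h1).subset ?_
  intro v hv
  have h2 : v.valuation K (algebraMap (𝓞 K) K a) < 1 := by
    have h3 : v.valuation K (algebraMap (𝓞 K) K a) =
        v.valuation K (algebraMap (𝓞 K) K a / algebraMap (𝓞 K) K b) *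
          v.valuation K (algebraMap (𝓞 K) K b) := by
      rw [← map_mul, div_mul_cancel₀]
      exact (_root_.map_ne_zero_iff _ (FaithfulSMul.algebraMap_injective (𝓞 K) K)).mpr hb0
    rw [h3, mul_comm]
    exact mul_lt_one_aux (v.valuation_le_one b) hv
  rw [v.valuation_lt_one_iff_mem] at h2
  exact Ideal.dvd_span_singleton.mpr h2

theorem finite_gt (x : K) : {v : HeightOneSpectrum (𝓞 K) | ¬ v.valuation K x ≤ 1}.Finite := by
  by_cases hx : x = 0
  · rw [hx]; simp
  · refine (finite_lt x⁻¹ (inv_ne_zero hx)).subset ?_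
    intro v hv
    have hv' : 1 < v.valuation K x := not_le.mp hv
    show v.valuation K x⁻¹ < 1
    rw [map_inv₀]
    exact inv_lt_one_of_one_lt₀ hv'

theorem finite_bad {φ : K[X]} (hd : 2 ≤ φ.natDegree) :
    {v : HeightOneSpectrum (𝓞 K) | ¬ Good (v.valuation K) φ}.Finite := by
  classical
  have hl : φ.leadingCoeff ≠ 0 := by
    rw [Ne, leadingCoeff_eq_zero]
    rintro rfl
    simp at hd
  refine ((Set.Finite.biUnion (Finset.finite_toSet (Finset.range (φ.natDegree + 1)))
    fun i _ => finite_gt (φ.coeff i)).union (finite_lt φ.leadingCoeff hl)).subset ?_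
  intro v hv
  by_contra hcon
  apply hv
  simp only [Set.mem_union, Set.mem_iUnion, not_or, not_exists] at hcon
  obtain ⟨h1, h2⟩ := hcon
  have hint : IntP (v.valuation K) φ := by
    intro i
    by_cases hi : i < φ.natDegree + 1
    · by_contra h3
      exact h1 i (by simpa using hi) h3
    · rw [coeff_eq_zero_of_natDegree_lt (by omega), map_zero]
      exact zero_le_one
  refine ⟨hint, le_antisymm (hint _) ?_⟩
  by_contra h3
  exact h2 (not_le.mp h3)

/-- the good primes for a set of points -/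
def GP (φ : K[X]) (Γ : Finset K) : Set (HeightOneSpectrum (𝓞 K)) :=
  {v | Good (v.valuation K) φ ∧ ∀ γ ∈ Γ, v.valuation K γ ≤ 1 ∧ ¬ PerMod (v.valuation K) φ γ}

/-- positive lower Dirichlet density -/
def PosDens (S : Set (HeightOneSpectrum (𝓞 K))) : Prop :=
  ∃ c : ℝ, 0 < c ∧ ∃ C : ℝ, ∀ s : ℝ, 1 < s → s < 2 →
    c * Real.log (1 / (s - 1)) - C ≤ ∑' v : S, pt s v.1

theorem pt_nonneg' (s : ℝ) (v : HeightOneSpectrum (𝓞 K)) : 0 ≤ pt s v := by
  rw [pt]; positivity

theorem PosDens.mono {A S : Set (HeightOneSpectrum (𝓞 K))} (hA : PosDens A) {B : Set _}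
    (hB : B.Finite) (hsub : A ⊆ B ∪ S) : PosDens S := by
  classical
  obtain ⟨c, hc, C, h⟩ := hA
  have hBf : Fintype B := hB.fintype
  refine ⟨c, hc, C + Fintype.card B, ?_⟩
  intro s hs hs2
  have hsum := pt_summable K hs
  have h1 := h s hs hs2
  have h2 : ∑' v : A, pt s v.1 ≤ ∑' v : (B ∪ S : Set _), pt s v.1 :=
    Summable.tsum_le_tsum_of_inj (Set.inclusion hsub) (Set.inclusion_injective hsub)
      (fun _ _ => pt_nonneg' s _) (fun _ => le_rfl) (hsum.subtype _) (hsum.subtype _)
  have h3 : ∑' v : (B ∪ S : Set _), pt s v.1 ≤ ∑' v : B, pt s v.1 + ∑' v : S, pt s v.1 := by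
    have hdis : Disjoint (B \ S) S := Set.disjoint_sdiff_left
    have e1 : (B ∪ S : Set _) = (B \ S) ∪ S := Set.sdiff_union_self.symm
    rw [e1, Summable.tsum_union_disjoint hdis (hsum.subtype _) (hsum.subtype _)]
    have : ∑' v : (B \ S : Set _), pt s v.1 ≤ ∑' v : B, pt s v.1 :=
      Summable.tsum_le_tsum_of_inj (Set.inclusion Set.sdiff_subset)
        (Set.inclusion_injective Set.sdiff_subset)
        (fun _ _ => pt_nonneg' s _) (fun _ => le_rfl) (hsum.subtype _) (hsum.subtype _)
    linarith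
  have h4 : ∑' v : B, pt s v.1 ≤ Fintype.card B := by
    rw [tsum_fintype]
    calc ∑ v : B, pt s v.1 ≤ ∑ _v : B, (1 : ℝ) := by
          apply Finset.sum_le_sum
          intro v _
          rw [pt]
          apply Real.rpow_le_one_of_one_le_of_nonpos _ (by linarith)
          have h0 : Ideal.absNorm v.1.asIdeal ≠ 0 :=
            fun h => v.1.ne_bot (Ideal.absNorm_eq_zero_iff.1 h)
          exact_mod_cast Nat.one_le_iff_ne_zero.mpr h0
      _ = Fintype.card B := by simp
  linarith

theorem PosDens.infinite {S : Set (HeightOneSpectrum (𝓞 K))} (hS : PosDens S) : S.Infinite := by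
  intro hfin
  obtain ⟨c, hc, C, h⟩ := hS
  have hf : Fintype S := hfin.fintype
  -- choose `s` very close to one
  set M : ℝ := (C + Fintype.card S + 1) / c with hM
  set δ : ℝ := min (1 / 2) (Real.exp (-M)) with hδ
  have hδ0 : 0 < δ := lt_min (by norm_num) (Real.exp_pos _)
  have hδ1 : δ ≤ 1 / 2 := min_le_left _ _
  have h1 := h (1 + δ) (by linarith) (by linarith)
  have h2 : ∑' v : S, pt (1 + δ) v.1 ≤ Fintype.card S := by
    rw [tsum_fintype]
    calc ∑ v : S, pt (1 + δ) v.1 ≤ ∑ _v : S, (1 : ℝ) := by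
          apply Finset.sum_le_sum
          intro v _
          rw [pt]
          apply Real.rpow_le_one_of_one_le_of_nonpos _ (by linarith)
          have h0 : Ideal.absNorm v.1.asIdeal ≠ 0 :=
            fun h => v.1.ne_bot (Ideal.absNorm_eq_zero_iff.1 h)
          exact_mod_cast Nat.one_le_iff_ne_zero.mpr h0
      _ = Fintype.card S := by simp
  have h3 : M ≤ Real.log (1 / (1 + δ - 1)) := by
    rw [add_sub_cancel_left, one_div, Real.log_inv]
    have : Real.log δ ≤ -M := by
      rw [← Real.log_exp (-M)]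
      exact Real.log_le_log hδ0 (min_le_right _ _)
    linarith
  have h4 : c * M = C + Fintype.card S + 1 := by
    rw [hM]; field_simp
  have h5 : c * M ≤ c * Real.log (1 / (1 + δ - 1)) := mul_le_mul_of_nonneg_left h3 hc.le
  linarith

theorem main (φ : K[X]) (hd : 2 ≤ φ.natDegree) (Γ : Finset K)
    (hnp : ∀ γ ∈ Γ, ∀ n, 0 < n → (ph φ)^[n] γ ≠ γ) (T : Finset (HeightOneSpectrum (𝓞 K)))
    (hT : ∀ v ∈ T, Good (v.valuation K) φ ∧
      ∃ p : ℕ, p.Prime ∧ v.valuation K (p : K) < 1 ∧ φ.natDegree < p)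
    (v0 : HeightOneSpectrum (𝓞 K)) (hv0 : Good (v0.valuation K) φ)
    (hΓ : ∀ γ ∈ Γ, (∃ v ∈ T, 1 < v.valuation K γ) ∨
      (1 < v0.valuation K γ ∧ v0.valuation K (φ.natDegree : K) = 1) ∨
      (v0.valuation K γ ≤ 1 ∧ ¬ PerMod (v0.valuation K) φ γ)) : PosDens (GP φ Γ) := by
  classical
  obtain ⟨n, hn⟩ := exists_auto hd Γ hnp T hT v0 hv0 hΓ
  set f : K[X] := ∏ γ ∈ Γ, (itp φ n - C γ) with hf
  obtain ⟨L, _, _, _, _, hsplit⟩ := exists_split K f
  obtain ⟨g, hg⟩ := hn L
  -- each factor splits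
  have hf0 : f ≠ 0 := by
    rw [hf]
    apply Finset.prod_ne_zero_iff.mpr
    intro γ _ h0
    have h1 : itp φ n = C γ := sub_eq_zero.mp h0
    have h2 := itp_natDegree φ n
    rw [h1, natDegree_C] at h2
    have : 0 < φ.natDegree ^ n := by positivity
    omega
  have hsp : ∀ γ ∈ Γ, ((itp φ n).map (algebraMap K L) - C (algebraMap K L γ)).Splits := by
    intro γ hγ
    have h1 : (itp φ n - C γ).map (algebraMap K L) ∣ f.map (algebraMap K L) :=
      Polynomial.map_dvd _ (Finset.dvd_prod_of_mem _ hγ)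
    have h2 := hsplit.of_dvd ((Polynomial.map_ne_zero_iff (algebraMap K L).injective).mpr hf0) h1
    rwa [Polynomial.map_sub, map_C] at h2
  have hfib : ∀ γ : K, ∃ S : Finset L, ∀ x, x ∈ S ↔ (ph φ)^[n] x = algebraMap K L γ := by
    intro γ
    obtain ⟨S, -, hS⟩ := exists_fibre φ hd n (algebraMap K L γ)
    exact ⟨S, hS⟩
  choose F hF using hfib
  -- the order of `g`
  have hfinG : Finite (L ≃ₐ[K] L) := inferInstance
  obtain ⟨N, hN, hgN⟩ : ∃ N, 0 < N ∧ g ^ N = 1 :=
    ⟨orderOf g, orderOf_pos g, pow_orderOf_eq_one g⟩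
  have hdens : PosDens {v : HeightOneSpectrum (𝓞 K) | ∃ w : HeightOneSpectrum (𝓞 L),
      w.under (𝓞 K) = v ∧ ∀ z : L, w.valuation L (g z) = w.valuation L z} :=
    fixed_primes K L g N hN hgN
  -- the bad primes
  set B : Set (HeightOneSpectrum (𝓞 K)) := {v | ¬ Good (v.valuation K) φ} ∪
    ((⋃ γ ∈ Γ, {v | ¬ v.valuation K γ ≤ 1}) ∪
      (fun w : HeightOneSpectrum (𝓞 L) => w.under (𝓞 K)) ''
        (⋃ γ ∈ Γ, ⋃ x ∈ F γ, {w | w.valuation L (g x - x) < 1})) with hB
  have hBfin : B.Finite := by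
    refine (finite_bad hd).union (Set.Finite.union ?_ (Set.Finite.image _ ?_))
    · exact Set.Finite.biUnion (Finset.finite_toSet Γ) fun γ _ => finite_gt γ
    · refine Set.Finite.biUnion (Finset.finite_toSet Γ) fun γ hγ => ?_
      refine Set.Finite.biUnion (Finset.finite_toSet (F γ)) fun x hx => ?_
      apply finite_lt
      have h1 := hg γ (Finset.mem_coe.mp hγ) x ((hF γ x).mp (Finset.mem_coe.mp hx))
      exact sub_ne_zero.mpr h1
  refine hdens.mono hBfin ?_
  rintro v ⟨w, hwv, hw⟩
  by_cases hvB : v ∈ B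
  · exact Or.inl hvB
  right
  rw [hB] at hvB
  simp only [Set.mem_union, not_or] at hvB
  obtain ⟨hgood', hint', hclose'⟩ := hvB
  have hgood : Good (v.valuation K) φ := by
    by_contra h; exact hgood' h
  refine ⟨hgood, ?_⟩
  intro γ hγ
  have hγ1 : v.valuation K γ ≤ 1 := by
    by_contra h
    apply hint'
    simp only [Set.mem_iUnion]
    exact ⟨γ, hγ, h⟩
  refine ⟨hγ1, ?_⟩
  rintro ⟨k, hk, hper⟩
  -- the valuation above
  have hlo : w.asIdeal.LiesOver v.asIdeal := by
    rw [← hwv]; exact ⟨rfl⟩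
  set e := v.asIdeal.ramificationIdx' w.asIdeal with he
  have he0 : e ≠ 0 :=
    Ideal.IsDedekindDomain.ramificationIdx'_ne_zero_of_liesOver w.asIdeal v.ne_bot
  have ho : Over (v.valuation K) (w.valuation L) e :=
    ⟨he0, fun x => HeightOneSpectrum.valuation_liesOver L v w x⟩
  -- a preimage of `γ` modulo `v` in `K`
  obtain ⟨m, hm⟩ : ∃ m, k * n + k = n + m := ⟨k * n + k - n, by
    have : n ≤ k * n := Nat.le_mul_of_pos_left n hk
    omega⟩
  have hcong := per_cong hgood hγ1 hper 0 (n + 1)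
  rw [zero_add, show k * (n + 1) = n + m by rw [← hm]; ring, Function.iterate_add_apply] at hcong
  have hcong' : v.valuation K ((ph φ)^[n] ((ph φ)^[m] γ) - γ) < 1 := hcong
  have h1 := ho.lt_one.mpr hcong'
  rw [map_sub, iter_algebraMap] at h1
  obtain ⟨x, hx, hax⟩ := ho.exists_root_close hgood hd (hsp γ hγ) h1
  apply hclose'
  refine ⟨w, ?_, hwv⟩
  simp only [Set.mem_iUnion]
  refine ⟨γ, hγ, x, (hF γ x).mpr hx, ?_⟩
  have h2 : w.valuation L (g (algebraMap K L ((ph φ)^[m] γ) - x)) < 1 := by rw [hw]; exact hax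
  rw [map_sub, g.commutes] at h2
  have e1 : g x - x = (algebraMap K L ((ph φ)^[m] γ) - x) -
      (algebraMap K L ((ph φ)^[m] γ) - g x) := by ring
  show w.valuation L (g x - x) < 1
  rw [e1]
  exact Valuation.map_sub_lt _ hax h2

end

end Pool.Agent.TameArb
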