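import Mathlib

/-!
# A nonperiodic point is nonperiodic modulo some prime
-/

set_option autoImplicit false

open NumberField IsDedekindDomain Polynomial

namespace Pool.Agent.TameArb

section AbsVal

variable {K : Type*} [Field K]

/-- local Lipschitz estimate for a polynomial at a point, for any absolute value -/
theorem abs_eval_sub_le (a : AbsoluteValue K ℝ) (f : K[X]) (p : K) :
    ∃ M : ℝ, 0 < M ∧ ∀ x : K, a (x - p) ≤ 1 → a (f.eval x - f.eval p) ≤ M * a (x - p) := by
  classical
  set q : K[X] := f.comp (X + C p) with hq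
  refine ⟨1 + ∑ i ∈ Finset.range q.natDegree, a (q.coeff (i + 1)), ?_, ?_⟩
  · have : 0 ≤ ∑ i ∈ Finset.range q.natDegree, a (q.coeff (i + 1)) :=
      Finset.sum_nonneg fun i _ => a.nonneg _
    linarith
  intro x hx
  have h1 : f.eval x = q.eval (x - p) := by
    simp [hq, eval_comp]
  have h2 : f.eval p = q.coeff 0 := by
    rw [coeff_zero_eq_eval_zero]
    simp [hq, eval_comp]
  have h3 : f.eval x - f.eval p =
      ∑ i ∈ Finset.range q.natDegree, q.coeff (i + 1) * (x - p) ^ (i + 1) := by
    rw [h1, h2, eval_eq_sum_range, Finset.sum_range_succ']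
    simp
  rw [h3]
  calc a (∑ i ∈ Finset.range q.natDegree, q.coeff (i + 1) * (x - p) ^ (i + 1))
      ≤ ∑ i ∈ Finset.range q.natDegree, a (q.coeff (i + 1) * (x - p) ^ (i + 1)) :=
        a.sum_le _ _
    _ ≤ ∑ i ∈ Finset.range q.natDegree, a (q.coeff (i + 1)) * a (x - p) := by
        refine Finset.sum_le_sum fun i _ => ?_
        rw [a.map_mul, a.map_pow]
        refine mul_le_mul_of_nonneg_left ?_ (a.nonneg _)
        rw [pow_succ]
        have : a (x - p) ^ i ≤ 1 := pow_le_one₀ (a.nonneg _) hx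
        calc a (x - p) ^ i * a (x - p) ≤ 1 * a (x - p) :=
              mul_le_mul_of_nonneg_right this (a.nonneg _)
          _ = a (x - p) := one_mul _
    _ = (∑ i ∈ Finset.range q.natDegree, a (q.coeff (i + 1))) * a (x - p) := by
        rw [Finset.sum_mul]
    _ ≤ (1 + ∑ i ∈ Finset.range q.natDegree, a (q.coeff (i + 1))) * a (x - p) := by
        refine mul_le_mul_of_nonneg_right ?_ (a.nonneg _)
        linarith

theorem abs_eval_cont (a : AbsoluteValue K ℝ) (f : K[X]) (p : K) (η : ℝ) (hη : 0 < η) :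
    ∃ ε : ℝ, 0 < ε ∧ ∀ x : K, a (x - p) < ε → a (f.eval x - f.eval p) < η := by
  obtain ⟨M, hM, h⟩ := abs_eval_sub_le a f p
  refine ⟨min 1 (η / M), lt_min one_pos (div_pos hη hM), fun x hx => ?_⟩
  have h1 : a (x - p) ≤ 1 := (hx.trans_le (min_le_left _ _)).le
  have h2 : a (x - p) < η / M := hx.trans_le (min_le_right _ _)
  calc a (f.eval x - f.eval p) ≤ M * a (x - p) := h x h1
    _ < M * (η / M) := by exact mul_lt_mul_of_pos_left h2 hM
    _ = η := by field_simp

theorem abs_iter_cont (a : AbsoluteValue K ℝ) (f : K[X]) (ζ δ : K) (hζ : f.eval ζ = ζ)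
    (hδ : f.eval δ = ζ) (j : ℕ) (η : ℝ) (hη : 0 < η) :
    ∃ ε : ℝ, 0 < ε ∧ ∀ x : K, a (x - δ) < ε →
      a ((fun x => f.eval x)^[j + 1] x - ζ) < η := by
  induction j generalizing η with
  | zero =>
    obtain ⟨ε, hε, h⟩ := abs_eval_cont a f δ η hη
    refine ⟨ε, hε, fun x hx => ?_⟩
    simpa [hδ] using h x hx
  | succ j ih =>
    obtain ⟨ε₁, hε₁, h₁⟩ := abs_eval_cont a f ζ η hη
    obtain ⟨ε, hε, h⟩ := ih ε₁ hε₁
    refine ⟨ε, hε, fun x hx => ?_⟩
    rw [Function.iterate_succ_apply']
    have := h₁ _ (h x hx)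
    rwa [hζ] at this

theorem abs_gap (a : AbsoluteValue K ℝ) (f : K[X]) (ζ δ : K) (hζ : f.eval ζ = ζ)
    (hδ : f.eval δ = ζ) (hne : δ ≠ ζ) (N : ℕ) :
    ∃ ε : ℝ, 0 < ε ∧ ∀ x : K, a (x - δ) < ε → ∀ j < N,
      ε ≤ a ((fun x => f.eval x)^[j + 1] x - δ) := by
  have hpos : 0 < a (δ - ζ) := a.pos (sub_ne_zero.mpr hne)
  have key : ∃ ε : ℝ, 0 < ε ∧ ∀ x : K, a (x - δ) < ε → ∀ j < N,
      a ((fun x => f.eval x)^[j + 1] x - ζ) < a (δ - ζ) / 2 := by
    induction N with
    | zero => exact ⟨1, one_pos, fun x _ j hj => absurd hj (Nat.not_lt_zero _)⟩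
    | succ N ih =>
      obtain ⟨ε₁, hε₁, h₁⟩ := ih
      obtain ⟨ε₂, hε₂, h₂⟩ := abs_iter_cont a f ζ δ hζ hδ N (a (δ - ζ) / 2) (half_pos hpos)
      refine ⟨min ε₁ ε₂, lt_min hε₁ hε₂, fun x hx j hj => ?_⟩
      rcases Nat.lt_succ_iff_lt_or_eq.mp hj with hj | rfl
      · exact h₁ x (hx.trans_le (min_le_left _ _)) j hj
      · exact h₂ x (hx.trans_le (min_le_right _ _))
  obtain ⟨ε, hε, h⟩ := key
  refine ⟨min ε (a (δ - ζ) / 2), lt_min hε (half_pos hpos), fun x hx j hj => ?_⟩
  have h1 := h x (hx.trans_le (min_le_left _ _)) j hj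
  have h2 : a (δ - ζ) ≤ a ((fun x => f.eval x)^[j + 1] x - δ) +
      a ((fun x => f.eval x)^[j + 1] x - ζ) := by
    have := a.add_le (δ - (fun x => f.eval x)^[j + 1] x)
      ((fun x => f.eval x)^[j + 1] x - ζ)
    rw [sub_add_sub_cancel] at this
    rwa [a.map_sub δ ((fun x => f.eval x)^[j + 1] x)] at this
  refine (min_le_right _ _).trans ?_
  linarith

/-- in every window there is an index which is good for all the given absolute values -/
theorem window (T : Finset (AbsoluteValue K ℝ)) (f : K[X]) (ζ δ : K) (hζ : f.eval ζ = ζ)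
    (hδ : f.eval δ = ζ) (hne : δ ≠ ζ) (γ : K) :
    ∃ ε : AbsoluteValue K ℝ → ℝ, (∀ a, 0 < ε a) ∧ ∀ m₀ : ℕ, ∃ m, m₀ ≤ m ∧ ∀ a ∈ T,
      ε a ≤ a ((fun x => f.eval x)^[m] γ - δ) := by
  classical
  choose ε hε h using fun a : AbsoluteValue K ℝ => abs_gap a f ζ δ hζ hδ hne T.card
  refine ⟨ε, hε, fun m₀ => ?_⟩
  by_contra hcon
  push Not at hcon
  have hcon' : ∀ i : ℕ, ∃ a ∈ T, a ((fun x => f.eval x)^[m₀ + i] γ - δ) < ε a :=
    fun i => hcon (m₀ + i) (Nat.le_add_right _ _)
  choose b hbT hb using hcon'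
  -- pigeonhole on `Finset.range (T.card + 1)`
  obtain ⟨i, hi, j, hj, hij, hbij⟩ := Finset.exists_ne_map_eq_of_card_lt_of_maps_to
    (s := Finset.range (T.card + 1)) (t := T) (f := b) (by simp) (fun i _ => hbT i)
  wlog hlt : i < j generalizing i j
  · exact this j hj i hi (Ne.symm hij) hbij.symm (lt_of_le_of_ne (not_lt.mp hlt) (Ne.symm hij))
  rw [Finset.mem_range] at hi hj
  have h1 := h (b i) ((fun x => f.eval x)^[m₀ + i] γ) (hb i) (j - i - 1) (by omega)
  rw [← Function.iterate_add_apply] at h1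
  have h2 : j - i - 1 + 1 + (m₀ + i) = m₀ + j := by omega
  rw [h2, hbij] at h1
  exact absurd (hb j) (not_lt.mpr h1)

end AbsVal

section Valu

variable {K : Type*} [Field K] {Γ : Type*} [LinearOrderedCommGroupWithZero Γ]

theorem val_eval_le_one (v : Valuation K Γ) (f : K[X]) (hf : ∀ i, v (f.coeff i) ≤ 1) (x : K)
    (hx : v x ≤ 1) : v (f.eval x) ≤ 1 := by
  rw [eval_eq_sum_range]
  refine v.map_sum_le fun i _ => ?_
  rw [map_mul, map_pow]
  exact mul_le_one' (hf i) (pow_le_one' hx i)

theorem val_pow_sub_le (v : Valuation K Γ) (x y : K) (hx : v x ≤ 1) (hy : v y ≤ 1) (n : ℕ) :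
    v (x ^ n - y ^ n) ≤ v (x - y) := by
  induction n with
  | zero => simp
  | succ n ih =>
    have : x ^ (n + 1) - y ^ (n + 1) = x ^ n * (x - y) + (x ^ n - y ^ n) * y := by ring
    rw [this]
    refine (v.map_add _ _).trans (max_le ?_ ?_)
    · rw [map_mul, map_pow]
      exact mul_le_of_le_one_left' (pow_le_one' hx n)
    · rw [map_mul]
      exact (mul_le_of_le_one_right' hy).trans ih

theorem val_eval_sub_le (v : Valuation K Γ) (f : K[X]) (hf : ∀ i, v (f.coeff i) ≤ 1) (x y : K)
    (hx : v x ≤ 1) (hy : v y ≤ 1) : v (f.eval x - f.eval y) ≤ v (x - y) := by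
  rw [eval_eq_sum_range, eval_eq_sum_range, ← Finset.sum_sub_distrib]
  refine v.map_sum_le fun i _ => ?_
  rw [← mul_sub, map_mul]
  exact (mul_le_of_le_one_left' (hf i)).trans (val_pow_sub_le v x y hx hy i)

theorem val_iter_le_one (v : Valuation K Γ) (f : K[X]) (hf : ∀ i, v (f.coeff i) ≤ 1) (x : K)
    (hx : v x ≤ 1) (n : ℕ) : v ((fun x => f.eval x)^[n] x) ≤ 1 := by
  induction n with
  | zero => simpa using hx
  | succ n ih =>
    rw [Function.iterate_succ_apply']
    exact val_eval_le_one v f hf _ ih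

theorem val_iter_sub_le (v : Valuation K Γ) (f : K[X]) (hf : ∀ i, v (f.coeff i) ≤ 1) (x y : K)
    (hx : v x ≤ 1) (hy : v y ≤ 1) (n : ℕ) :
    v ((fun x => f.eval x)^[n] x - (fun x => f.eval x)^[n] y) ≤ v (x - y) := by
  induction n with
  | zero => simp
  | succ n ih =>
    rw [Function.iterate_succ_apply', Function.iterate_succ_apply']
    exact (val_eval_sub_le v f hf _ _ (val_iter_le_one v f hf x hx n)
      (val_iter_le_one v f hf y hy n)).trans ih

/-- if `γ` is periodic modulo `v` then its orbit avoids `δ` modulo `v` -/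
theorem val_orbit_sub_eq_one (v : Valuation K Γ) (f : K[X]) (hf : ∀ i, v (f.coeff i) ≤ 1)
    (ζ δ γ : K) (hζ : f.eval ζ = ζ) (hδ : f.eval δ = ζ) (hvζ : v ζ ≤ 1) (hvδ : v δ ≤ 1)
    (hvγ : v γ ≤ 1) (hne : ¬ v (δ - ζ) < 1) (n : ℕ) (hn : 0 < n)
    (hper : v ((fun x => f.eval x)^[n] γ - γ) < 1) (m : ℕ) :
    v ((fun x => f.eval x)^[m] γ - δ) = 1 := by
  have hint := fun k => val_iter_le_one v f hf γ hvγ k
  refine le_antisymm ?_ (not_lt.mp fun hlt => hne ?_)
  · exact (v.map_sub _ _).trans (max_le (hint m) hvδ)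
  have h0 : ∀ k, v ((fun x => f.eval x)^[m + (k + 1)] γ - ζ) < 1 := by
    intro k
    induction k with
    | zero =>
      rw [zero_add, Function.iterate_succ_apply']
      have := val_eval_sub_le v f hf _ _ (hint m) hvδ
      rw [hδ] at this
      exact this.trans_lt hlt
    | succ k ih =>
      rw [← add_assoc, Function.iterate_succ_apply']
      have := val_eval_sub_le v f hf _ _ (hint (m + (k + 1))) hvζ
      rw [hζ] at this
      exact this.trans_lt ih
  obtain ⟨k, rfl⟩ : ∃ k, n = k + 1 := ⟨n - 1, by omega⟩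
  have h1 : v ((fun x => f.eval x)^[m + (k + 1)] γ - (fun x => f.eval x)^[m] γ) < 1 := by
    rw [Function.iterate_add_apply]
    exact (val_iter_sub_le v f hf _ _ (hint (k + 1)) hvγ m).trans_lt hper
  have h2 := h0 k
  have h3 : δ - ζ = ((fun x => f.eval x)^[m + (k + 1)] γ - ζ) -
      ((fun x => f.eval x)^[m + (k + 1)] γ - (fun x => f.eval x)^[m] γ) -
      ((fun x => f.eval x)^[m] γ - δ) := by ring
  rw [h3]
  exact (v.map_sub_lt (v.map_sub_lt h2 h1) hlt)

end Valu

section NF

variable {K : Type*} [Field K] [NumberField K]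

/-- a form of the Northcott property -/
theorem finite_bounded (S : Set (HeightOneSpectrum (𝓞 K))) (hS : S.Finite)
    (B : AbsoluteValue K ℝ → ℝ) :
    {y : K | (∀ w : InfinitePlace K, w.val y ≤ B w.val) ∧
      (∀ v ∈ S, (FinitePlace.mk v).val y ≤ B (FinitePlace.mk v).val) ∧
      ∀ v, v ∉ S → v.valuation K y ≤ 1}.Finite := by
  classical
  set T : Finset (FinitePlace K) := hS.toFinset.image FinitePlace.mk with hT
  set C : ℝ := (∏ w : InfinitePlace K, max (B w.val) 1 ^ w.mult) *
    ∏ w ∈ T, max (B w.val) 1 with hC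
  refine (NumberField.finite_setOfPred_mulHeight₁_le K C).subset ?_
  rintro y ⟨h1, h2, h3⟩
  simp only [Set.mem_ofPred_eq]
  rw [NumberField.mulHeight₁_eq]
  have h4 : ∏ᶠ w : FinitePlace K, max (w y) 1 = ∏ w ∈ T, max (w y) 1 := by
    refine finprod_eq_finsetProd_of_mulSupport_subset _ ?_
    intro w hw
    rw [Function.mem_mulSupport] at hw
    by_contra hwT
    apply hw
    have hwS : w.maximalIdeal ∉ S := by
      intro h
      apply hwT
      rw [hT, Finset.mem_coe, Finset.mem_image]
      exact ⟨w.maximalIdeal, by simpa using h, FinitePlace.mk_maximalIdeal w⟩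
    have h5 := h3 _ hwS
    have h6 : w y ≤ 1 := by
      rw [← FinitePlace.norm_embedding_eq w y, FinitePlace.norm_embedding']
      have := (WithZeroMulInt.toNNReal_strictMono
        (NumberField.HeightOneSpectrum.one_lt_absNorm_nnreal w.maximalIdeal)).monotone h5
      rw [map_one] at this
      exact_mod_cast this
    exact max_eq_right h6
  rw [h4, hC]
  refine mul_le_mul ?_ ?_ ?_ ?_
  · refine Finset.prod_le_prod (fun w _ => by positivity) fun w _ => ?_
    exact pow_le_pow_left₀ (by positivity) (max_le_max (h1 w) le_rfl) _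
  · refine Finset.prod_le_prod (fun w _ => by positivity) fun w hw => ?_
    refine max_le_max ?_ le_rfl
    rw [hT, Finset.mem_image] at hw
    obtain ⟨v, hv, rfl⟩ := hw
    exact h2 v (by simpa using hv)
  · exact Finset.prod_nonneg fun w _ => by positivity
  · exact Finset.prod_nonneg fun w _ => by positivity

/-- the infinite orbit case, given a fixed point and another preimage of it -/
theorem exists_prime_of_inj (f : K[X]) (ζ δ γ : K) (hζ : f.eval ζ = ζ) (hδ : f.eval δ = ζ)
    (hne : δ ≠ ζ) (hinj : Function.Injective fun m => (fun x => f.eval x)^[m] γ)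
    (S : Set (HeightOneSpectrum (𝓞 K))) (hS : S.Finite)
    (hSf : ∀ v, v ∉ S → ∀ i, v.valuation K (f.coeff i) ≤ 1)
    (hSζ : ∀ v, v ∉ S → v.valuation K ζ ≤ 1) (hSδ : ∀ v, v ∉ S → v.valuation K δ ≤ 1)
    (hSγ : ∀ v, v ∉ S → v.valuation K γ ≤ 1)
    (hSne : ∀ v, v ∉ S → ¬ v.valuation K (δ - ζ) < 1) :
    ∃ v, v ∉ S ∧ ∀ n, 0 < n → ¬ v.valuation K ((fun x => f.eval x)^[n] γ - γ) < 1 := by
  classical
  by_contra hcon
  push Not at hcon
  have hone : ∀ v, v ∉ S → ∀ m, v.valuation K ((fun x => f.eval x)^[m] γ - δ) = 1 := by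
    intro v hv m
    obtain ⟨n, hn, hper⟩ := hcon v hv
    exact val_orbit_sub_eq_one (v.valuation K) f (hSf v hv) ζ δ γ hζ hδ (hSζ v hv) (hSδ v hv)
      (hSγ v hv) (hSne v hv) n hn hper m
  set T : Finset (AbsoluteValue K ℝ) := (Finset.univ : Finset (InfinitePlace K)).image
    (fun w => w.val) ∪ hS.toFinset.image (fun v => (FinitePlace.mk v).val) with hT
  obtain ⟨ε, hε, hwin⟩ := window T f ζ δ hζ hδ hne γ
  have hfin := finite_bounded S hS fun a => (ε a)⁻¹
  set G : Set ℕ := {m | ∀ a ∈ T, ε a ≤ a ((fun x => f.eval x)^[m] γ - δ)} with hG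
  have hGinf : G.Infinite := by
    refine Set.infinite_of_forall_exists_gt fun m₀ => ?_
    obtain ⟨m, hm, h⟩ := hwin (m₀ + 1)
    exact ⟨m, h, by omega⟩
  have hyinj : Function.Injective fun m => ((fun x => f.eval x)^[m] γ - δ)⁻¹ := by
    intro m m' h
    have h := inv_injective h
    exact hinj (sub_left_injective h)
  refine hGinf ((hfin.preimage hyinj.injOn).subset ?_)
  intro m hm
  rw [Set.mem_preimage]
  have hbd : ∀ a ∈ T, a (((fun x => f.eval x)^[m] γ - δ)⁻¹) ≤ (ε a)⁻¹ := by
    intro a ha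
    rw [map_inv₀]
    exact inv_anti₀ (hε a) (hm a ha)
  refine ⟨fun w => hbd _ ?_, fun v hv => hbd _ ?_, fun v hv => ?_⟩
  · rw [hT]
    exact Finset.mem_union_left _ (Finset.mem_image_of_mem _ (Finset.mem_univ w))
  · rw [hT]
    exact Finset.mem_union_right _ (Finset.mem_image_of_mem _ (by simpa using hv))
  · rw [map_inv₀, hone v hv m, inv_one]

theorem finite_one_lt (x : K) : {v : HeightOneSpectrum (𝓞 K) | 1 < v.valuation K x}.Finite :=
  HeightOneSpectrum.Support.finite (𝓞 K) x

theorem finite_lt_one (x : K) (hx : x ≠ 0) :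
    {v : HeightOneSpectrum (𝓞 K) | v.valuation K x < 1}.Finite := by
  refine (finite_one_lt (x⁻¹)).subset fun v hv => ?_
  simp only [Set.mem_ofPred_eq] at hv ⊢
  rw [map_inv₀]
  exact (one_lt_inv₀ (zero_lt_iff.mpr ((v.valuation K).ne_zero_iff.mpr hx))).mpr hv

theorem finite_bad_coeff (f : K[X]) :
    {v : HeightOneSpectrum (𝓞 K) | ∃ i, 1 < v.valuation K (f.coeff i)}.Finite := by
  have h : {v : HeightOneSpectrum (𝓞 K) | ∃ i, 1 < v.valuation K (f.coeff i)} ⊆
      ⋃ i ∈ Finset.range (f.natDegree + 1),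
        {v : HeightOneSpectrum (𝓞 K) | 1 < v.valuation K (f.coeff i)} := by
    rintro v ⟨i, hi⟩
    simp only [Set.mem_iUnion, Finset.mem_range]
    refine ⟨i, ?_, hi⟩
    by_contra hlt
    have : f.coeff i = 0 := coeff_eq_zero_of_natDegree_lt (by omega)
    rw [this, map_zero] at hi
    exact absurd hi (by simp)
  exact (Set.Finite.biUnion (Finset.finite_toSet _) fun i _ => finite_one_lt (f.coeff i)).subset h

variable (K) in
theorem infinite_primes : Infinite (HeightOneSpectrum (𝓞 K)) := by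
  classical
  rw [← not_finite_iff_infinite]
  intro hfin
  have := Fintype.ofFinite (HeightOneSpectrum (𝓞 K))
  set N : ℕ := ∏ v : HeightOneSpectrum (𝓞 K), Ideal.absNorm v.asIdeal with hN
  have hNpos : 0 < N := Finset.prod_pos fun v _ =>
    lt_trans one_pos (NumberField.HeightOneSpectrum.one_lt_absNorm v)
  have hmem : ∀ v : HeightOneSpectrum (𝓞 K), ((N : ℕ) : 𝓞 K) ∈ v.asIdeal := by
    intro v
    have h1 : Ideal.absNorm v.asIdeal ∣ N := Finset.dvd_prod_of_mem _ (Finset.mem_univ v)
    obtain ⟨c, hc⟩ := h1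
    rw [hc, Nat.cast_mul]
    exact Ideal.mul_mem_right _ _ (Ideal.absNorm_mem _)
  have hne : Ideal.span {((N + 1 : ℕ) : 𝓞 K)} ≠ ⊤ := by
    intro h
    have h1 := Ideal.absNorm_span_natCast (S := 𝓞 K) (N + 1)
    rw [h, Ideal.absNorm_top] at h1
    have h2 : 1 < (N + 1) ^ Module.finrank ℤ (𝓞 K) :=
      Nat.one_lt_pow (by
        rw [RingOfIntegers.rank]
        exact (Module.finrank_pos (R := ℚ) (M := K)).ne') (by omega)
    omega
  obtain ⟨M, hM, hle⟩ := Ideal.exists_le_maximal _ hne
  have hmemM : ((N + 1 : ℕ) : 𝓞 K) ∈ M := hle (Ideal.mem_span_singleton_self _)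
  have hbot : M ≠ ⊥ := by
    rintro rfl
    rw [Ideal.mem_bot] at hmemM
    exact absurd hmemM (Nat.cast_ne_zero.mpr (Nat.succ_ne_zero N))
  have h1 := hmem ⟨M, hM.isPrime, hbot⟩
  have h2 : (1 : 𝓞 K) ∈ M := by
    have : (1 : 𝓞 K) = ((N + 1 : ℕ) : 𝓞 K) - ((N : ℕ) : 𝓞 K) := by push_cast; ring
    rw [this]
    exact M.sub_mem hmemM h1
  exact hM.ne_top ((Ideal.eq_top_iff_one M).mpr h2)

end NF

section Closed

theorem eq_pow_of_roots {F : Type*} [Field F] [IsAlgClosed F] (g : F[X]) (ζ : F) (hg : g ≠ 0)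
    (h : ∀ x, g.eval x = 0 → x = ζ) : g = C g.leadingCoeff * (X - C ζ) ^ g.natDegree := by
  have hs := IsAlgClosed.splits g
  have hr : g.roots = Multiset.replicate g.natDegree ζ := by
    rw [Multiset.eq_replicate]
    exact ⟨hs.natDegree_eq_card_roots.symm, fun b hb => h b ((mem_roots hg).mp hb)⟩
  conv_lhs => rw [hs.eq_prod_roots, hr]
  simp

/-- over an algebraically closed field of characteristic zero some fixed point of `f` has another
preimage -/
theorem exists_fixed_preimage {F : Type*} [Field F] [IsAlgClosed F] [CharZero F] (f : F[X])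
    (hd : 2 ≤ f.natDegree) : ∃ ζ δ : F, f.eval ζ = ζ ∧ f.eval δ = ζ ∧ δ ≠ ζ := by
  by_contra hcon
  push Not at hcon
  have hX : (X : F[X]).natDegree < f.natDegree := by
    rw [natDegree_X]; omega
  have hXd : (X : F[X]).degree < f.degree := degree_lt_degree hX
  have hn1 : (f - X).natDegree = f.natDegree := natDegree_sub_eq_left_of_natDegree_lt hX
  have hl1 : (f - X).leadingCoeff = f.leadingCoeff := leadingCoeff_sub_of_degree_lt hXd
  obtain ⟨ζ, hζ⟩ := IsAlgClosed.exists_root (f - X) (by
    intro h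
    have : (f - X).natDegree = 0 := natDegree_eq_zero_iff_degree_le_zero.mpr h.le
    omega)
  rw [IsRoot.def, eval_sub, eval_X, sub_eq_zero] at hζ
  have hCd : (C ζ : F[X]).natDegree < f.natDegree := by
    rw [natDegree_C]; omega
  have hn2 : (f - C ζ).natDegree = f.natDegree := natDegree_sub_eq_left_of_natDegree_lt hCd
  have hl2 : (f - C ζ).leadingCoeff = f.leadingCoeff :=
    leadingCoeff_sub_of_degree_lt (degree_lt_degree hCd)
  have hlc : f.leadingCoeff ≠ 0 := leadingCoeff_ne_zero.mpr (by rintro rfl; simp at hd)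
  have h2 : f - C ζ = C f.leadingCoeff * (X - C ζ) ^ f.natDegree := by
    have := eq_pow_of_roots (f - C ζ) ζ (by
      intro h
      rw [h, natDegree_zero] at hn2
      omega) (fun x hx => by
        rw [eval_sub, eval_C, sub_eq_zero] at hx
        exact hcon ζ x hζ hx)
    rwa [hl2, hn2] at this
  -- the derivative vanishes only at `ζ`
  have hder : derivative f = C f.leadingCoeff *
      (C (f.natDegree : F) * (X - C ζ) ^ (f.natDegree - 1)) := by
    have h3 : derivative (f - C ζ) = derivative f := by simp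
    rw [← h3, h2]
    simp [derivative_X_sub_C_pow]
  have hder0 : ∀ x, (derivative f).eval x = 0 → x = ζ := by
    intro x hx
    rw [hder] at hx
    simp only [eval_mul, eval_C, eval_pow, eval_sub, eval_X, mul_eq_zero] at hx
    rcases hx with hx | hx | hx
    · exact absurd hx hlc
    · exact absurd hx (Nat.cast_ne_zero.mpr (by omega))
    · exact sub_eq_zero.mp ((pow_eq_zero_iff (by omega)).mp hx)
  have hfix : ∀ x, (f - X).eval x = 0 → x = ζ := by
    intro x hx
    rw [eval_sub, eval_X, sub_eq_zero] at hx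
    apply hder0
    have h4 : f - C x = C f.leadingCoeff * (X - C x) ^ f.natDegree := by
      have hCd' : (C x : F[X]).natDegree < f.natDegree := by
        rw [natDegree_C]; omega
      have hn3 : (f - C x).natDegree = f.natDegree := natDegree_sub_eq_left_of_natDegree_lt hCd'
      have hl3 : (f - C x).leadingCoeff = f.leadingCoeff :=
        leadingCoeff_sub_of_degree_lt (degree_lt_degree hCd')
      have := eq_pow_of_roots (f - C x) x (by
        intro h
        rw [h, natDegree_zero] at hn3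
        omega) (fun y hy => by
          rw [eval_sub, eval_C, sub_eq_zero] at hy
          exact hcon x y hx hy)
      rwa [hl3, hn3] at this
    have h5 : derivative f = derivative (f - C x) := by simp
    rw [h5, h4]
    simp only [derivative_mul, derivative_C, zero_mul, zero_add, derivative_X_sub_C_pow, eval_mul,
      eval_C, eval_pow, eval_sub, eval_X, sub_self]
    rw [zero_pow (by omega)]
    simp
  have h6 : f - X = C f.leadingCoeff * (X - C ζ) ^ f.natDegree := by
    have := eq_pow_of_roots (f - X) ζ (by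
      intro h
      rw [h, natDegree_zero] at hn1
      omega) hfix
    rwa [hl1, hn1] at this
  have h7 : (X : F[X]) = C ζ := by
    have h8 : f - X = f - C ζ := h6.trans h2.symm
    exact sub_right_injective h8
  have := congrArg natDegree h7
  rw [natDegree_X, natDegree_C] at this
  exact absurd this one_ne_zero

end Closed

/-- the valuations of `K` and of an extension -/
theorem under_le_one_iff {K L : Type*} [Field K] [NumberField K] [Field L] [NumberField L]
    [Algebra K L] (w : HeightOneSpectrum (𝓞 L)) :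
    ∃ e : ℕ, e ≠ 0 ∧ ∀ x : K, (w.under (𝓞 K)).valuation K x ^ e =
      w.valuation L (algebraMap K L x) := by
  have : w.asIdeal.LiesOver (w.under (𝓞 K)).asIdeal := ⟨rfl⟩
  refine ⟨(w.under (𝓞 K)).asIdeal.ramificationIdx' w.asIdeal,
    Ideal.IsDedekindDomain.ramificationIdx'_ne_zero_of_liesOver w.asIdeal (w.under (𝓞 K)).ne_bot,
    fun x => HeightOneSpectrum.valuation_liesOver L (w.under (𝓞 K)) w x⟩

theorem exists_ext (K : Type) [Field K] [NumberField K] (φ : K[X]) (hd : 2 ≤ φ.natDegree) :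
    ∃ (L : Type) (_ : Field L) (_ : NumberField L) (_ : Algebra K L) (ζ δ : L),
      (φ.map (algebraMap K L)).eval ζ = ζ ∧ (φ.map (algebraMap K L)).eval δ = ζ ∧ δ ≠ ζ := by
  obtain ⟨ζ, δ, h1, h2, h3⟩ := exists_fixed_preimage (φ.map (algebraMap K (AlgebraicClosure K)))
    (by rwa [natDegree_map])
  have hfd : FiniteDimensional K (IntermediateField.adjoin K {ζ, δ}) :=
    IntermediateField.finiteDimensional_adjoin_pair (Algebra.IsIntegral.isIntegral ζ)
      (Algebra.IsIntegral.isIntegral δ)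
  have hnf : NumberField (IntermediateField.adjoin K {ζ, δ}) :=
    NumberField.of_module_finite K _
  have hζ : ζ ∈ IntermediateField.adjoin K {ζ, δ} :=
    IntermediateField.subset_adjoin K _ (by simp)
  have hδ : δ ∈ IntermediateField.adjoin K {ζ, δ} :=
    IntermediateField.subset_adjoin K _ (by simp)
  have hev : ∀ x : IntermediateField.adjoin K {ζ, δ},
      (((φ.map (algebraMap K (IntermediateField.adjoin K {ζ, δ}))).eval x :
        IntermediateField.adjoin K {ζ, δ}) : AlgebraicClosure K) =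
      (φ.map (algebraMap K (AlgebraicClosure K))).eval (x : AlgebraicClosure K) := by
    intro x
    rw [eval_map_algebraMap, eval_map_algebraMap]
    exact (aeval_algebraMap_apply (AlgebraicClosure K) x φ).symm
  refine ⟨IntermediateField.adjoin K {ζ, δ}, inferInstance, hnf, inferInstance, ⟨ζ, hζ⟩, ⟨δ, hδ⟩,
    ?_, ?_, ?_⟩
  · apply Subtype.ext
    rw [hev]
    exact h1
  · apply Subtype.ext
    rw [hev]
    exact h2
  · intro h
    exact h3 (congrArg Subtype.val h)

theorem iterate_map {K L : Type*} [Field K] [Field L] [Algebra K L] (φ : K[X]) (γ : K) (n : ℕ) :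
    (fun x => (φ.map (algebraMap K L)).eval x)^[n] (algebraMap K L γ) =
      algebraMap K L ((fun x => φ.eval x)^[n] γ) := by
  induction n with
  | zero => rfl
  | succ n ih =>
    rw [Function.iterate_succ_apply', Function.iterate_succ_apply', ih, eval_map_algebraMap,
      aeval_algebraMap_apply]
    simp

/-- ONEP -/
theorem exists_prime_nonperiodic (K : Type) [Field K] [NumberField K] (φ : K[X])
    (hd : 2 ≤ φ.natDegree) (γ : K) (hγ : ∀ n, 0 < n → (fun x => φ.eval x)^[n] γ ≠ γ) :
    ∃ v : HeightOneSpectrum (𝓞 K), (∀ i, v.valuation K (φ.coeff i) ≤ 1) ∧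
      v.valuation K φ.leadingCoeff = 1 ∧ v.valuation K γ ≤ 1 ∧
      ∀ n, 0 < n → ¬ v.valuation K ((fun x => φ.eval x)^[n] γ - γ) < 1 := by
  classical
  have hlc : φ.leadingCoeff ≠ 0 := leadingCoeff_ne_zero.mpr (by rintro rfl; simp at hd)
  by_cases hinj : Function.Injective fun m => (fun x => φ.eval x)^[m] γ
  · -- infinite orbit
    obtain ⟨L, _, _, _, ζ, δ, hζ, hδ, hne⟩ := exists_ext K φ hd
    set S : Set (HeightOneSpectrum (𝓞 L)) :=
      {w | ∃ i, 1 < w.valuation L ((φ.map (algebraMap K L)).coeff i)} ∪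
      {w | w.valuation L (algebraMap K L φ.leadingCoeff) < 1} ∪ {w | 1 < w.valuation L ζ} ∪
      {w | 1 < w.valuation L δ} ∪ {w | 1 < w.valuation L (algebraMap K L γ)} ∪
      {w | w.valuation L (δ - ζ) < 1} with hS
    have hSfin : S.Finite := by
      refine (((((finite_bad_coeff _).union (finite_lt_one _ ?_)).union (finite_one_lt _)).union
        (finite_one_lt _)).union (finite_one_lt _)).union (finite_lt_one _ ?_)
      · rwa [Ne, map_eq_zero]
      · exact sub_ne_zero.mpr hne
    obtain ⟨w, hw, hper⟩ := exists_prime_of_inj (φ.map (algebraMap K L)) ζ δ (algebraMap K L γ)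
      hζ hδ hne (fun i j hij => hinj (by
        simp only [iterate_map] at hij
        exact (algebraMap K L).injective hij)) S hSfin
      (fun v hv i => by
        by_contra h
        exact hv (Or.inl (Or.inl (Or.inl (Or.inl (Or.inl ⟨i, not_le.mp h⟩))))))
      (fun v hv => by
        by_contra h
        exact hv (Or.inl (Or.inl (Or.inl (Or.inr (not_le.mp h))))))
      (fun v hv => by
        by_contra h
        exact hv (Or.inl (Or.inl (Or.inr (not_le.mp h)))))
      (fun v hv => by
        by_contra h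
        exact hv (Or.inl (Or.inr (not_le.mp h))))
      (fun v hv h => hv (Or.inr h))
    obtain ⟨e, he, hval⟩ := under_le_one_iff (K := K) w
    have hle : ∀ x : K, w.valuation L (algebraMap K L x) ≤ 1 →
        (w.under (𝓞 K)).valuation K x ≤ 1 := by
      intro x hx
      rw [← hval] at hx
      exact (pow_le_one_iff he).mp hx
    have hlt : ∀ x : K, (w.under (𝓞 K)).valuation K x < 1 →
        w.valuation L (algebraMap K L x) < 1 := by
      intro x hx
      rw [← hval]
      exact pow_lt_one' hx he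
    have hcoef : ∀ i, (w.under (𝓞 K)).valuation K (φ.coeff i) ≤ 1 := by
      intro i
      apply hle
      by_contra h
      rw [← coeff_map] at h
      exact hw (Or.inl (Or.inl (Or.inl (Or.inl (Or.inl ⟨i, not_le.mp h⟩)))))
    refine ⟨w.under (𝓞 K), hcoef, ?_, ?_, ?_⟩
    · refine le_antisymm (hcoef _) (not_lt.mp fun h => ?_)
      exact hw (Or.inl (Or.inl (Or.inl (Or.inl (Or.inr (hlt _ h))))))
    · apply hle
      by_contra h
      exact hw (Or.inl (Or.inr (not_le.mp h)))
    · intro n hn h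
      apply hper n hn
      rw [iterate_map, ← map_sub]
      exact hlt _ h
  · -- finite orbit
    rw [Function.Injective] at hinj
    push Not at hinj
    obtain ⟨i, j, hij, hne⟩ := hinj
    wlog hlt : i < j generalizing i j
    · exact this j i hij.symm hne.symm (lt_of_le_of_ne (not_lt.mp hlt) (Ne.symm hne))
    have hrep : ∀ n, 0 < n → ∃ k < j, (fun x => φ.eval x)^[n] γ =
        (fun x => φ.eval x)^[k + 1] γ := by
      intro n
      induction n using Nat.strong_induction_on with
      | _ n ih =>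
        intro hn
        by_cases h : n ≤ j
        · exact ⟨n - 1, by omega, by rw [Nat.sub_add_cancel hn]⟩
        · obtain ⟨k, hk, hk'⟩ := ih (n - (j - i)) (by omega) (by omega)
          refine ⟨k, hk, ?_⟩
          rw [← hk']
          have h1 : n = (n - j) + j := by omega
          have h2 : n - (j - i) = (n - j) + i := by omega
          rw [h2, h1, Function.iterate_add_apply, ← hij, ← Function.iterate_add_apply]
          simp
    set S : Set (HeightOneSpectrum (𝓞 K)) := {v | ∃ i, 1 < v.valuation K (φ.coeff i)} ∪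
      {v | v.valuation K φ.leadingCoeff < 1} ∪ {v | 1 < v.valuation K γ} ∪
      ⋃ k ∈ Finset.range j, {v | v.valuation K ((fun x => φ.eval x)^[k + 1] γ - γ) < 1} with hS
    have hSfin : S.Finite := by
      refine (((finite_bad_coeff _).union (finite_lt_one _ hlc)).union (finite_one_lt _)).union
        (Set.Finite.biUnion (Finset.finite_toSet _) fun k _ => finite_lt_one _ ?_)
      exact sub_ne_zero.mpr (hγ (k + 1) (Nat.succ_pos k))
    have := infinite_primes K
    obtain ⟨v, hv⟩ := hSfin.infinite_compl.nonempty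
    have hcoef : ∀ i, v.valuation K (φ.coeff i) ≤ 1 := by
      intro i
      by_contra h
      exact hv (Or.inl (Or.inl (Or.inl ⟨i, not_le.mp h⟩)))
    refine ⟨v, hcoef, ?_, ?_, ?_⟩
    · refine le_antisymm (hcoef _) (not_lt.mp fun h => ?_)
      exact hv (Or.inl (Or.inl (Or.inr h)))
    · by_contra h
      exact hv (Or.inl (Or.inr (not_le.mp h)))
    · intro n hn h
      obtain ⟨k, hk, hk'⟩ := hrep n hn
      rw [hk'] at h
      refine hv (Or.inr ?_)
      simp only [Set.mem_iUnion, Finset.mem_range]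
      exact ⟨k, hk, h⟩

end Pool.Agent.TameArb
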