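import Pool.Agent.TameArb.Cyc

/-!
# Points moved by the powers of a tame generator
-/

set_option autoImplicit false

open Polynomial WithZero
open scoped WithZero

namespace Pool.Agent.TameArb

universe u

section

variable {K : Type*} [Field K]

/-- a tame generator `τ` of the inertia group of a place of `L` with valuation `V` -/
structure Tame {L : Type*} [Field L] [Algebra K L] (v : Valuation K ℤᵐ⁰) (V : Valuation L ℤᵐ⁰)
    (e p : ℕ) (τ : L ≃ₐ[K] L) : Prop where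
  ov : Over v V e
  inert : Inert V τ
  tame : ∀ y : L, y ≠ 0 → ∀ i : ℕ, V ((τ ^ i) y - y) < V y →
    ∃ (s : ℕ) (a : K), a ≠ 0 ∧ V y ^ (i * p ^ s) = V (algebraMap K L a)

theorem Tame.fixed {L : Type*} [Field L] [Algebra K L] {v : Valuation K ℤᵐ⁰}
    {V : Valuation L ℤᵐ⁰} {e p : ℕ} {τ : L ≃ₐ[K] L} (h : Tame v V e p τ) {y : L} (hy : y ≠ 0)
    {i : ℕ} (hi : (τ ^ i) y = y) :
    ∃ (s : ℕ) (k : ℤ), (i * p ^ s : ℤ) * log (V y) = e * k := by
  obtain ⟨s, a, ha, hE⟩ := h.tame y hy i (by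
    rw [hi, sub_self, map_zero]
    exact lt_of_le_of_ne zero_le ((Valuation.ne_zero_iff V).mpr hy).symm)
  refine ⟨s, log (v a), ?_⟩
  rw [← h.ov.val] at hE
  have h1 := congrArg log hE
  rw [log_pow, log_pow, nsmul_eq_mul, nsmul_eq_mul] at h1
  push_cast at h1
  exact h1

variable {v : Valuation K ℤᵐ⁰} {φ : K[X]}

theorem moved_inf (hφ : Good v φ) (hd : 2 ≤ φ.natDegree) {p : ℕ}
    (hpd : Nat.Coprime φ.natDegree p) {γ : K} (hγ : 1 < v γ) {i : ℕ} (hi : 0 < i) :
    ∃ n0 : ℕ, ∀ (L : Type u) [Field L] [Algebra K L] (V : Valuation L ℤᵐ⁰) (e : ℕ)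
      (τ : L ≃ₐ[K] L) (_ : Tame v V e p τ) (n : ℕ), n0 ≤ n → ∀ x : L,
      (ph φ)^[n] x = algebraMap K L γ → (τ ^ i) x ≠ x := by
  set g : ℤ := log (v γ) with hg
  have hvγ : v γ ≠ 0 := (zero_lt_one.trans hγ).ne'
  have hgpos : 0 < g := by
    rw [hg, lt_log_iff_exp_lt hvγ, exp_zero]
    exact hγ
  refine ⟨i * g.toNat, ?_⟩
  intro L _ _ V e τ hτ n hn x hx hfix
  have h := hτ.ov
  have he : (0 : ℤ) < e := by
    have := h.ne
    omega
  have hVγ : 1 < V (algebraMap K L γ) := by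
    by_contra hcon
    exact absurd hγ (not_lt.mpr (h.le_one.mp (not_lt.mp hcon)))
  have hx1 : 1 < V x := by
    by_contra hcon
    have := h.iter_le hφ (not_lt.mp hcon) n
    rw [hx] at this
    exact absurd hVγ (not_lt.mpr this)
  have hpw : ∀ j : ℕ, V ((ph φ)^[j] x) = V x ^ (φ.natDegree ^ j) := by
    intro j
    induction j with
    | zero => simp
    | succ j ih =>
      rw [Function.iterate_succ_apply', h.gt hφ (by rw [ih]; exact one_lt_pow₀ hx1 (by positivity)),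
        ih, ← pow_mul, pow_succ]
  have h1 := hpw n
  rw [hx, ← h.val] at h1
  have h2 := congrArg log h1
  rw [log_pow, log_pow, nsmul_eq_mul, nsmul_eq_mul] at h2
  have hx0 : x ≠ 0 := by
    rintro rfl
    rw [map_zero] at hx1
    exact absurd hx1 (not_lt.mpr zero_le)
  obtain ⟨s, k, hk⟩ := hτ.fixed hx0 hfix
  set ℓ := log (V x) with hℓ
  rw [← hg] at h2
  -- `i p^s g = d^n k`
  have h3 : (i * p ^ s : ℤ) * g = (φ.natDegree : ℤ) ^ n * k := by
    have : (e : ℤ) * ((i * p ^ s : ℤ) * g) = e * ((φ.natDegree : ℤ) ^ n * k) := by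
      push_cast at h2
      linear_combination (i * p ^ s : ℤ) * h2 + (φ.natDegree : ℤ) ^ n * hk
    exact mul_left_cancel₀ he.ne' this
  have hcop : IsCoprime ((φ.natDegree : ℤ) ^ n) ((p : ℤ) ^ s) := by
    apply IsCoprime.pow
    rw [Nat.isCoprime_iff_coprime]
    exact hpd
  have h4 : ((φ.natDegree : ℤ) ^ n) ∣ (p : ℤ) ^ s * (i * g) := by
    refine ⟨k, ?_⟩
    rw [← h3]; ring
  have h5 := hcop.dvd_of_dvd_mul_left h4
  have hig : (0 : ℤ) < i * g := mul_pos (by exact_mod_cast hi) hgpos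
  have h6 := Int.le_of_dvd hig h5
  have h7 : (n : ℤ) < (φ.natDegree : ℤ) ^ n := by
    have : n < φ.natDegree ^ n := Nat.lt_pow_self (by omega)
    exact_mod_cast this
  have h8 : (i * g : ℤ) ≤ n := by
    have : ((i * g.toNat : ℕ) : ℤ) ≤ n := by exact_mod_cast hn
    push_cast at this
    rw [Int.toNat_of_nonneg hgpos.le] at this
    exact this
  linarith

/-! ### periodicity -/

theorem overSelf (v : Valuation K ℤᵐ⁰) : Over v v 1 := ⟨one_ne_zero, fun x => by simp⟩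

theorem IntP.comp' {P Q : K[X]} (hP : IntP v P) (hQ : IntP v Q) : IntP v (P.comp Q) := by
  obtain ⟨P₀, rfl⟩ := exists_lift hP
  obtain ⟨Q₀, rfl⟩ := exists_lift hQ
  intro i
  rw [← Polynomial.map_comp, coeff_map]
  exact ((P₀.comp Q₀).coeff i).2

theorem itp_int (hφ : Good v φ) (n : ℕ) : IntP v (itp φ n) := by
  induction n with
  | zero =>
    intro i
    simp only [itp, Function.iterate_zero, id]
    rw [coeff_X]
    split_ifs <;> simp
  | succ n ih => rw [itp_succ]; exact hφ.int.comp' ih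

theorem deriv_itp (hφ : Good v φ) {γ : K} (hγ : v γ ≤ 1) (n : ℕ) :
    v ((derivative (itp φ n)).eval γ) ≤ 1 ∧
      ((∃ r < n, v (dph φ ((ph φ)^[r] γ)) < 1) → v ((derivative (itp φ n)).eval γ) < 1) := by
  induction n with
  | zero =>
    refine ⟨eval_le (itp_int hφ 0).derivative hγ, ?_⟩
    rintro ⟨r, hr, -⟩
    omega
  | succ n ih =>
    have hE : (derivative (itp φ (n + 1))).eval γ =
        (derivative (itp φ n)).eval γ * dph φ ((ph φ)^[n] γ) := by
      rw [itp_succ, derivative_comp, eval_mul, eval_comp, itp_eval, dph, ph_eq_eval]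
    have hint : v (dph φ ((ph φ)^[n] γ)) ≤ 1 :=
      (overSelf v).dph_le hφ ((overSelf v).iter_le hφ hγ n)
    rw [hE, map_mul]
    refine ⟨mul_le_one' ih.1 hint, ?_⟩
    rintro ⟨r, hr, hc⟩
    rcases Nat.lt_succ_iff_lt_or_eq.mp hr with h1 | h1
    · rw [mul_comm]
      exact mul_lt_one_aux hint (ih.2 ⟨r, h1, hc⟩)
    · rw [h1] at hc
      exact mul_lt_one_aux ih.1 hc

section per

variable {γ : K} {N : ℕ}

theorem per_cong (hφ : Good v φ) (hγ : v γ ≤ 1) (hN : v ((ph φ)^[N] γ - γ) < 1) (a k : ℕ) :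
    v ((ph φ)^[a + N * k] γ - (ph φ)^[a] γ) < 1 := by
  have h := overSelf v
  induction k with
  | zero => simp
  | succ k ih =>
    have h1 := h.cong_iter hφ (h.iter_le hφ hγ N) hγ hN (a + N * k)
    have e1 : (ph φ)^[a + N * (k + 1)] γ - (ph φ)^[a] γ =
        ((ph φ)^[a + N * k] ((ph φ)^[N] γ) - (ph φ)^[a + N * k] γ) +
          ((ph φ)^[a + N * k] γ - (ph φ)^[a] γ) := by
      rw [show a + N * (k + 1) = a + N * k + N by ring, Function.iterate_add_apply (ph φ) (a + N * k) N]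
      ring
    rw [e1]
    exact Valuation.map_add_lt _ h1 ih

theorem per_modEq (hφ : Good v φ) (hγ : v γ ≤ 1) (hN : v ((ph φ)^[N] γ - γ) < 1) {a b : ℕ}
    (hab : a ≡ b [MOD N]) : v ((ph φ)^[a] γ - (ph φ)^[b] γ) < 1 := by
  rcases le_total a b with h1 | h1
  · obtain ⟨k, hk⟩ := (Nat.modEq_iff_dvd' h1).mp hab
    rw [Valuation.map_sub_swap, show b = a + N * k by omega]
    exact per_cong hφ hγ hN a k
  · obtain ⟨k, hk⟩ := (Nat.modEq_iff_dvd' h1).mp hab.symm
    rw [show a = b + N * k by omega]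
    exact per_cong hφ hγ hN b k

theorem per_dvd (hφ : Good v φ) (hγ : v γ ≤ 1) (hN : v ((ph φ)^[N] γ - γ) < 1) (hN0 : 0 < N)
    (hmin : ∀ m, m < N → ¬ (0 < m ∧ v ((ph φ)^[m] γ - γ) < 1)) {m : ℕ}
    (hm : v ((ph φ)^[m] γ - γ) < 1) : N ∣ m := by
  have h1 : v ((ph φ)^[m] γ - (ph φ)^[m % N] γ) < 1 :=
    per_modEq hφ hγ hN (Nat.mod_modEq m N).symm
  have h2 : v ((ph φ)^[m % N] γ - γ) < 1 := by
    have : (ph φ)^[m % N] γ - γ = ((ph φ)^[m] γ - γ) - ((ph φ)^[m] γ - (ph φ)^[m % N] γ) := by ring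
    rw [this]
    exact Valuation.map_sub_lt _ hm h1
  have h3 : m % N < N := Nat.mod_lt m hN0
  rcases Nat.eq_zero_or_pos (m % N) with h4 | h4
  · exact Nat.dvd_of_mod_eq_zero h4
  · exact absurd ⟨h4, h2⟩ (hmin _ h3)

/-- the reference points -/
noncomputable def cc (φ : K[X]) (N : ℕ) (γ : K) (j : ℕ) : K := (ph φ)^[(N - 1) * j] γ

theorem cc_step (hφ : Good v φ) (hγ : v γ ≤ 1) (hN : v ((ph φ)^[N] γ - γ) < 1) (hN0 : 0 < N)
    (j : ℕ) : v (ph φ (cc φ N γ (j + 1)) - cc φ N γ j) < 1 := by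
  rw [cc, cc, ← Function.iterate_succ_apply' (ph φ)]
  obtain ⟨M, rfl⟩ : ∃ M, N = M + 1 := ⟨N - 1, by omega⟩
  rw [show ((M + 1 - 1) * (j + 1)).succ = (M + 1 - 1) * j + (M + 1) * 1 by
    simp only [Nat.add_sub_cancel, Nat.succ_eq_add_one]; ring]
  exact per_cong hφ hγ hN _ 1

theorem ee_ge_one (hφ : Good v φ) (hd : 2 ≤ φ.natDegree) (c : K) : 1 ≤ ee v φ c :=
  (ee_mem hφ hd c).1

theorem prod_two (hφ : Good v φ) (hd : 2 ≤ φ.natDegree) (hγ : v γ ≤ 1)
    (hN : v ((ph φ)^[N] γ - γ) < 1) (hN0 : 0 < N) {r0 : ℕ}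
    (hcrit : v (dph φ ((ph φ)^[r0] γ)) < 1) (a : ℕ) :
    2 ≤ ∏ j ∈ Finset.Ico a (a + N), ee v φ (cc φ N γ (j + 1)) := by
  obtain ⟨j, hj1, hj2, hj3⟩ : ∃ j, a ≤ j ∧ j < a + N ∧ N ∣ j + 1 + r0 := by
    refine ⟨a + (N - (a + 1 + r0) % N) % N, by omega, ?_, ?_⟩
    · have := Nat.mod_lt (N - (a + 1 + r0) % N) hN0
      omega
    · have h1 := Nat.mod_lt (a + 1 + r0) hN0
      have h2 : (a + 1 + r0) + (N - (a + 1 + r0) % N) = N * ((a + 1 + r0) / N) + N := by
        have := Nat.div_add_mod (a + 1 + r0) N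
        omega
      have h3 : N ∣ (a + 1 + r0) + (N - (a + 1 + r0) % N) := by
        rw [h2]; exact ⟨(a + 1 + r0) / N + 1, by ring⟩
      rw [show a + (N - (a + 1 + r0) % N) % N + 1 + r0 =
        (a + 1 + r0) + (N - (a + 1 + r0) % N) % N by ring]
      rw [Nat.dvd_iff_mod_eq_zero, Nat.add_mod, Nat.mod_mod, ← Nat.add_mod]
      exact Nat.mod_eq_zero_of_dvd h3
  have hmod : (N - 1) * (j + 1) ≡ r0 [MOD N] := by
    have h1 : (N - 1) * (j + 1) + (j + 1) ≡ r0 + (j + 1) [MOD N] := by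
      have e1 : (N - 1) * (j + 1) + (j + 1) = N * (j + 1) := by
        obtain ⟨M, rfl⟩ : ∃ M, N = M + 1 := ⟨N - 1, by omega⟩
        simp only [Nat.add_sub_cancel]; ring
      rw [e1]
      have h2 : N * (j + 1) ≡ 0 [MOD N] := (Nat.modEq_zero_iff_dvd).mpr ⟨j + 1, rfl⟩
      have h3 : r0 + (j + 1) ≡ 0 [MOD N] :=
        (Nat.modEq_zero_iff_dvd).mpr (by rw [add_comm]; exact hj3)
      exact h2.trans h3.symm
    exact Nat.ModEq.add_right_cancel' _ h1
  have hc : v (dph φ (cc φ N γ (j + 1))) < 1 := by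
    have h := overSelf v
    have h1 := per_modEq hφ hγ hN hmod
    have hi1 : v ((ph φ)^[(N - 1) * (j + 1)] γ) ≤ 1 := h.iter_le hφ hγ _
    have hi2 : v ((ph φ)^[r0] γ) ≤ 1 := h.iter_le hφ hγ _
    have h2 : v (dph φ (cc φ N γ (j + 1)) - dph φ ((ph φ)^[r0] γ)) < 1 := by
      rw [dph, dph, ph_eq_eval, ph_eq_eval]
      exact (cong_eval hφ.int.derivative hi2 hi1).trans_lt h1
    have e1 : dph φ (cc φ N γ (j + 1)) = (dph φ (cc φ N γ (j + 1)) - dph φ ((ph φ)^[r0] γ)) +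
        dph φ ((ph φ)^[r0] γ) := by ring
    rw [e1]
    exact Valuation.map_add_lt _ h2 hcrit
  have h2 := two_le_ee hφ hd hc
  have hjm : j ∈ Finset.Ico a (a + N) := Finset.mem_Ico.mpr ⟨hj1, hj2⟩
  refine h2.trans ?_
  exact Nat.le_of_dvd (Finset.prod_pos fun k _ => ee_ge_one hφ hd _) (Finset.dvd_prod_of_mem _ hjm)

theorem prod_pow_two (hφ : Good v φ) (hd : 2 ≤ φ.natDegree) (hγ : v γ ≤ 1)
    (hN : v ((ph φ)^[N] γ - γ) < 1) (hN0 : 0 < N) {r0 : ℕ}
    (hcrit : v (dph φ ((ph φ)^[r0] γ)) < 1) (a k : ℕ) :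
    2 ^ k ≤ ∏ j ∈ Finset.Ico a (a + N * k), ee v φ (cc φ N γ (j + 1)) := by
  induction k with
  | zero => simp
  | succ k ih =>
    rw [show a + N * (k + 1) = a + N * k + N by ring,
      ← Finset.prod_Ico_consecutive _ (show a ≤ a + N * k by omega)
        (show a + N * k ≤ a + N * k + N by omega), pow_succ]
    exact Nat.mul_le_mul ih (prod_two hφ hd hγ hN hN0 hcrit _)

end per

theorem moved_cyc (hφ : Good v φ) (hd : 2 ≤ φ.natDegree) {p : ℕ}
    (hp : p.Prime) (hpd : φ.natDegree < p) {γ : K} (hγ : v γ ≤ 1) (hper : PerMod v φ γ)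
    (hnp : ∀ n, 0 < n → (ph φ)^[n] γ ≠ γ) (hcrit : ∃ r, v (dph φ ((ph φ)^[r] γ)) < 1)
    {i : ℕ} (hi : 0 < i) :
    ∃ n0 : ℕ, ∀ (L : Type u) [Field L] [Algebra K L] (V : Valuation L ℤᵐ⁰) (e : ℕ)
      (τ : L ≃ₐ[K] L) (_ : Tame v V e p τ) (n : ℕ), n0 ≤ n → ∀ x : L,
      (ph φ)^[n] x = algebraMap K L γ → InC V φ γ x → (τ ^ i) x ≠ x := by
  classical
  set N := Nat.find hper with hNdef
  obtain ⟨hN0, hN⟩ : 0 < N ∧ v ((ph φ)^[N] γ - γ) < 1 := Nat.find_spec hper
  have hmin : ∀ m, m < N → ¬ (0 < m ∧ v ((ph φ)^[m] γ - γ) < 1) := fun m hm => Nat.find_min hper hm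
  obtain ⟨r0, hr0⟩ := hcrit
  have hself := overSelf v
  -- the derivative of the `N`-th iterate
  have hF' : v ((derivative (itp φ N)).eval γ) < 1 := by
    apply (deriv_itp hφ hγ N).2
    refine ⟨r0 % N, Nat.mod_lt _ hN0, ?_⟩
    have h1 := per_modEq hφ hγ hN (Nat.mod_modEq r0 N)
    have h2 : v (dph φ ((ph φ)^[r0 % N] γ) - dph φ ((ph φ)^[r0] γ)) < 1 := by
      rw [dph, dph, ph_eq_eval, ph_eq_eval]
      exact (cong_eval hφ.int.derivative (hself.iter_le hφ hγ _) (hself.iter_le hφ hγ _)).trans_lt h1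
    have e1 : dph φ ((ph φ)^[r0 % N] γ) = (dph φ ((ph φ)^[r0 % N] γ) - dph φ ((ph φ)^[r0] γ)) +
        dph φ ((ph φ)^[r0] γ) := by ring
    rw [e1]
    exact Valuation.map_add_lt _ h2 hr0
  have hne : (itp φ N).eval γ - γ ≠ 0 := by
    rw [itp_eval]
    exact sub_ne_zero.mpr (hnp N hN0)
  obtain ⟨k0', hk0'⟩ := exists_exp_neg_natCast_lt ((Valuation.ne_zero_iff v).mpr hne)
  set k0 := k0' + 1 with hk0def
  have hη : exp (-1) ^ k0 ≤ v ((itp φ N).eval γ - γ) := by
    refine le_trans ?_ hk0'.le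
    rw [← exp_nsmul, exp_le_exp, hk0def]
    simp only [nsmul_eq_mul]
    push_cast
    omega
  set J := N * k0 with hJ
  set k1 := i * φ.natDegree ^ J with hk1
  refine ⟨J + N * k1, ?_⟩
  intro L _ _ V e τ hτ n hn x hx hC hfix
  have h := hτ.ov
  have he : (0 : ℤ) < e := by
    have := h.ne
    omega
  have hγ' : V (algebraMap K L γ) ≤ 1 := h.le_one.mpr hγ
  have hx1 : V x ≤ 1 := by
    apply h.le_of_iter hφ hd (n := n)
    rw [hx]; exact hγ'
  set z : ℕ → L := fun j => (ph φ)^[n - j] x with hz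
  set c : ℕ → K := cc φ N γ with hc
  have hzn : z n = x := by simp [hz]
  have hz0 : z 0 = algebraMap K L γ := by simp only [hz, Nat.sub_zero]; exact hx
  have hzstep : ∀ j < n, ph φ (z (j + 1)) = z j := by
    intro j hj
    simp only [hz]
    rw [← Function.iterate_succ_apply' (ph φ), show (n - (j + 1)).succ = n - j by omega]
  have hziter : ∀ j k, j + k ≤ n → (ph φ)^[k] (z (j + k)) = z j := by
    intro j k hjk
    simp only [hz]
    rw [← Function.iterate_add_apply, show k + (n - (j + k)) = n - j by omega]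
  have hc1 : ∀ j, v (c j) ≤ 1 := fun j => hself.iter_le hφ hγ _
  have hzint : ∀ j, V (z j) ≤ 1 := fun j => h.iter_le hφ hx1 _
  have hzc : ∀ j ≤ n, V (z j - algebraMap K L (c j)) < 1 := by
    intro j hj
    obtain ⟨r, hr⟩ := h.inC_iter hφ hγ hx1 hC (n - j)
    have h1 := h.cong_iter hφ (h.iter_le hφ hx1 (n - j)) (h.iter_le hφ hγ' r) hr j
    rw [← Function.iterate_add_apply, ← Function.iterate_add_apply, show j + (n - j) = n by omega,
      hx, ← iter_algebraMap, ← map_sub, h.lt_one, Valuation.map_sub_swap] at h1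
    have h2 := per_dvd hφ hγ hN hN0 hmin h1
    have hmod : r ≡ (N - 1) * j [MOD N] := by
      have h3 : r + j ≡ (N - 1) * j + j [MOD N] := by
        have e1 : (N - 1) * j + j = N * j := by
          obtain ⟨M, hM⟩ : ∃ M, N = M + 1 := ⟨N - 1, by omega⟩
          rw [hM]
          simp only [Nat.add_sub_cancel]; ring
        rw [e1]
        have h4 : N * j ≡ 0 [MOD N] := (Nat.modEq_zero_iff_dvd).mpr ⟨j, rfl⟩
        have h5 : r + j ≡ 0 [MOD N] := (Nat.modEq_zero_iff_dvd).mpr (by rw [add_comm]; exact h2)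
        exact h5.trans h4.symm
      exact Nat.ModEq.add_right_cancel' _ h3
    have h3 := h.lt_one.mpr (per_modEq hφ hγ hN hmod)
    have e1 : z j - algebraMap K L (c j) = (z j - (ph φ)^[r] (algebraMap K L γ)) +
        algebraMap K L ((ph φ)^[r] γ - (ph φ)^[(N - 1) * j] γ) := by
      rw [map_sub, ← iter_algebraMap]
      simp only [hc, cc]
      ring
    rw [e1]
    exact Valuation.map_add_lt _ hr h3
  -- leaving the small disc
  obtain ⟨k, hkk0, hkW⟩ := h.exit (itp_int hφ N) hγ hF' (show 1 ≤ k0 by omega) hη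
    (x := fun k => z (N * k)) (by simpa using hz0) (by
      intro k hk
      show ph (itp φ N) (z (N * (k + 1))) = z (N * k)
      rw [ph, itp_aeval, show N * (k + 1) = N * k + N by ring]
      apply hziter
      have : N * k + N ≤ N * k0 := by
        calc N * k + N = N * (k + 1) := by ring
          _ ≤ N * k0 := Nat.mul_le_mul_left _ (by omega)
      omega)
  set j0 := N * k with hj0
  have hj0J : j0 ≤ J := Nat.mul_le_mul_left _ hkk0
  have hj0W : WW e < V (z j0 - algebraMap K L (c j0)) := by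
    have h1 : v (γ - c j0) < 1 := by
      have := per_modEq hφ hγ hN (a := 0) (b := (N - 1) * j0)
        ((Nat.modEq_zero_iff_dvd).mpr ⟨(N - 1) * k, by rw [hj0]; ring⟩).symm
      simpa [hc, cc] using this
    have e1 : z j0 - algebraMap K L (c j0) = (z j0 - algebraMap K L γ) +
        algebraMap K L (γ - c j0) := by rw [map_sub]; ring
    rw [e1, Valuation.map_add_eq_of_lt_left V ((h.le_WW h1).trans_lt hkW)]
    exact hkW
  have hj0n : j0 ≤ n := by omega
  obtain ⟨hch1, hch2⟩ := h.chain hφ hd hj0n hzstep hzc hc1 (cc_step hφ hγ hN hN0) hj0W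
  set A := ∏ j ∈ Finset.Ico j0 n, ee v φ (c (j + 1)) with hA
  set un := z n - algebraMap K L (c n) with hun
  set u0 := z j0 - algebraMap K L (c j0) with hu0
  have hun0 : un ≠ 0 := by
    intro h0
    rw [h0, map_zero] at hch1
    exact absurd hch1 (not_lt.mpr zero_le)
  have hu00 : u0 ≠ 0 := by
    intro h0
    rw [h0, map_zero] at hj0W
    exact absurd hj0W (not_lt.mpr zero_le)
  -- the tame generator
  have hfixu : (τ ^ i) un = un := by
    rw [hun, map_sub, AlgEquiv.commutes, hzn, hfix]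
  obtain ⟨s, k', hk'⟩ := hτ.fixed hun0 hfixu
  -- the denominator
  set Q : K[X] := (itp φ j0).comp (X + C (c j0)) - C γ with hQ
  have hQd : Q.natDegree = φ.natDegree ^ j0 := by
    rw [hQ, natDegree_sub_C, natDegree_comp, itp_natDegree, natDegree_X_add_C, mul_one]
  have hQ0 : Q ≠ 0 := by
    intro h0
    have : 0 < φ.natDegree ^ j0 := by positivity
    rw [← hQd, h0, natDegree_zero] at this
    exact lt_irrefl _ this
  have hQu : aeval u0 Q = 0 := by
    rw [hQ, map_sub, aeval_C, aeval_comp, map_add, aeval_X, aeval_C, itp_aeval, hu0,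
      sub_add_cancel]
    have := hziter 0 j0 (by omega)
    rw [zero_add, hz0] at this
    rw [this, sub_self]
  obtain ⟨m, hm1, hm2, a', ha', hm3⟩ := h.denom hQ0 hu00 hQu
  rw [hQd] at hm2
  -- logarithms
  have hl1 : (A : ℤ) * log (V un) = log (V u0) := by
    have := congrArg log hch2
    rwa [log_pow, nsmul_eq_mul] at this
  have hl2 : (m : ℤ) * log (V u0) = e * log (v a') := by
    rw [← h.val] at hm3
    have := congrArg log hm3
    rwa [log_pow, log_pow, nsmul_eq_mul, nsmul_eq_mul] at this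
  have hVu0 : V u0 ≠ 0 := (Valuation.ne_zero_iff V).mpr hu00
  have hl3 : log (V u0) < 0 := by
    rw [log_lt_iff_lt_exp hVu0, exp_zero]
    exact hzc j0 hj0n
  have hl4 : -(e : ℤ) < log (V u0) := by
    rw [lt_log_iff_exp_lt hVu0, ← WW_eq]
    exact hj0W
  set x0 := log (V u0) with hx0
  set x1 := log (V un) with hx1'
  set q := log (v a') with hq
  have hmpos : (0 : ℤ) < m := by exact_mod_cast hm1
  have hq1 : q < 0 := by
    by_contra hcon
    push Not at hcon
    have h1 : (m : ℤ) * x0 < 0 := mul_neg_of_pos_of_neg hmpos hl3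
    have h2 : 0 ≤ (e : ℤ) * q := mul_nonneg he.le hcon
    linarith
  have hq2 : -(m : ℤ) < q := by
    have h1 : (e : ℤ) * (-(m : ℤ)) < e * q := by
      rw [← hl2]
      have : (m : ℤ) * (-(e : ℤ)) < m * x0 := mul_lt_mul_of_pos_left hl4 hmpos
      linarith
    exact lt_of_mul_lt_mul_left h1 he.le
  have hdiv : (A : ℤ) ∣ (p : ℤ) ^ s * (i * q) := by
    have h1 : (e : ℤ) * ((p : ℤ) ^ s * (i * q)) = e * (A * (m * k')) := by
      linear_combination (-(i : ℤ) * p ^ s) * hl2 + (-(m : ℤ) * i * p ^ s) * hl1 +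
        (A : ℤ) * m * hk'
    exact ⟨m * k', mul_left_cancel₀ he.ne' h1⟩
  have hcop : IsCoprime (A : ℤ) ((p : ℤ) ^ s) := by
    apply IsCoprime.pow_right
    rw [Nat.isCoprime_iff_coprime]
    apply Nat.Coprime.prod_left
    intro j _
    exact (Nat.coprime_of_lt_prime (by have := ee_ge_one hφ hd (c (j + 1)); omega)
      ((ee_le hφ hd _).trans_lt hpd) hp).symm
  have hdiv2 := hcop.dvd_of_dvd_mul_left hdiv
  have hA1 : (A : ℤ) ≤ i * (-q) := by
    apply Int.le_of_dvd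
    · exact mul_pos (by exact_mod_cast hi) (by linarith)
    · rw [mul_neg]
      exact (dvd_neg).mpr hdiv2
  have hA2 : (A : ℤ) < i * (φ.natDegree : ℤ) ^ j0 := by
    refine hA1.trans_lt ?_
    apply mul_lt_mul_of_pos_left _ (by exact_mod_cast hi)
    have : (m : ℤ) ≤ (φ.natDegree : ℤ) ^ j0 := by exact_mod_cast hm2
    linarith
  -- the lower bound
  have hA3 : 2 ^ k1 ≤ A := by
    have h1 := prod_pow_two hφ hd hγ hN hN0 hr0 (n - N * k1) k1
    rw [show n - N * k1 + N * k1 = n by omega] at h1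
    refine h1.trans ?_
    rw [hA, ← Finset.prod_Ico_consecutive _ (show j0 ≤ n - N * k1 by omega)
      (show n - N * k1 ≤ n by omega)]
    exact Nat.le_mul_of_pos_left _ (Finset.prod_pos fun k _ => ee_ge_one hφ hd _)
  have hA4 : k1 < A := (Nat.lt_two_pow_self).trans_le hA3
  have hA5 : (A : ℤ) < k1 := by
    refine hA2.trans_le ?_
    rw [hk1]
    push_cast
    apply mul_le_mul_of_nonneg_left _ (by positivity)
    exact pow_le_pow_right₀ (by exact_mod_cast (show 1 ≤ φ.natDegree by omega)) hj0J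
  have hA6 : (k1 : ℤ) < A := by exact_mod_cast hA4
  linarith

end

end Pool.Agent.TameArb
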