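import Mathlib

/-!
# Tame generators of inertia groups and Frobenius elements
-/

set_option autoImplicit false

open NumberField IsDedekindDomain
open scoped Pointwise

namespace Pool.Agent.TameArb

section basic

variable {K L : Type*} [Field K] [NumberField K] [Field L] [NumberField L] [Algebra K L]

omit [NumberField K] [NumberField L] in
lemma coe_smul_int (σ : L ≃ₐ[K] L) (x : 𝓞 L) : ((σ • x : 𝓞 L) : L) = σ (x : L) := rfl

omit [NumberField K] in
/-- an ideal stable under `σ` gives a valuation stable under `σ` -/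
lemma valuation_smul (σ : L ≃ₐ[K] L) (w : HeightOneSpectrum (𝓞 L))
    (h : ∀ x : 𝓞 L, σ • x ∈ w.asIdeal ↔ x ∈ w.asIdeal) (z : L) :
    w.valuation L (σ z) = w.valuation L z := by
  set S : 𝓞 L ≃+* 𝓞 L := MulSemiringAction.toRingEquiv (L ≃ₐ[K] L) (𝓞 L) σ with hS
  have hSa : ∀ x, S x = σ • x := fun x => rfl
  have hmap : w.asIdeal.map S = w.asIdeal := by
    ext x
    rw [Ideal.mem_map_of_equiv]
    constructor
    · rintro ⟨y, hy, rfl⟩
      exact (h y).2 hy
    · intro hx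
      refine ⟨S.symm x, (h _).1 ?_, RingEquiv.apply_symm_apply _ _⟩
      rw [← hSa, RingEquiv.apply_symm_apply]; exact hx
  have hpow : ∀ (n : ℕ) (x : 𝓞 L), S x ∈ w.asIdeal ^ n ↔ x ∈ w.asIdeal ^ n := by
    intro n x
    have h1 : (w.asIdeal ^ n).map S = w.asIdeal ^ n := by
      rw [Ideal.map_pow, hmap]
    conv_lhs => rw [← h1]
    rw [Ideal.mem_map_of_equiv]
    constructor
    · rintro ⟨y, hy, hyx⟩
      rw [← S.injective hyx]; exact hy
    · intro hx
      exact ⟨x, hx, rfl⟩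
  have hle : ∀ x y : 𝓞 L, (∀ n : ℕ, y ∈ w.asIdeal ^ n → x ∈ w.asIdeal ^ n) →
      w.intValuation x ≤ w.intValuation y := by
    intro x y hxy
    by_cases hy : y = 0
    · subst hy
      by_cases hx : x = 0
      · rw [hx]
      · exfalso
        have h2 := hxy ((Associates.mk w.asIdeal).count
          (Associates.mk (Ideal.span {x} : Ideal (𝓞 L))).factors + 1) (zero_mem _)
        rw [← w.intValuation_le_pow_iff_mem, w.intValuation_if_neg hx, WithZero.exp_le_exp] at h2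
        push_cast at h2
        omega
    · rw [w.intValuation_if_neg hy, w.intValuation_le_pow_iff_mem]
      apply hxy
      rw [← w.intValuation_le_pow_iff_mem, w.intValuation_if_neg hy]
  have hint : ∀ x : 𝓞 L, w.intValuation (S x) = w.intValuation x := fun x =>
    le_antisymm (hle _ _ fun n => (hpow n x).2) (hle _ _ fun n => (hpow n x).1)
  obtain ⟨a, b, hb, rfl⟩ := IsFractionRing.div_surjective (A := 𝓞 L) z
  have ha' : σ (algebraMap (𝓞 L) L a) = algebraMap (𝓞 L) L (S a) := rfl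
  have hb' : σ (algebraMap (𝓞 L) L b) = algebraMap (𝓞 L) L (S b) := rfl
  rw [map_div₀, map_div₀, map_div₀, ha', hb', w.valuation_of_algebraMap,
    w.valuation_of_algebraMap, w.valuation_of_algebraMap, w.valuation_of_algebraMap, hint, hint]

omit [NumberField K] [Algebra K L] in
lemma valuation_int_lt (w : HeightOneSpectrum (𝓞 L)) (x : 𝓞 L) :
    w.valuation L (x : L) < 1 ↔ x ∈ w.asIdeal :=
  w.valuation_lt_one_iff_mem (K := L) x

omit [NumberField K] [Algebra K L] in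
lemma valuation_int_eq (w : HeightOneSpectrum (𝓞 L)) (x : 𝓞 L) :
    w.valuation L (x : L) = 1 ↔ x ∉ w.asIdeal :=
  w.valuation_eq_one_iff_notMem (K := L)

omit [NumberField K] in
/-- the congruence passes from the ring of integers to the local ring -/
lemma valuation_frob_sub (w : HeightOneSpectrum (𝓞 L)) (σ : L ≃ₐ[K] L) (q : ℕ)
    (hstab : ∀ x : 𝓞 L, σ • x ∈ w.asIdeal ↔ x ∈ w.asIdeal)
    (h : ∀ x : 𝓞 L, σ • x - x ^ q ∈ w.asIdeal) (x : L) (hx : w.valuation L x ≤ 1) :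
    w.valuation L (σ x - x ^ q) < 1 := by
  obtain ⟨a, ⟨b, hb⟩, hab⟩ := w.exists_primeCompl_mul_eq_of_integer x hx
  have hb : b ∉ w.asIdeal := hb
  have hab : x * (b : L) = (a : L) := hab
  have hb0 : (b : L) ≠ 0 := by
    intro h0
    apply hb
    have : b = 0 := RingOfIntegers.ext h0
    rw [this]; exact zero_mem _
  have hσb0 : σ (b : L) ≠ 0 := by
    rw [Ne, map_eq_zero]; exact hb0
  have hv1 : w.valuation L (b : L) = 1 := (valuation_int_eq w b).2 hb
  have hv2 : w.valuation L (σ (b : L)) = 1 := by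
    rw [valuation_smul σ w hstab, hv1]
  have hx' : x = (a : L) / b := by
    rw [eq_div_iff hb0, hab]
  set n : 𝓞 L := b ^ q * (σ • a - a ^ q) - a ^ q * (σ • b - b ^ q) with hn
  have hnmem : n ∈ w.asIdeal :=
    sub_mem (Ideal.mul_mem_left _ _ (h a)) (Ideal.mul_mem_left _ _ (h b))
  have hncoe : (n : L) = (b : L) ^ q * (σ (a : L) - (a : L) ^ q) -
      (a : L) ^ q * (σ (b : L) - (b : L) ^ q) := by
    rw [hn, ← coe_smul_int σ a, ← coe_smul_int σ b]
    simp only [map_sub, map_mul, map_pow]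
  have key : (σ x - x ^ q) * (σ (b : L) * (b : L) ^ q) = (n : L) := by
    rw [hx', map_div₀, div_pow, hncoe]
    field_simp
    ring
  have h1 : w.valuation L (σ x - x ^ q) = w.valuation L (n : L) := by
    rw [← key, map_mul, map_mul, map_pow, hv1, hv2, one_pow, mul_one, mul_one]
  rw [h1, valuation_int_lt]
  exact hnmem

omit [NumberField L] in
/-- a prime above -/
lemma exists_above (v : HeightOneSpectrum (𝓞 K)) :
    ∃ w : HeightOneSpectrum (𝓞 L), w.asIdeal.LiesOver v.asIdeal := by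
  obtain ⟨Q, hQ1, hQ2⟩ := Ideal.exists_maximal_ideal_liesOver_of_isIntegral (S := 𝓞 L) v.asIdeal
  refine ⟨⟨Q, hQ1.isPrime, ?_⟩, hQ2⟩
  rintro rfl
  apply v.ne_bot
  rw [hQ2.over]
  exact Ideal.comap_bot_of_injective _ (FaithfulSMul.algebraMap_injective _ _)

end basic

section tame

variable {K L : Type*} [Field K] [Field L] [Algebra K L] {Γ : Type*}
  [LinearOrderedCommGroupWithZero Γ]

/-- the tame character of a group acting trivially on the residue field -/
lemma tame_hom (V : Valuation L Γ) (I : Subgroup (L ≃ₐ[K] L))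
    (hI1 : ∀ σ ∈ I, ∀ x, V (σ x) = V x) (hI2 : ∀ σ ∈ I, ∀ x, V x ≤ 1 → V (σ x - x) < 1)
    (π : L) (hπ : π ≠ 0) :
    ∃ θ : I →* (IsLocalRing.ResidueField V.valuationSubring)ˣ, ∀ σ : I, ∀ u : L, V u = 1 →
      ∀ n : ℤ, (V ((σ : L ≃ₐ[K] L) (u * π ^ n) - u * π ^ n) < V (u * π ^ n) ↔ θ σ ^ n = 1) := by
  classical
  set A := V.valuationSubring with hA
  have hlt : ∀ {x : L}, V x < 1 ↔ A.valuation x < 1 :=
    Valuation.isEquiv_iff_val_lt_one.1 V.isEquiv_valuation_valuationSubring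
  have heq : ∀ {x : L}, V x = 1 ↔ A.valuation x = 1 :=
    Valuation.isEquiv_iff_val_eq_one.1 V.isEquiv_valuation_valuationSubring
  let r := A.unitGroupToResidueFieldUnits
  have hr : ∀ x : A.unitGroup, r x = 1 ↔ V (((x : Lˣ) : L) - 1) < 1 := by
    intro x
    rw [← MonoidHom.mem_ker, A.ker_unitGroupToResidueFieldUnits, Subgroup.mem_comap, hlt]
    exact A.mem_principalUnitGroup_iff _
  let cu : (L ≃ₐ[K] L) → (Lˣ →* Lˣ) := fun σ =>
    Units.map ((σ : L ≃ₐ[K] L).toRingEquiv.toRingHom : L →* L) / MonoidHom.id Lˣ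
  have hcu : ∀ σ y, ((cu σ y : Lˣ) : L) = σ (y : L) / y := by
    intro σ y
    show (((Units.map ((σ : L ≃ₐ[K] L).toRingEquiv.toRingHom : L →* L) y) / y : Lˣ) : L) = _
    rw [Units.val_div_eq_div_val]
    rfl
  have hcumem : ∀ σ ∈ I, ∀ y, cu σ y ∈ A.unitGroup := by
    intro σ hσ y
    rw [A.mem_unitGroup_iff, ← heq, hcu, map_div₀, hI1 σ hσ]
    exact div_self ((Valuation.ne_zero_iff _).2 y.ne_zero)
  let R : I → (Lˣ →* (IsLocalRing.ResidueField A)ˣ) := fun σ =>
    r.comp ((cu σ).codRestrict A.unitGroup (hcumem σ.1 σ.2))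
  have hR : ∀ (σ : I) (y : Lˣ), R σ y = 1 ↔
      V ((σ : L ≃ₐ[K] L) (y : L) - y) < V (y : L) := by
    intro σ y
    have h1 : R σ y = 1 ↔ V ((σ : L ≃ₐ[K] L) (y : L) / y - 1) < 1 := by
      rw [← hcu]
      exact hr _
    have hy : V (y : L) ≠ 0 := (Valuation.ne_zero_iff _).2 y.ne_zero
    rw [h1]
    have h2 : (σ : L ≃ₐ[K] L) (y : L) - y = ((σ : L ≃ₐ[K] L) (y : L) / y - 1) * y := by
      rw [sub_mul, div_mul_cancel₀ _ y.ne_zero, one_mul]
    rw [h2, map_mul]
    constructor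
    · intro h
      calc _ < 1 * V (y : L) := (mul_lt_mul_iff_left₀ (zero_lt_iff.2 hy)).2 h
        _ = _ := one_mul _
    · intro h
      by_contra h3
      rw [not_lt] at h3
      have : 1 * V (y : L) ≤ V ((σ : L ≃ₐ[K] L) (y : L) / y - 1) * V (y : L) :=
        mul_le_mul_left h3 _
      rw [one_mul] at this
      exact absurd h (not_lt.2 this)
  have hRu : ∀ (σ : I) (u : Lˣ), V (u : L) = 1 → R σ u = 1 := by
    intro σ u hu
    rw [hR, hu]
    exact hI2 σ.1 σ.2 _ hu.le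
  have hRmul : ∀ (σ τ : I) (y : Lˣ), R (σ * τ) y = R σ y * R τ y := by
    intro σ τ y
    have h1 : cu ((σ * τ : I) : L ≃ₐ[K] L) y =
        cu σ (y * cu τ y) * cu τ y := by
      apply Units.ext
      rw [Units.val_mul, hcu, hcu, hcu, Units.val_mul, hcu]
      have h2 : (y : L) * ((τ : L ≃ₐ[K] L) (y : L) / y) = (τ : L ≃ₐ[K] L) (y : L) := by
        rw [mul_div_cancel₀ _ y.ne_zero]
      rw [h2]
      have h3 : (τ : L ≃ₐ[K] L) (y : L) ≠ 0 := by
        rw [Ne, map_eq_zero]; exact y.ne_zero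
      rw [div_mul_div_cancel₀ h3]
      rfl
    have h2 : R (σ * τ) y = R σ (y * cu τ y) * R τ y := by
      show r _ = r _ * r _
      rw [← map_mul]
      congr 1
      exact Subtype.ext h1
    rw [h2, map_mul, hRu σ (cu τ y), mul_one]
    rw [hcu, map_div₀, hI1 τ.1 τ.2]
    exact div_self ((Valuation.ne_zero_iff _).2 y.ne_zero)
  refine ⟨MonoidHom.mk' (fun σ => R σ (Units.mk0 π hπ)) (fun σ τ => hRmul σ τ _), ?_⟩
  intro σ u hu n
  have hu0 : u ≠ 0 := by
    rintro rfl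
    rw [map_zero] at hu
    exact zero_ne_one hu
  have h1 := hR σ (Units.mk0 u hu0 * (Units.mk0 π hπ) ^ n)
  rw [map_mul, map_zpow, hRu σ (Units.mk0 u hu0) hu, one_mul] at h1
  rw [Units.val_mul, Units.val_zpow_eq_zpow_val, Units.val_mk0, Units.val_mk0] at h1
  exact h1.symm

end tame

/-- TAME: an element of the inertia group whose powers detect the value group -/
theorem exists_tame (K L : Type*) [Field K] [NumberField K] [Field L] [NumberField L]
    [Algebra K L] [IsGalois K L] (v : HeightOneSpectrum (𝓞 K)) (p : ℕ) (hp : p.Prime)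
    (hpv : v.valuation K (p : K) < 1) :
    ∃ (w : HeightOneSpectrum (𝓞 L)) (e : ℕ) (τ : L ≃ₐ[K] L), e ≠ 0 ∧
      (∀ x : K, v.valuation K x ^ e = w.valuation L (algebraMap K L x)) ∧
      (∀ x : L, w.valuation L (τ x) = w.valuation L x) ∧
      (∀ x : L, w.valuation L x ≤ 1 → w.valuation L (τ x - x) < 1) ∧
      ∀ y : L, y ≠ 0 → ∀ i : ℕ, w.valuation L ((τ ^ i) y - y) < w.valuation L y →
        ∃ (s : ℕ) (a : K), a ≠ 0 ∧ w.valuation L y ^ (i * p ^ s) =
          w.valuation L (algebraMap K L a) := by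
  classical
  obtain ⟨w, hw⟩ := exists_above (L := L) v
  have hwp : w.asIdeal.IsPrime := w.isPrime
  have hvp : v.asIdeal.IsPrime := v.isPrime
  set e := v.asIdeal.ramificationIdx' w.asIdeal with he
  have he0 : e ≠ 0 :=
    Ideal.IsDedekindDomain.ramificationIdx'_ne_zero_of_liesOver w.asIdeal v.ne_bot
  have hval : ∀ x : K, v.valuation K x ^ e = w.valuation L (algebraMap K L x) :=
    HeightOneSpectrum.valuation_liesOver L v w
  set V := w.valuation L with hV
  set I : Subgroup (L ≃ₐ[K] L) := w.asIdeal.inertia (L ≃ₐ[K] L) with hI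
  have hIcard : Nat.card I = e := by
    rw [hI, Ideal.card_inertia_eq_ramificationIdxIn v.asIdeal w.asIdeal,
      Ideal.ramificationIdxIn_eq_ramificationIdx v.asIdeal w.asIdeal (L ≃ₐ[K] L),
      ← Ideal.ramificationIdx'_eq_ramificationIdx v.asIdeal w.asIdeal v.ne_bot]
  have hmem : ∀ σ ∈ I, ∀ x : 𝓞 L, σ • x - x ∈ w.asIdeal := fun σ hσ => hσ
  have hst : ∀ σ ∈ I, ∀ x : 𝓞 L, σ • x ∈ w.asIdeal ↔ x ∈ w.asIdeal := by
    intro σ hσ x
    have h1 := hmem σ hσ x
    constructor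
    · intro h2
      have h3 : x = σ • x - (σ • x - x) := by ring
      rw [h3]; exact sub_mem h2 h1
    · intro h2
      have h3 : σ • x = (σ • x - x) + x := by ring
      rw [h3]; exact add_mem h1 h2
  have hI1 : ∀ σ ∈ I, ∀ x, V (σ x) = V x := fun σ hσ => valuation_smul σ w (hst σ hσ)
  have hI2 : ∀ σ ∈ I, ∀ x, V x ≤ 1 → V (σ x - x) < 1 := by
    intro σ hσ x hx
    have h1 := valuation_frob_sub w σ 1 (hst σ hσ) (fun y => by
      rw [pow_one]; exact hmem σ hσ y) x hx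
    rwa [pow_one] at h1
  obtain ⟨π, hπ⟩ := w.valuation_exists_uniformizer L
  have hπ0 : π ≠ 0 := by
    rintro rfl
    rw [map_zero] at hπ
    exact WithZero.exp_ne_zero hπ.symm
  obtain ⟨θ, hθ⟩ := tame_hom V I hI1 hI2 π hπ0
  -- normal form
  have hnf : ∀ y : L, y ≠ 0 → ∃ (u : L) (n : ℤ), V u = 1 ∧ y = u * π ^ n := by
    intro y hy
    have hVy : V y ≠ 0 := (Valuation.ne_zero_iff _).2 hy
    refine ⟨y / π ^ (-WithZero.log (V y)), -WithZero.log (V y), ?_, ?_⟩
    · rw [map_div₀, map_zpow₀, hπ, ← WithZero.exp_zsmul, smul_eq_mul, neg_mul_neg, mul_one,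
        WithZero.exp_log hVy]
      exact div_self hVy
    · rw [div_mul_cancel₀]
      exact zpow_ne_zero _ hπ0
  have hT : ∀ σ ∈ I, ∀ (hσ : σ ∈ I), θ ⟨σ, hσ⟩ = 1 → ∀ y : L, y ≠ 0 → V (σ y - y) < V y := by
    intro σ _ hσ h1 y hy
    obtain ⟨u, n, hu, rfl⟩ := hnf y hy
    exact (hθ ⟨σ, hσ⟩ u hu n).2 (by rw [h1, one_zpow])
  -- residue characteristic
  have hVp : V (p : L) < 1 := by
    have h1 := hval (p : K)
    rw [map_natCast (algebraMap K L) p] at h1
    rw [← h1]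
    exact pow_lt_one₀ zero_le hpv he0
  have hVm : ∀ m : ℕ, ¬ p ∣ m → V (m : L) = 1 := by
    intro m hm
    have hle : V (m : L) ≤ 1 := by
      rw [← map_natCast (algebraMap (𝓞 L) L) m]
      exact w.valuation_le_one (K := L) (m : 𝓞 L)
    refine le_antisymm hle (not_lt.1 fun hlt => ?_)
    have hcop : IsCoprime (p : ℤ) (m : ℤ) :=
      Nat.isCoprime_iff_coprime.2 ((Nat.Prime.coprime_iff_not_dvd hp).2 hm)
    obtain ⟨a, b, hab⟩ := hcop
    have h1 : (1 : L) = (a : L) * p + b * m := by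
      have := congrArg (fun z : ℤ => (z : L)) hab
      push_cast at this
      exact this.symm
    have hint : ∀ z : ℤ, V (z : L) ≤ 1 := by
      intro z
      rw [← map_intCast (algebraMap (𝓞 L) L) z]
      exact w.valuation_le_one (K := L) (z : 𝓞 L)
    have h2 : V (1 : L) < 1 := by
      rw [h1]
      refine lt_of_le_of_lt (Valuation.map_add _ _ _) (max_lt ?_ ?_)
      · rw [map_mul]
        exact lt_of_le_of_lt (mul_le_of_le_one_left' (hint a)) hVp
      · rw [map_mul]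
        exact lt_of_le_of_lt (mul_le_of_le_one_left' (hint b)) hlt
    rw [map_one] at h2
    exact lt_irrefl _ h2
  -- the kernel is a p-group
  have hker : ∀ σ : I, θ σ = 1 → ∀ m : ℕ, ¬ p ∣ m → σ ^ m = 1 → σ = 1 := by
    intro σ h1 m hm h2
    have hpow : ∀ j : ℕ, ∀ y : L, y ≠ 0 → V (((σ : L ≃ₐ[K] L) ^ j) y - y) < V y := by
      intro j y hy
      have h3 : θ (σ ^ j) = 1 := by rw [map_pow, h1, one_pow]
      exact hT ((σ : L ≃ₐ[K] L) ^ j) (σ ^ j).2 (σ ^ j).2 h3 y hy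
    apply Subtype.ext
    apply AlgEquiv.ext
    intro u
    show (σ : L ≃ₐ[K] L) u = u
    by_contra hne
    set y := (σ : L ≃ₐ[K] L) u - u with hy
    have hy0 : y ≠ 0 := sub_ne_zero.2 hne
    have hsum : ∑ j ∈ Finset.range m, ((σ : L ≃ₐ[K] L) ^ j) y = 0 := by
      have h4 : ∀ j, ((σ : L ≃ₐ[K] L) ^ j) y = ((σ : L ≃ₐ[K] L) ^ (j + 1)) u -
          ((σ : L ≃ₐ[K] L) ^ j) u := by
        intro j
        rw [hy, map_sub, pow_succ]
        rfl
      simp_rw [h4]
      rw [Finset.sum_range_sub (fun j => ((σ : L ≃ₐ[K] L) ^ j) u)]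
      have h5 : (σ : L ≃ₐ[K] L) ^ m = 1 := by
        have := congrArg (fun z : I => (z : L ≃ₐ[K] L)) h2
        simpa using this
      rw [h5, pow_zero, sub_self]
    have hlt : V (∑ j ∈ Finset.range m, (((σ : L ≃ₐ[K] L) ^ j) y - y)) < V y :=
      Valuation.map_sum_lt _ ((Valuation.ne_zero_iff _).2 hy0) (fun j _ => hpow j y hy0)
    rw [Finset.sum_sub_distrib, hsum, zero_sub, Valuation.map_neg, Finset.sum_const,
      Finset.card_range, nsmul_eq_mul, map_mul, hVm m hm, one_mul] at hlt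
    exact lt_irrefl _ hlt
  have hPG : IsPGroup p θ.ker := by
    intro g
    have hfin : Finite θ.ker := inferInstance
    have ho : 0 < orderOf g := orderOf_pos g
    obtain ⟨k, m, hm, hkm⟩ := Nat.exists_eq_pow_mul_and_not_dvd ho.ne' p hp.ne_one
    refine ⟨k, ?_⟩
    have h1 : (g ^ p ^ k) ^ m = 1 := by
      rw [← pow_mul, ← hkm, pow_orderOf_eq_one]
    have h2 := hker ((g ^ p ^ k : θ.ker) : I) (g ^ p ^ k).2 m hm (by
      have := congrArg (fun z : θ.ker => (z : I)) h1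
      simpa using this)
    exact Subtype.ext h2
  have : Fact p.Prime := ⟨hp⟩
  obtain ⟨s, hs⟩ := IsPGroup.iff_card.1 hPG
  have hcyc : IsCyclic θ.range := inferInstance
  obtain ⟨g, hg⟩ := hcyc.exists_generator
  obtain ⟨τ, hτ⟩ := g.2
  have hord : orderOf (θ τ) = Nat.card θ.range := by
    have h1 := orderOf_eq_card_of_forall_mem_zpowers hg
    rw [← h1, hτ, Subgroup.orderOf_coe]
  have hcard : e = p ^ s * orderOf (θ τ) := by
    rw [hord, ← hs, ← Subgroup.index_ker, Subgroup.card_mul_index, hIcard]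
  obtain ⟨ϖ, hϖ⟩ := v.valuation_exists_uniformizer K
  have hϖ0 : ϖ ≠ 0 := by
    rintro rfl
    rw [map_zero] at hϖ
    exact WithZero.exp_ne_zero hϖ.symm
  refine ⟨w, e, τ, he0, hval, hI1 τ.1 τ.2, hI2 τ.1 τ.2, ?_⟩
  intro y hy i hi
  obtain ⟨u, n, hu, rfl⟩ := hnf y hy
  have h1 : θ (τ ^ i) ^ n = 1 := (hθ (τ ^ i) u hu n).1 hi
  rw [map_pow, ← zpow_natCast (θ τ) i, ← zpow_mul] at h1
  obtain ⟨t, ht⟩ := orderOf_dvd_iff_zpow_eq_one.2 h1
  refine ⟨s, ϖ ^ t, zpow_ne_zero _ hϖ0, ?_⟩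
  rw [map_mul, hu, one_mul, map_zpow₀, map_zpow₀, map_zpow₀, ← hval, hϖ, hπ, ← zpow_natCast,
    ← zpow_natCast, ← zpow_mul, ← zpow_mul]
  congr 1
  rw [hcard]
  push_cast
  linear_combination (p : ℤ) ^ s * ht

/-- FROB: a Frobenius element -/
theorem exists_frob (K L : Type*) [Field K] [NumberField K] [Field L] [NumberField L]
    [Algebra K L] [IsGalois K L] (v : HeightOneSpectrum (𝓞 K)) :
    ∃ (w : HeightOneSpectrum (𝓞 L)) (e : ℕ) (h : L ≃ₐ[K] L), e ≠ 0 ∧
      (∀ x : K, v.valuation K x ^ e = w.valuation L (algebraMap K L x)) ∧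
      (∀ x : L, w.valuation L (h x) = w.valuation L x) ∧
      ∀ x : L, w.valuation L x ≤ 1 →
        w.valuation L (h x - x ^ Ideal.absNorm v.asIdeal) < 1 := by
  obtain ⟨w, hw⟩ := exists_above (L := L) v
  have hfin : Finite (𝓞 L ⧸ w.asIdeal) := inferInstance
  have hwp : w.asIdeal.IsPrime := w.isPrime
  obtain ⟨h, hh⟩ := IsArithFrobAt.exists_of_isInvariant (𝓞 K) (L ≃ₐ[K] L) w.asIdeal
  have hcard : Nat.card (𝓞 K ⧸ w.asIdeal.under (𝓞 K)) = Ideal.absNorm v.asIdeal := by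
    rw [← hw.over, Ideal.absNorm_apply, Submodule.cardQuot_apply]
  have hst : ∀ x : 𝓞 L, h • x ∈ w.asIdeal ↔ x ∈ w.asIdeal := by
    intro x
    have h1 : h • w.asIdeal = w.asIdeal := hh.mem_stabilizer
    conv_lhs => rw [← h1]
    exact Ideal.smul_mem_pointwise_smul_iff
  have hcong : ∀ x : 𝓞 L, h • x - x ^ Ideal.absNorm v.asIdeal ∈ w.asIdeal := by
    intro x
    have h1 := hh x
    rw [hcard] at h1
    exact h1
  refine ⟨w, v.asIdeal.ramificationIdx' w.asIdeal, h,
    Ideal.IsDedekindDomain.ramificationIdx'_ne_zero_of_liesOver w.asIdeal v.ne_bot,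
    HeightOneSpectrum.valuation_liesOver L v w, valuation_smul h w hst,
    valuation_frob_sub w h _ hst hcong⟩

end Pool.Agent.TameArb
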