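import Pool.Agent.TameArb.Moved

/-!
# Rigidity of powers of a tame generator, and Frobenius elements
-/

set_option autoImplicit false

open Polynomial WithZero
open scoped WithZero

namespace Pool.Agent.TameArb

universe u

section

variable {K : Type*} [Field K] {v : Valuation K ℤᵐ⁰} {φ : K[X]}

/-- the rigidity lemma -/
theorem bc (hfin : Finite (v.integer ⧸ mI v)) (hφ : Good v φ) (hd : 2 ≤ φ.natDegree)
    (hvd : v (φ.natDegree : K) = 1) {p : ℕ} (hp : p.Prime) (hpd : φ.natDegree < p) {γ : K}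
    (hγ : v γ ≤ 1) (hnp : ∀ n, 0 < n → (ph φ)^[n] γ ≠ γ) {i : ℕ} (hi : 0 < i)
    (hMi : Nat.factorial φ.natDegree ^ (φ.natDegree - 1) ∣ i) :
    ∃ m0 : ℕ, ∀ m, m0 ≤ m → ∀ (L : Type u) [Field L] [Algebra K L] (V : Valuation L ℤᵐ⁰) (e : ℕ)
      (τ : L ≃ₐ[K] L) (_ : Tame v V e p τ) (n : ℕ) (y z : L),
      (ph φ)^[m] y = algebraMap K L γ → (τ ^ i) y = y → (ph φ)^[n] z = y → (τ ^ i) z = z := by
  by_cases hcase : PerMod v φ γ ∧ ∃ r, v (dph φ ((ph φ)^[r] γ)) < 1
  · obtain ⟨hper, hcrit⟩ := hcase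
    obtain ⟨n0, hn0⟩ := moved_cyc.{u} hφ hd hp hpd hγ hper hnp hcrit hi
    obtain ⟨t, ht⟩ := t_lemma.{u} hfin hφ hvd
    refine ⟨n0 + t, ?_⟩
    intro m hm L _ _ V e τ hτ n y z hy hfix hz
    have h := hτ.ov
    have hγ' : V (algebraMap K L γ) ≤ 1 := h.le_one.mpr hγ
    have hy1 : V y ≤ 1 := h.le_of_iter hφ hd (n := m) (by rw [hy]; exact hγ')
    have hz1 : V z ≤ 1 := h.le_of_iter hφ hd (n := n) (by rw [hz]; exact hy1)
    have hempty : crits V φ n z = ∅ := by
      rw [Finset.eq_empty_iff_forall_notMem]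
      intro j hj
      rw [crits, Finset.mem_filter, Finset.mem_range] at hj
      obtain ⟨hjn, hjc⟩ := hj
      set x := (ph φ)^[j] z with hx
      have hx1 : V x ≤ 1 := h.iter_le hφ hz1 j
      have hxy : (ph φ)^[n - j] x = y := by
        rw [hx, ← Function.iterate_add_apply, show n - j + j = n by omega, hz]
      -- the vertex at a level where tame powers move the cycle
      set w := (ph φ)^[t] y with hw
      have hwlev : (ph φ)^[m - t] w = algebraMap K L γ := by
        rw [hw, ← Function.iterate_add_apply, show m - t + t = m by omega, hy]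
      have hwfix : (τ ^ i) w = w := by
        rw [hw]
        have := iter_hom φ ((τ ^ i : L ≃ₐ[K] L) : L →ₐ[K] L) t y
        exact this.trans (by
          show (ph φ)^[t] ((τ ^ i) y) = _
          rw [hfix])
      have hwC : ¬ InC V φ γ w := fun hC => hn0 L V e τ hτ (m - t) (by omega) w hwlev hC hwfix
      obtain ⟨a, b, hab, hbt, hcong⟩ := ht L V e h x hx1 hjc
      have hxlev : (ph φ)^[m + (n - j)] x = algebraMap K L γ := by
        rw [Function.iterate_add_apply, hxy, hy]
      refine h.distinct_before hφ hx1 hxlev hab (by omega) ?_ hcong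
      intro hC
      apply hwC
      have h1 := h.inC_iter hφ hγ (h.iter_le hφ hx1 a) hC (t + (n - j) - a)
      rw [← Function.iterate_add_apply, show t + (n - j) - a + a = t + (n - j) by omega,
        Function.iterate_add_apply, hxy] at h1
      exact h1
    have h2 := h.fix_pow hφ hd (hτ.inert.pow i) (n := n) hz1 (by rw [hz]; exact hfix)
    rw [hempty, Finset.card_empty, pow_zero, pow_one] at h2
    exact h2
  · refine ⟨0, ?_⟩
    intro m _ L _ _ V e τ hτ n y z hy _ hz
    have h := hτ.ov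
    have hγ' : V (algebraMap K L γ) ≤ 1 := h.le_one.mpr hγ
    have hzlev : (ph φ)^[m + n] z = algebraMap K L γ := by
      rw [Function.iterate_add_apply, hz, hy]
    have hz1 : V z ≤ 1 := h.le_of_iter hφ hd (n := m + n) (by rw [hzlev]; exact hγ')
    apply h.fix_all hφ hd hvd hz1 hzlev _ hτ.inert hMi
    intro j hj
    rw [crits, Finset.mem_filter, Finset.mem_range] at hj
    obtain ⟨hjn, hjc⟩ := hj
    by_cases hper : PerMod v φ γ
    · apply h.notInC_of_noncrit hφ hγ _ (h.iter_le hφ hz1 j) hjc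
      intro r
      apply le_antisymm ((overSelf v).dph_le hφ ((overSelf v).iter_le hφ hγ r))
      by_contra hcon
      exact hcase ⟨hper, r, not_le.mp hcon⟩
    · exact h.notInC_of_not_per hφ hγ hper hz1 hzlev hjn

/-- a Frobenius element -/
structure Frob {L : Type*} [Field L] [Algebra K L] (v : Valuation K ℤᵐ⁰) (V : Valuation L ℤᵐ⁰)
    (e q : ℕ) (h : L ≃ₐ[K] L) : Prop where
  ov : Over v V e
  frob : ∀ x : L, V x ≤ 1 → V (h x - x ^ q) < 1

theorem Frob.pow {L : Type*} [Field L] [Algebra K L] {V : Valuation L ℤᵐ⁰}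
    {e q : ℕ} {h : L ≃ₐ[K] L} (hh : Frob v V e q h) (i : ℕ) {x : L} (hx : V x ≤ 1) :
    V ((h ^ i) x) ≤ 1 ∧ V ((h ^ i) x - x ^ (q ^ i)) < 1 := by
  induction i with
  | zero => simp [hx]
  | succ i ih =>
    obtain ⟨ih1, ih2⟩ := ih
    have h1 := hh.frob _ ih1
    have hxq : V (x ^ (q ^ i)) ≤ 1 := by rw [map_pow]; exact pow_le_one' hx _
    have hint : IntP V (X ^ q : L[X]) := by
      intro k
      rw [coeff_X_pow]
      split_ifs <;> simp
    have h2 := (cong_eval hint hxq ih1).trans_lt ih2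
    simp only [eval_pow, eval_X] at h2
    have h3 : V ((h ^ (i + 1)) x - x ^ (q ^ (i + 1))) < 1 := by
      rw [pow_succ' h, AlgEquiv.mul_apply]
      have e1 : h ((h ^ i) x) - x ^ (q ^ (i + 1)) = (h ((h ^ i) x) - ((h ^ i) x) ^ q) +
          (((h ^ i) x) ^ q - (x ^ (q ^ i)) ^ q) := by
        rw [← pow_mul x, ← pow_succ]; ring
      rw [e1]
      exact Valuation.map_add_lt _ h1 h2
    refine ⟨?_, h3⟩
    have e2 : (h ^ (i + 1)) x = ((h ^ (i + 1)) x - x ^ (q ^ (i + 1))) + x ^ (q ^ (i + 1)) := by ring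
    rw [e2]
    apply Valuation.map_add_le _ h3.le
    rw [map_pow]; exact pow_le_one' hx _

/-- powers of Frobenius elements have no fixed points high up -/
theorem frob_moved (hφ : Good v φ) (hd : 2 ≤ φ.natDegree) {γ : K} (hγ : v γ ≤ 1)
    (hnp : ¬ PerMod v φ γ) {q : ℕ} (hq : 1 < q) {i : ℕ} (hi : 0 < i)
    {L : Type*} [Field L] [Algebra K L] {V : Valuation L ℤᵐ⁰} {e : ℕ} {h : L ≃ₐ[K] L}
    (hh : Frob v V e q h) {n : ℕ} (hn : q ^ i ≤ n) {z : L} (hz : (ph φ)^[n] z = algebraMap K L γ) :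
    (h ^ i) z ≠ z := by
  classical
  intro hfix
  have ho := hh.ov
  have hγ' : V (algebraMap K L γ) ≤ 1 := ho.le_one.mpr hγ
  have hz1 : V z ≤ 1 := ho.le_of_iter hφ hd (n := n) (by rw [hz]; exact hγ')
  have hQ : 1 < q ^ i := Nat.one_lt_pow (by omega) hq
  set P : L[X] := X ^ (q ^ i) - X with hP
  have hdeg : P.natDegree = q ^ i := by
    rw [hP]
    exact FiniteField.X_pow_card_sub_X_natDegree_eq L hQ
  have hlead : P.leadingCoeff = 1 := by
    rw [leadingCoeff, hdeg, hP, coeff_sub, coeff_X_pow, if_pos rfl, coeff_X_of_ne_one (by omega),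
      sub_zero]
  have hint : IntP V P := by
    intro k
    rw [hP, coeff_sub]
    apply Valuation.map_sub_le
    · rw [coeff_X_pow]; split_ifs <;> simp
    · rw [coeff_X]; split_ifs <;> simp
  have hdis : ∀ a b, a < b → b ≤ n → ¬ V ((ph φ)^[a] z - (ph φ)^[b] z) < 1 := by
    intro a b hab hbn
    exact ho.distinct_before hφ hz1 hz hab hbn
      (ho.notInC_of_not_per hφ hγ hnp hz1 hz (show a < n by omega))
  have hinj : Set.InjOn (fun j => (ph φ)^[j] z) (Finset.range (n + 1) : Set ℕ) := by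
    intro a ha b hb hab
    rw [Finset.mem_coe, Finset.mem_range] at ha hb
    simp only at hab
    by_contra hne
    rcases lt_or_gt_of_ne hne with h1 | h1
    · apply hdis a b h1 (by omega)
      rw [hab, sub_self, map_zero]; exact zero_lt_one
    · apply hdis b a h1 (by omega)
      rw [hab, sub_self, map_zero]; exact zero_lt_one
  have hcard := card_roots_mod hint (by rw [hlead, map_one])
    ((Finset.range (n + 1)).image (fun j => (ph φ)^[j] z)) ?_ ?_ ?_
  · rw [Finset.card_image_of_injOn hinj, Finset.card_range, hdeg] at hcard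
    omega
  · intro x hx
    obtain ⟨j, -, rfl⟩ := Finset.mem_image.mp hx
    exact ho.iter_le hφ hz1 j
  · intro x hx
    obtain ⟨j, -, rfl⟩ := Finset.mem_image.mp hx
    have h1 := (hh.pow i (ho.iter_le hφ hz1 j)).2
    have h2 : (h ^ i) ((ph φ)^[j] z) = (ph φ)^[j] z := by
      have := iter_hom φ ((h ^ i : L ≃ₐ[K] L) : L →ₐ[K] L) j z
      exact this.trans (by
        show (ph φ)^[j] ((h ^ i) z) = _
        rw [hfix])
    rw [h2, Valuation.map_sub_swap] at h1
    rw [hP]
    simpa using h1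
  · intro x hx y hy hxy
    obtain ⟨a, ha, rfl⟩ := Finset.mem_image.mp hx
    obtain ⟨b, hb, rfl⟩ := Finset.mem_image.mp hy
    rw [Finset.mem_range] at ha hb
    have hne : a ≠ b := by rintro rfl; exact hxy rfl
    rcases lt_or_gt_of_ne hne with h1 | h1
    · exact hdis a b h1 (by omega)
    · rw [Valuation.map_sub_swap]
      exact hdis b a h1 (by omega)

end

end Pool.Agent.TameArb
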