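import Pool.Agent.TameArb.BC
import Pool.Agent.TameArb.TameGen

/-!
# Composition of tame generators and a Frobenius element
-/

set_option autoImplicit false

open Polynomial WithZero NumberField IsDedekindDomain
open scoped WithZero

namespace Pool.Agent.TameArb

section

variable {K : Type} [Field K] [NumberField K] {φ : K[X]}

theorem fin_res (v : HeightOneSpectrum (𝓞 K)) :
    Finite ((v.valuation K).integer ⧸ mI (v.valuation K)) := by
  have hfin : Finite (𝓞 K ⧸ v.asIdeal) :=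
    Ideal.finiteQuotientOfFreeOfNeBot v.asIdeal v.ne_bot
  let f : 𝓞 K →+* (v.valuation K).integer :=
    { toFun := fun a => ⟨algebraMap (𝓞 K) K a, v.valuation_le_one a⟩
      map_one' := Subtype.ext (map_one _)
      map_mul' := fun a b => Subtype.ext (map_mul _ _ _)
      map_zero' := Subtype.ext (map_zero _)
      map_add' := fun a b => Subtype.ext (map_add _ _ _) }
  let F : 𝓞 K ⧸ v.asIdeal →+* (v.valuation K).integer ⧸ mI (v.valuation K) :=
    Ideal.Quotient.lift v.asIdeal ((Ideal.Quotient.mk (mI (v.valuation K))).comp f) (by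
      intro a ha
      rw [RingHom.comp_apply, Ideal.Quotient.eq_zero_iff_mem, mem_mI]
      exact (v.valuation_lt_one_iff_mem a).mpr ha)
  apply Finite.of_surjective F
  intro x
  obtain ⟨x, rfl⟩ := Ideal.Quotient.mk_surjective x
  obtain ⟨a, ha⟩ := v.exists_valuation_sub_lt_of_integer (K := K) x.2 1
  refine ⟨Ideal.Quotient.mk _ a, ?_⟩
  show Ideal.Quotient.mk (mI (v.valuation K)) (f a) = _
  rw [Ideal.Quotient.mk_eq_mk_iff_sub_mem, mem_mI]
  have ha' : v.valuation K (algebraMap (𝓞 K) K a - (x : K)) < 1 := by simpa using ha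
  exact ha'

theorem vd_one {v : Valuation K ℤᵐ⁰} {p d : ℕ} (hp : p.Prime) (hpv : v (p : K) < 1)
    (hd : 0 < d) (hdp : d < p) : v (d : K) = 1 := by
  apply le_antisymm (natCast_le d)
  by_contra hcon
  push Not at hcon
  have hcop : IsCoprime (p : ℤ) (d : ℤ) := by
    rw [Nat.isCoprime_iff_coprime]
    exact Nat.coprime_of_lt_prime (by omega) hdp hp
  obtain ⟨a, b, hab⟩ := hcop
  have h1 : ((a : K) * p + b * d) = 1 := by exact_mod_cast hab
  have hint : ∀ n : ℤ, v (n : K) ≤ 1 := by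
    intro n
    obtain ⟨m, rfl | rfl⟩ := Int.eq_nat_or_neg n
    · rw [Int.cast_natCast]; exact natCast_le m
    · rw [Int.cast_neg, Int.cast_natCast, Valuation.map_neg]; exact natCast_le m
  have h2 : v ((a : K) * p + b * d) < 1 := by
    apply Valuation.map_add_lt
    · rw [map_mul]; exact mul_lt_one_aux (hint a) hpv
    · rw [map_mul]; exact mul_lt_one_aux (hint b) hcon
  rw [h1, map_one] at h2
  exact lt_irrefl _ h2

/-- the inductive statement -/
def St (φ : K[X]) (Γ : Finset K) (B : Set K) (m : ℕ) : Prop :=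
  ∀ (L : Type) [Field L] [NumberField L] [Algebra K L] [IsGalois K L], ∃ g : L ≃ₐ[K] L,
    ∀ γ ∈ Γ, ∀ y : L, (ph φ)^[m] y = algebraMap K L γ → g y = y →
      γ ∉ B ∧ ∀ (n : ℕ) (z : L), (ph φ)^[n] z = y → g z = z

omit [NumberField K] in
theorem st_base (φ : K[X]) (Γ : Finset K) : St φ Γ ∅ 0 := by
  intro L _ _ _ _
  exact ⟨1, fun γ _ y _ _ => ⟨by simp, fun n z _ => rfl⟩⟩

omit [NumberField K] in
theorem iter_aut {L : Type*} [Field L] [Algebra K L] (g : L ≃ₐ[K] L) (n : ℕ) (x : L) :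
    g ((ph φ)^[n] x) = (ph φ)^[n] (g x) :=
  iter_hom φ (g : L →ₐ[K] L) n x

theorem common_bound {ι : Type*} (Γ : Finset ι) (P : ι → ℕ → Prop)
    (h : ∀ γ ∈ Γ, ∃ m0, ∀ m, m0 ≤ m → P γ m) (m : ℕ) :
    ∃ m', m ≤ m' ∧ ∀ γ ∈ Γ, P γ m' := by
  classical
  induction Γ using Finset.induction_on generalizing m with
  | empty => exact ⟨m, le_rfl, by simp⟩
  | insert a s ha ih =>
    obtain ⟨m0, hm0⟩ := h a (Finset.mem_insert_self a s)
    have h2 : ∀ m, ∃ m', m ≤ m' ∧ ∀ γ ∈ s, P γ m' := fun m =>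
      ih (fun γ hγ => h γ (Finset.mem_insert_of_mem hγ)) m
    obtain ⟨m', hm', hP⟩ := h2 (max m m0)
    refine ⟨m', (le_max_left _ _).trans hm', ?_⟩
    intro γ hγ
    rcases Finset.mem_insert.mp hγ with rfl | hγ
    · exact hm0 m' ((le_max_right _ _).trans hm')
    · exact hP γ hγ

/-- the exponent that kills bounded tame ramification -/
def MM (φ : K[X]) : ℕ := Nat.factorial φ.natDegree ^ (φ.natDegree - 1)

/-- the local property needed for one place -/
def Loc (φ : K[X]) (v : Valuation K ℤᵐ⁰) (p i : ℕ) (γ : K) (m : ℕ) : Prop :=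
  ∀ (L : Type) [Field L] [Algebra K L] (V : Valuation L ℤᵐ⁰) (e : ℕ) (τ : L ≃ₐ[K] L)
    (_ : Tame v V e p τ) (y : L), (ph φ)^[m] y = algebraMap K L γ → (τ ^ i) y = y → v γ ≤ 1 ∧
      ∀ (n : ℕ) (z : L), (ph φ)^[n] z = y → (τ ^ i) z = z

theorem st_step (hd : 2 ≤ φ.natDegree) {Γ : Finset K} {B : Set K} {m : ℕ} (hS : St φ Γ B m)
    (v : HeightOneSpectrum (𝓞 K)) {p : ℕ} (hp : p.Prime) (hpv : v.valuation K (p : K) < 1)
    (hloc : ∀ i, 0 < i → MM φ ∣ i → ∀ γ ∈ Γ, γ ∉ B → ∃ m0, ∀ m, m0 ≤ m →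
      Loc φ (v.valuation K) p i γ m) :
    ∃ m', St φ Γ (B ∪ {γ | 1 < v.valuation K γ}) m' := by
  set i := MM φ * Nat.factorial (φ.natDegree ^ m) with hi
  have hi0 : 0 < i := Nat.mul_pos (pow_pos (Nat.factorial_pos _) _) (Nat.factorial_pos _)
  have hMi : MM φ ∣ i := ⟨_, rfl⟩
  obtain ⟨m', hmm', hm'⟩ := common_bound Γ (fun γ m => γ ∉ B → Loc φ (v.valuation K) p i γ m) (by
    intro γ hγ
    by_cases hB : γ ∈ B
    · exact ⟨0, fun m _ h => absurd hB h⟩
    · obtain ⟨m0, hm0⟩ := hloc i hi0 hMi γ hγ hB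
      exact ⟨m0, fun m hm _ => hm0 m hm⟩) m
  refine ⟨m', ?_⟩
  intro L _ _ _ _
  obtain ⟨g, hg⟩ := hS L
  obtain ⟨w, e, τ, he, hval, -, hin, htame⟩ := exists_tame K L v p hp hpv
  have hτ : Tame (v.valuation K) (w.valuation L) e p τ := ⟨⟨he, hval⟩, hin, htame⟩
  refine ⟨g * τ ^ i, ?_⟩
  intro γ hγ y hy hfix
  rw [AlgEquiv.mul_apply] at hfix
  -- the vertex at level `m`
  set y' := (ph φ)^[m' - m] y with hy'
  have hy'lev : (ph φ)^[m] y' = algebraMap K L γ := by
    rw [hy', ← Function.iterate_add_apply, show m + (m' - m) = m' by omega, hy]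
  have hτy' : (τ ^ i) y' = y' := by
    have h1 := pow_fix_fibre φ hd τ (m := m) (x := y') (by rw [hy'lev]; exact τ.commutes γ)
    exact pow_fix_dvd h1 ⟨_, by rw [hi, mul_comm]⟩
  have hgy' : g y' = y' := by
    have h1 : g ((τ ^ i) y') = y' := by
      rw [hy', iter_aut, iter_aut, hfix]
    rwa [hτy'] at h1
  obtain ⟨hB, hab⟩ := hg γ hγ y' hy'lev hgy'
  have habove : (ph φ)^[m' - m] ((τ ^ i) y) = y' := by
    rw [← iter_aut, ← hy', hτy']
  have hτy : (τ ^ i) y = y := by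
    have h1 := hab _ _ habove
    rw [hfix] at h1
    exact h1.symm
  obtain ⟨hv1, hrig⟩ := hm' γ hγ hB L (w.valuation L) e τ hτ y hy hτy
  refine ⟨?_, ?_⟩
  · rintro (h1 | h1)
    · exact hB h1
    · exact absurd h1 (not_lt.mpr hv1)
  · intro n z hz
    rw [AlgEquiv.mul_apply, hrig n z hz]
    apply hab (m' - m + n)
    rw [Function.iterate_add_apply, hz]

/-- places of residue characteristic greater than the degree -/
theorem loc_big (hd : 2 ≤ φ.natDegree) (v : HeightOneSpectrum (𝓞 K))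
    (hφ : Good (v.valuation K) φ) {p : ℕ} (hp : p.Prime)
    (hpv : v.valuation K (p : K) < 1) (hpd : φ.natDegree < p) {i : ℕ} (hi0 : 0 < i)
    (hMi : MM φ ∣ i) {γ : K} (hnp : ∀ n, 0 < n → (ph φ)^[n] γ ≠ γ) :
    ∃ m0, ∀ m, m0 ≤ m → Loc φ (v.valuation K) p i γ m := by
  rcases lt_or_ge 1 (v.valuation K γ) with h1 | h1
  · obtain ⟨n0, hn0⟩ := moved_inf.{0} hφ hd
      (Nat.coprime_of_lt_prime (by omega) hpd hp).symm h1 hi0
    refine ⟨n0, fun m hm L _ _ V e τ hτ y hy hfix => ?_⟩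
    exact absurd hfix (hn0 L V e τ hτ m hm y hy)
  · obtain ⟨m0, hm0⟩ := bc.{0} (fin_res v) hφ hd (vd_one hp hpv (by omega) hpd) hp hpd h1 hnp hi0 hMi
    refine ⟨m0, fun m hm L _ _ V e τ hτ y hy hfix => ⟨h1, fun n z hz => ?_⟩⟩
    exact hm0 m hm L V e τ hτ n y z hy hfix hz

omit [NumberField K] in
/-- a place prime to the degree, for points that are not periodic modulo this place -/
theorem loc_special (hd : 2 ≤ φ.natDegree) {v : Valuation K ℤᵐ⁰} (hφ : Good v φ)
    (hvd : v (φ.natDegree : K) = 1) {p : ℕ} (hpd : Nat.Coprime φ.natDegree p) {i : ℕ}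
    (hi0 : 0 < i) (hMi : MM φ ∣ i) {γ : K} (hnp : ¬ (v γ ≤ 1 ∧ PerMod v φ γ)) :
    ∃ m0, ∀ m, m0 ≤ m → Loc φ v p i γ m := by
  rcases lt_or_ge 1 (v γ) with h1 | h1
  · obtain ⟨n0, hn0⟩ := moved_inf.{0} hφ hd hpd h1 hi0
    refine ⟨n0, fun m hm L _ _ V e τ hτ y hy hfix => ?_⟩
    exact absurd hfix (hn0 L V e τ hτ m hm y hy)
  · refine ⟨0, fun m _ L _ _ V e τ hτ y hy hfix => ⟨h1, fun n z hz => ?_⟩⟩
    have h := hτ.ov
    have hγ' : V (algebraMap K L γ) ≤ 1 := h.le_one.mpr h1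
    have hzlev : (ph φ)^[m + n] z = algebraMap K L γ := by
      rw [Function.iterate_add_apply, hz, hy]
    have hz1 : V z ≤ 1 := h.le_of_iter hφ hd (n := m + n) (by rw [hzlev]; exact hγ')
    apply h.fix_all hφ hd hvd hz1 hzlev _ hτ.inert hMi
    intro j hj
    rw [crits, Finset.mem_filter, Finset.mem_range] at hj
    exact h.notInC_of_not_per hφ h1 (fun h' => hnp ⟨h1, h'⟩) hz1 hzlev hj.1

/-- the residue characteristic -/
theorem exists_char (v : HeightOneSpectrum (𝓞 K)) :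
    ∃ p : ℕ, p.Prime ∧ v.valuation K (p : K) < 1 := by
  have h1 : ((Ideal.absNorm v.asIdeal : ℕ) : 𝓞 K) ∈ v.asIdeal := Ideal.absNorm_mem v.asIdeal
  have h0 : Ideal.absNorm v.asIdeal ≠ 0 := fun h => v.ne_bot (Ideal.absNorm_eq_zero_iff.1 h)
  have key : ∀ n : ℕ, n ≠ 0 → ((n : ℕ) : 𝓞 K) ∈ v.asIdeal →
      ∃ p : ℕ, p.Prime ∧ ((p : ℕ) : 𝓞 K) ∈ v.asIdeal := by
    intro n
    induction n using Nat.strong_induction_on with
    | _ n ih =>
      intro hn hmem
      by_cases hn1 : n = 1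
      · exfalso
        rw [hn1, Nat.cast_one] at hmem
        exact v.isPrime.ne_top ((Ideal.eq_top_iff_one _).mpr hmem)
      · obtain ⟨p, hp, m, rfl⟩ := Nat.exists_prime_and_dvd hn1
        rw [Nat.cast_mul] at hmem
        rcases v.isPrime.mem_or_mem hmem with h | h
        · exact ⟨p, hp, h⟩
        · have hm0 : m ≠ 0 := by rintro rfl; simp at hn
          exact ih m (by
            have := hp.one_lt
            exact lt_mul_of_one_lt_left (Nat.pos_of_ne_zero hm0) this) hm0 h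
  obtain ⟨p, hp, hpm⟩ := key _ h0 h1
  refine ⟨p, hp, ?_⟩
  have := (v.valuation_lt_one_iff_mem (K := K) (p : 𝓞 K)).mpr hpm
  simpa using this

/-- the automorphism without fixed points -/
theorem exists_auto (hd : 2 ≤ φ.natDegree) (Γ : Finset K)
    (hnp : ∀ γ ∈ Γ, ∀ n, 0 < n → (ph φ)^[n] γ ≠ γ) (T : Finset (HeightOneSpectrum (𝓞 K)))
    (hT : ∀ v ∈ T, Good (v.valuation K) φ ∧
      ∃ p : ℕ, p.Prime ∧ v.valuation K (p : K) < 1 ∧ φ.natDegree < p)
    (v0 : HeightOneSpectrum (𝓞 K)) (hv0 : Good (v0.valuation K) φ)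
    (hΓ : ∀ γ ∈ Γ, (∃ v ∈ T, 1 < v.valuation K γ) ∨
      (1 < v0.valuation K γ ∧ v0.valuation K (φ.natDegree : K) = 1) ∨
      (v0.valuation K γ ≤ 1 ∧ ¬ PerMod (v0.valuation K) φ γ)) :
    ∃ n : ℕ, ∀ (L : Type) [Field L] [NumberField L] [Algebra K L] [IsGalois K L],
      ∃ g : L ≃ₐ[K] L, ∀ γ ∈ Γ, ∀ z : L, (ph φ)^[n] z = algebraMap K L γ → g z ≠ z := by
  classical
  have hSt : ∀ T : Finset (HeightOneSpectrum (𝓞 K)), (∀ v ∈ T, Good (v.valuation K) φ ∧
      ∃ p : ℕ, p.Prime ∧ v.valuation K (p : K) < 1 ∧ φ.natDegree < p) →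
      ∃ m, St φ Γ {γ | ∃ v ∈ T, 1 < v.valuation K γ} m := by
    intro T
    induction T using Finset.induction_on with
    | empty =>
      intro _
      refine ⟨0, ?_⟩
      have := st_base φ Γ
      have h1 : {γ : K | ∃ v ∈ (∅ : Finset (HeightOneSpectrum (𝓞 K))), 1 < v.valuation K γ} = ∅ := by
        ext; simp
      rw [h1]; exact this
    | insert a s ha ih =>
      intro hT
      obtain ⟨m, hm⟩ := ih (fun v hv => hT v (Finset.mem_insert_of_mem hv))
      obtain ⟨hgood, p, hp, hpv, hpd⟩ := hT a (Finset.mem_insert_self a s)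
      obtain ⟨m', hm'⟩ := st_step hd hm a hp hpv
        (fun i hi hMi γ hγ _ => loc_big hd a hgood hp hpv hpd hi hMi (hnp γ hγ))
      refine ⟨m', ?_⟩
      have h1 : {γ : K | ∃ v ∈ insert a s, 1 < v.valuation K γ} =
          {γ | ∃ v ∈ s, 1 < v.valuation K γ} ∪ {γ | 1 < a.valuation K γ} := by
        ext γ
        simp [or_comm]
      rw [h1]; exact hm'
  have hSt2 : ∃ (m : ℕ) (B : Set K), St φ Γ B m ∧
      ∀ γ ∈ Γ, γ ∉ B → v0.valuation K γ ≤ 1 ∧ ¬ PerMod (v0.valuation K) φ γ := by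
    obtain ⟨m, hm⟩ := hSt T hT
    by_cases hvd : v0.valuation K (φ.natDegree : K) = 1
    · obtain ⟨p, hp, hpv⟩ := exists_char v0
      have hcop : Nat.Coprime φ.natDegree p := by
        rw [Nat.coprime_comm, hp.coprime_iff_not_dvd]
        rintro ⟨c, hc⟩
        rw [hc] at hvd
        push_cast at hvd
        rw [map_mul, mul_comm] at hvd
        have := mul_lt_one_aux (natCast_le (V := v0.valuation K) c) hpv
        rw [hvd] at this
        exact lt_irrefl _ this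
      obtain ⟨m', hm'⟩ := st_step hd hm v0 hp hpv (fun i hi hMi γ hγ hB => by
        apply loc_special hd hv0 hvd hcop hi hMi
        rintro ⟨h1, h2⟩
        rcases hΓ γ hγ with h3 | h3 | h3
        · exact hB h3
        · exact absurd h3.1 (not_lt.mpr h1)
        · exact h3.2 h2)
      refine ⟨m', _, hm', ?_⟩
      intro γ hγ hB
      rcases hΓ γ hγ with h3 | h3 | h3
      · exact absurd (Or.inl h3) hB
      · exact absurd (Or.inr h3.1) hB
      · exact h3
    · refine ⟨m, _, hm, ?_⟩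
      intro γ hγ hB
      rcases hΓ γ hγ with h3 | h3 | h3
      · exact absurd h3 hB
      · exact absurd h3.2 hvd
      · exact h3
  obtain ⟨m, B, hm, hmB⟩ := hSt2
  set q := Ideal.absNorm v0.asIdeal with hq
  have hq1 : 1 < q := by
    have h0 : q ≠ 0 := fun h => v0.ne_bot (Ideal.absNorm_eq_zero_iff.1 h)
    have h1 : q ≠ 1 := fun h => v0.isPrime.ne_top (Ideal.absNorm_eq_one_iff.1 h)
    omega
  set i := Nat.factorial (φ.natDegree ^ m) with hi
  have hi0 : 0 < i := Nat.factorial_pos _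
  refine ⟨m + q ^ i, ?_⟩
  intro L _ _ _ _
  obtain ⟨g, hg⟩ := hm L
  obtain ⟨w, e, h, he, hval, -, hfrob⟩ := exists_frob K L v0
  have hh : Frob (v0.valuation K) (w.valuation L) e q h := ⟨⟨he, hval⟩, hfrob⟩
  refine ⟨g * h ^ i, ?_⟩
  intro γ hγ z hz hfix
  rw [AlgEquiv.mul_apply] at hfix
  set y := (ph φ)^[q ^ i] z with hy
  have hylev : (ph φ)^[m] y = algebraMap K L γ := by
    rw [hy, ← Function.iterate_add_apply, hz]
  have hhy : (h ^ i) y = y :=
    pow_fix_fibre φ hd h (m := m) (x := y) (by rw [hylev]; exact h.commutes γ)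
  have hgy : g y = y := by
    have h1 : g ((h ^ i) y) = y := by rw [hy, iter_aut, iter_aut, hfix]
    rwa [hhy] at h1
  obtain ⟨hB, hab⟩ := hg γ hγ y hylev hgy
  have habove : (ph φ)^[q ^ i] ((h ^ i) z) = y := by
    rw [← iter_aut, ← hy, hhy]
  have hhz : (h ^ i) z = z := by
    have h1 := hab _ _ habove
    rw [hfix] at h1
    exact h1.symm
  obtain ⟨h1, h2⟩ := hmB γ hγ hB
  exact frob_moved hv0 hd h1 h2 hq1 hi0 hh (n := m + q ^ i) (by omega) hz hhz

end

end Pool.Agent.TameArb
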