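import Pool.Agent.TameArb.Tlem

/-!
# Local degrees along a cycle
-/

set_option autoImplicit false

open Polynomial WithZero
open scoped WithZero

namespace Pool.Agent.TameArb

section ee

variable {K : Type*} [Field K] {v : Valuation K ℤᵐ⁰}

/-- local degree of `φ` at the residue class of `c` -/
noncomputable def ee (v : Valuation K ℤᵐ⁰) (φ : K[X]) (c : K) : ℕ :=
  sInf {k | 1 ≤ k ∧ v ((taylor c φ).coeff k) = 1}

theorem ee_mem {φ : K[X]} (hφ : Good v φ) (hd : 2 ≤ φ.natDegree) (c : K) :
    1 ≤ ee v φ c ∧ v ((taylor c φ).coeff (ee v φ c)) = 1 := by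
  have hne : ({k | 1 ≤ k ∧ v ((taylor c φ).coeff k) = 1} : Set ℕ).Nonempty := by
    refine ⟨φ.natDegree, by omega, ?_⟩
    rw [coeff_taylor_natDegree]
    exact hφ.lead
  exact Nat.sInf_mem hne

theorem ee_le {φ : K[X]} (hφ : Good v φ) (hd : 2 ≤ φ.natDegree) (c : K) :
    ee v φ c ≤ φ.natDegree := by
  apply Nat.sInf_le
  refine ⟨by omega, ?_⟩
  rw [coeff_taylor_natDegree]
  exact hφ.lead

theorem lt_ee {φ : K[X]} (hφ : Good v φ) {c : K} (hc : v c ≤ 1) {k : ℕ} (hk1 : 1 ≤ k)
    (hk : k < ee v φ c) : v ((taylor c φ).coeff k) < 1 := by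
  have h1 : v ((taylor c φ).coeff k) ≤ 1 := hφ.int.taylor hc k
  refine lt_of_le_of_ne h1 fun h => ?_
  exact Nat.notMem_of_lt_sInf hk ⟨hk1, h⟩

theorem two_le_ee {φ : K[X]} (hφ : Good v φ) (hd : 2 ≤ φ.natDegree) {c : K}
    (hc : v (dph φ c) < 1) : 2 ≤ ee v φ c := by
  obtain ⟨h1, h2⟩ := ee_mem hφ hd c
  by_contra hcon
  have h3 : ee v φ c = 1 := by omega
  rw [h3, taylor_coeff_one] at h2
  rw [dph, ph_eq_eval] at hc
  exact absurd h2 hc.ne

end ee

section step

variable {K : Type*} [Field K] {L : Type*} [Field L] [Algebra K L]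
  {v : Valuation K ℤᵐ⁰} {V : Valuation L ℤᵐ⁰} {e : ℕ}

theorem le_of_lt_one {a : ℤᵐ⁰} (h : a < 1) : a ≤ exp (-1) := by
  by_cases h0 : a = 0
  · rw [h0]; exact zero_le
  rw [← log_le_iff_le_exp h0]
  have : log a < 0 := by rw [log_lt_iff_lt_exp h0]; exact h
  omega

/-- the largest value less than one on `K` -/
noncomputable def WW (e : ℕ) : ℤᵐ⁰ := exp (-1) ^ e

theorem WW_eq (e : ℕ) : WW e = exp (-(e : ℤ)) := by
  rw [WW, ← exp_nsmul]
  congr 1
  simp

theorem Over.le_WW (h : Over v V e) {a : K} (ha : v a < 1) : V (algebraMap K L a) ≤ WW e := by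
  rw [← h.val]
  exact pow_le_pow_left₀ zero_le (le_of_lt_one ha) e

theorem WW_pos (e : ℕ) : 0 < WW e := pow_pos exp_pos e

theorem WW_lt (h : Over v V e) : WW e < 1 := by
  apply pow_lt_one₀ zero_le _ h.ne
  rw [← exp_zero, exp_lt_exp]
  omega

/-- one step of a path close to a cycle -/
theorem Over.step (h : Over v V e) {φ : K[X]} (hφ : Good v φ) (hd : 2 ≤ φ.natDegree) {c : K}
    (hc : v c ≤ 1) {u : L} (hu : V u < 1)
    (hW : WW e < V (ph φ (algebraMap K L c + u) - ph φ (algebraMap K L c))) :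
    V (ph φ (algebraMap K L c + u) - ph φ (algebraMap K L c)) = V u ^ ee v φ c := by
  set b : ℕ → K := fun k => (taylor c φ).coeff k with hb
  set d := φ.natDegree with hdd
  have hexp : ph φ (algebraMap K L c + u) - ph φ (algebraMap K L c) =
      ∑ k ∈ Finset.range d, algebraMap K L (b (k + 1)) * u ^ (k + 1) := by
    have h1 : ph φ (algebraMap K L c + u) = ((taylor c φ).map (algebraMap K L)).eval u := by
      rw [map_taylor, taylor_eval, ph_eq_eval_map, add_comm]
    rw [h1, eval_eq_sum_range, natDegree_map, natDegree_taylor, Finset.sum_range_succ']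
    simp only [coeff_map, pow_zero, mul_one]
    rw [taylor_coeff_zero, ← ph_eq_eval, ph_algebraMap]
    ring
  obtain ⟨hE1, hE2⟩ := ee_mem hφ hd c
  have hEd := ee_le hφ hd c
  obtain ⟨E, hE⟩ : ∃ E, ee v φ c = E + 1 := ⟨ee v φ c - 1, by omega⟩
  rw [hE] at hE2 hEd ⊢
  have hbint : ∀ k, V (algebraMap K L (b k)) ≤ 1 := fun k =>
    h.le_one.mpr (hφ.int.taylor hc k)
  have hbW : ∀ k, k < E → V (algebraMap K L (b (k + 1)) * u ^ (k + 1)) ≤ WW e := by
    intro k hk
    rw [map_mul, map_pow]
    have h1 : V (algebraMap K L (b (k + 1))) ≤ WW e :=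
      h.le_WW (lt_ee hφ hc (by omega) (by omega))
    calc _ ≤ WW e * 1 := mul_le_mul' h1 (pow_le_one' hu.le _)
      _ = WW e := mul_one _
  have hge : ∀ k, E ≤ k → V (algebraMap K L (b (k + 1)) * u ^ (k + 1)) ≤ V u ^ (k + 1) := by
    intro k _
    rw [map_mul, map_pow]
    calc _ ≤ 1 * V u ^ (k + 1) := mul_le_mul_left (hbint _) _
      _ = _ := one_mul _
  -- the main term is large
  have hWu : WW e < V u ^ (E + 1) := by
    by_contra hcon
    push Not at hcon
    apply absurd hW
    push Not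
    rw [hexp]
    apply Valuation.map_sum_le
    intro k _
    rcases lt_or_ge k E with hk | hk
    · exact hbW k hk
    · refine (hge k hk).trans (le_trans ?_ hcon)
      exact pow_le_pow_right_of_le_one' hu.le (by omega)
  have hu0 : 0 < V u := by
    by_contra h0
    have h1 : V u = 0 := le_antisymm (not_lt.mp h0) zero_le
    rw [h1, zero_pow (by omega)] at hWu
    exact absurd hWu (not_lt.mpr zero_le)
  rw [hexp, ← Finset.add_sum_erase (Finset.range d) _ (Finset.mem_range.mpr (show E < d by omega))]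
  have hmain : V (algebraMap K L (b (E + 1)) * u ^ (E + 1)) = V u ^ (E + 1) := by
    rw [map_mul, map_pow, h.eq_one.mpr hE2, one_mul]
  rw [← hmain]
  apply Valuation.map_add_eq_of_lt_left
  rw [hmain]
  apply Valuation.map_sum_lt
  · exact (pow_pos hu0 _).ne'
  intro k hk
  rw [Finset.mem_erase] at hk
  rcases lt_or_ge k E with hk' | hk'
  · exact (hbW k hk').trans_lt hWu
  · refine (hge k hk').trans_lt ?_
    have : E + 1 < k + 1 := by omega
    exact pow_lt_pow_right_of_lt_one₀ hu0 hu this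

/-- the product formula along a path close to a cycle -/
theorem Over.chain (h : Over v V e) {φ : K[X]} (hφ : Good v φ) (hd : 2 ≤ φ.natDegree)
    {z : ℕ → L} {c : ℕ → K} {n j0 : ℕ} (hj0n : j0 ≤ n) (hz : ∀ j < n, ph φ (z (j + 1)) = z j)
    (hzc : ∀ j ≤ n, V (z j - algebraMap K L (c j)) < 1) (hc1 : ∀ j, v (c j) ≤ 1)
    (hcc : ∀ j, v (ph φ (c (j + 1)) - c j) < 1)
    (hj0 : WW e < V (z j0 - algebraMap K L (c j0))) :
    WW e < V (z n - algebraMap K L (c n)) ∧
      V (z n - algebraMap K L (c n)) ^ (∏ j ∈ Finset.Ico j0 n, ee v φ (c (j + 1))) =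
      V (z j0 - algebraMap K L (c j0)) := by
  induction n, hj0n using Nat.le_induction with
  | base => exact ⟨hj0, by simp⟩
  | succ n hn ih =>
    obtain ⟨ih1, ih2⟩ := ih (fun j hj => hz j (by omega)) (fun j hj => hzc j (by omega))
    set u := z (n + 1) - algebraMap K L (c (n + 1)) with hu
    have hzu : z (n + 1) = algebraMap K L (c (n + 1)) + u := by rw [hu]; ring
    have h1 : V (ph φ (algebraMap K L (c (n + 1)) + u) - ph φ (algebraMap K L (c (n + 1)))) =
        V (z n - algebraMap K L (c n)) := by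
      rw [← hzu, hz n (by omega), ← ph_algebraMap]
      have h2 : z n - algebraMap K L (ph φ (c (n + 1))) = (z n - algebraMap K L (c n)) -
          algebraMap K L (ph φ (c (n + 1)) - c n) := by rw [map_sub]; ring
      rw [h2]
      exact Valuation.map_sub_eq_of_lt_left V ((h.le_WW (hcc n)).trans_lt ih1)
    have hu1 : V u < 1 := hzc (n + 1) le_rfl
    have h3 := h.step hφ hd (hc1 (n + 1)) hu1 (by rw [h1]; exact ih1)
    rw [h1] at h3
    have hE := (ee_mem hφ hd (c (n + 1))).1
    refine ⟨?_, ?_⟩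
    · refine ih1.trans_le ?_
      rw [h3]
      exact pow_le_of_le_one zero_le hu1.le (by omega)
    · rw [Finset.prod_Ico_succ_top hn, mul_comm, pow_mul, ← h3, ih2]

/-- a path cannot stay very close to the cycle for a long time -/
theorem Over.exit (h : Over v V e) {F : K[X]} (hF : IntP v F) {γ : K} (hγ : v γ ≤ 1)
    (hF' : v ((derivative F).eval γ) < 1) {k0 : ℕ} (hk0 : 1 ≤ k0)
    (hη : exp (-1) ^ k0 ≤ v (F.eval γ - γ)) {x : ℕ → L} (hx0 : x 0 = algebraMap K L γ)
    (hx : ∀ k < k0, ph F (x (k + 1)) = x k) : ∃ k ≤ k0, WW e < V (x k - algebraMap K L γ) := by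
  by_contra hcon
  push Not at hcon
  have hW1 := WW_lt h
  have hη' : WW e ^ k0 ≤ V (algebraMap K L (F.eval γ - γ)) := by
    rw [← h.val, WW, ← pow_mul, mul_comm, pow_mul]
    exact pow_le_pow_left₀ zero_le hη e
  have hη0 : 0 < V (algebraMap K L (F.eval γ - γ)) := (pow_pos (WW_pos e) _).trans_le hη'
  set η := V (algebraMap K L (F.eval γ - γ)) with hηdef
  -- contraction
  have hcontr : ∀ y : L, V (y - algebraMap K L γ) ≤ WW e →
      V (ph F y - ph F (algebraMap K L γ)) ≤ WW e * V (y - algebraMap K L γ) := by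
    intro y hy
    have hy1 : V (y - algebraMap K L γ) ≤ 1 := hy.trans hW1.le
    obtain ⟨q, hq, hE⟩ := binom (h.intP hF) (h.le_one.mpr hγ) hy1
    rw [add_sub_cancel] at hE
    have e1 : ph F y - ph F (algebraMap K L γ) =
        ((derivative (F.map (algebraMap K L))).eval (algebraMap K L γ) +
          q * (y - algebraMap K L γ)) * (y - algebraMap K L γ) := by
      rw [ph_eq_eval_map, ph_eq_eval_map, hE]; ring
    rw [e1, map_mul]
    apply mul_le_mul_left
    apply Valuation.map_add_le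
    · rw [derivative_map, eval_map_apply]
      exact h.le_WW hF'
    · rw [map_mul]
      calc _ ≤ 1 * V (y - algebraMap K L γ) := mul_le_mul_left hq _
        _ = _ := one_mul _
        _ ≤ _ := hy
  have key : ∀ k, k + 1 ≤ k0 → η ≤ WW e ^ (k + 1) * V (x (k + 1) - algebraMap K L γ) := by
    intro k
    induction k with
    | zero =>
      intro hk
      have h1 := hcontr (x 1) (hcon 1 hk)
      rw [hx 0 (by omega), hx0, Valuation.map_sub_swap, ← ph_algebraMap, ← map_sub,
        ph_eq_eval] at h1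
      rw [zero_add, pow_one]
      exact h1
    | succ k ih =>
      intro hk
      have h0 := ih (by omega)
      have h1 := hcontr (x (k + 1 + 1)) (hcon _ hk)
      rw [hx (k + 1) (by omega)] at h1
      have h2 : η < V (x (k + 1) - algebraMap K L γ) := by
        refine h0.trans_lt ?_
        have h3 : 0 < V (x (k + 1) - algebraMap K L γ) := by
          by_contra hc
          have : V (x (k + 1) - algebraMap K L γ) = 0 := le_antisymm (not_lt.mp hc) zero_le
          rw [this, mul_zero] at h0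
          exact absurd hη0 (not_lt.mpr h0)
        calc WW e ^ (k + 1) * V (x (k + 1) - algebraMap K L γ)
            < 1 * V (x (k + 1) - algebraMap K L γ) :=
              mul_lt_mul_of_pos_right (pow_lt_one₀ zero_le hW1 (by omega)) h3
          _ = _ := one_mul _
      have h4 : x (k + 1) - ph F (algebraMap K L γ) = (x (k + 1) - algebraMap K L γ) -
          algebraMap K L (F.eval γ - γ) := by
        rw [← ph_algebraMap, ph_eq_eval, map_sub]; ring
      rw [h4, Valuation.map_sub_eq_of_lt_left V h2] at h1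
      calc η ≤ WW e ^ (k + 1) * V (x (k + 1) - algebraMap K L γ) := h0
        _ ≤ WW e ^ (k + 1) * (WW e * V (x (k + 1 + 1) - algebraMap K L γ)) :=
            mul_le_mul_right h1 _
        _ = _ := by rw [pow_succ (WW e) (k + 1), mul_assoc]
  obtain ⟨m, rfl⟩ : ∃ m, k0 = m + 1 := ⟨k0 - 1, by omega⟩
  have h5 := key m le_rfl
  have h6 := hcon (m + 1) le_rfl
  have h7 : η < WW e ^ (m + 1) := by
    calc η ≤ WW e ^ (m + 1) * V (x (m + 1) - algebraMap K L γ) := h5
      _ ≤ WW e ^ (m + 1) * WW e := mul_le_mul_right h6 _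
      _ < WW e ^ (m + 1) * 1 := mul_lt_mul_of_pos_left hW1 (pow_pos (WW_pos e) _)
      _ = _ := mul_one _
  exact absurd hη' (not_le.mpr h7)

/-- two terms of equal size in a polynomial equation -/
theorem Over.denom (h : Over v V e) {Q : K[X]} (hQ : Q ≠ 0) {u : L} (hu : u ≠ 0)
    (hQu : aeval u Q = 0) : ∃ m, 1 ≤ m ∧ m ≤ Q.natDegree ∧ ∃ a : K, a ≠ 0 ∧
      V u ^ m = V (algebraMap K L a) := by
  classical
  set t : ℕ → L := fun k => algebraMap K L (Q.coeff k) * u ^ k with ht
  have hsum : ∑ k ∈ Finset.range (Q.natDegree + 1), t k = 0 := by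
    rw [← hQu, aeval_eq_sum_range]
    apply Finset.sum_congr rfl
    intro k _
    rw [Algebra.smul_def]
  have hVu : V u ≠ 0 := (Valuation.ne_zero_iff V).mpr hu
  have hV0 : ∀ k, V (t k) = 0 ↔ Q.coeff k = 0 := by
    intro k
    rw [ht]
    simp only
    rw [map_mul, map_pow, mul_eq_zero]
    constructor
    · rintro (h1 | h1)
      · have := (Valuation.zero_iff V).mp h1
        exact (map_eq_zero _).mp this
      · exact absurd h1 (pow_ne_zero k hVu)
    · intro h1
      left
      rw [h1, map_zero, map_zero]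
  obtain ⟨k1, hk1, hmax⟩ := Finset.exists_max_image (Finset.range (Q.natDegree + 1))
    (fun k => V (t k)) ⟨0, by simp⟩
  have hpos : V (t k1) ≠ 0 := by
    intro h0
    have h1 := hmax Q.natDegree (by simp)
    rw [h0] at h1
    have h2 : V (t Q.natDegree) = 0 := le_antisymm h1 zero_le
    rw [hV0, coeff_natDegree, leadingCoeff_eq_zero] at h2
    exact hQ h2
  obtain ⟨k2, hk2, hne, hEq⟩ : ∃ k2 ∈ Finset.range (Q.natDegree + 1), k2 ≠ k1 ∧
      V (t k2) = V (t k1) := by
    by_contra hcon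
    push Not at hcon
    have h1 : V (∑ k ∈ (Finset.range (Q.natDegree + 1)).erase k1, t k) < V (t k1) := by
      apply Valuation.map_sum_lt V hpos
      intro k hk
      rw [Finset.mem_erase] at hk
      exact lt_of_le_of_ne (hmax k hk.2) (hcon k hk.2 hk.1)
    have h2 := Valuation.map_add_eq_of_lt_left V h1
    rw [Finset.add_sum_erase _ _ hk1, hsum, map_zero] at h2
    exact hpos h2.symm
  -- symmetric in `k1`, `k2`
  have main : ∀ a b : ℕ, a < b → b ≤ Q.natDegree → V (t a) = V (t b) → V (t a) ≠ 0 →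
      ∃ m, 1 ≤ m ∧ m ≤ Q.natDegree ∧ ∃ a : K, a ≠ 0 ∧ V u ^ m = V (algebraMap K L a) := by
    intro a b hab hb hE hne0
    have hb0 : V (t b) ≠ 0 := by rw [← hE]; exact hne0
    have hqa : Q.coeff a ≠ 0 := fun h0 => hne0 ((hV0 a).mpr h0)
    have hqb : Q.coeff b ≠ 0 := fun h0 => hb0 ((hV0 b).mpr h0)
    refine ⟨b - a, by omega, by omega, Q.coeff a / Q.coeff b, div_ne_zero hqa hqb, ?_⟩
    rw [ht] at hE
    simp only at hE
    rw [map_mul, map_mul, map_pow, map_pow] at hE
    have hqb' : V (algebraMap K L (Q.coeff b)) ≠ 0 := by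
      rw [Valuation.ne_zero_iff]
      exact (_root_.map_ne_zero _).mpr hqb
    rw [map_div₀, map_div₀, eq_div_iff hqb']
    have h3 : V u ^ a ≠ 0 := pow_ne_zero a hVu
    apply mul_right_cancel₀ h3
    rw [hE]
    obtain ⟨s, rfl⟩ : ∃ s, b = a + s := ⟨b - a, by omega⟩
    rw [add_tsub_cancel_left, pow_add, mul_comm (V u ^ s), mul_assoc, mul_comm (V u ^ s)]
  rw [Finset.mem_range] at hk1 hk2
  rcases lt_or_gt_of_ne hne with h1 | h1
  · exact main k2 k1 h1 (by omega) hEq (by rw [hEq]; exact hpos)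
  · exact main k1 k2 h1 (by omega) hEq.symm hpos

end step

end Pool.Agent.TameArb
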