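import Mathlib

/-!
# Polynomials with integral coefficients and valuations
-/

set_option autoImplicit false

open Polynomial
open scoped WithZero

namespace Pool.Agent.TameArb

/-! ### iteration of polynomial maps -/

section iter

variable {K : Type*} [Field K] {A B : Type*} [CommRing A] [Algebra K A] [CommRing B] [Algebra K B]

/-- the map `x ↦ φ(x)` on a `K`-algebra -/
noncomputable def ph (φ : K[X]) (x : A) : A := aeval x φ

theorem ph_hom (φ : K[X]) (f : A →ₐ[K] B) (x : A) : f (ph φ x) = ph φ (f x) :=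
  (aeval_algHom_apply f x φ).symm

theorem iter_hom (φ : K[X]) (f : A →ₐ[K] B) (n : ℕ) (x : A) :
    f ((ph φ)^[n] x) = (ph φ)^[n] (f x) := by
  induction n generalizing x with
  | zero => rfl
  | succ n ih => rw [Function.iterate_succ_apply, Function.iterate_succ_apply, ih, ph_hom]

theorem ph_algebraMap (φ : K[X]) (x : K) : algebraMap K A (ph φ x) = ph φ (algebraMap K A x) :=
  ph_hom φ (Algebra.ofId K A) x

theorem iter_algebraMap (φ : K[X]) (n : ℕ) (x : K) :
    algebraMap K A ((ph φ)^[n] x) = (ph φ)^[n] (algebraMap K A x) :=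
  iter_hom φ (Algebra.ofId K A) n x

theorem ph_eq_eval (φ : K[X]) (x : K) : ph φ x = φ.eval x := by
  rw [ph, coe_aeval_eq_eval]

theorem ph_eq_eval_map (φ : K[X]) (x : A) : ph φ x = (φ.map (algebraMap K A)).eval x := by
  rw [ph, eval_map_algebraMap]

end iter

/-! ### integral polynomials -/

section val

variable {L : Type*} [Field L] {Γ₀ : Type*} [LinearOrderedCommGroupWithZero Γ₀]
  (V : Valuation L Γ₀)

/-- all coefficients are integral -/
def IntP (P : L[X]) : Prop := ∀ i, V (P.coeff i) ≤ 1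

theorem mul_lt_one_aux {a b : Γ₀} (ha : a ≤ 1) (hb : b < 1) : a * b < 1 :=
  calc a * b ≤ 1 * b := mul_le_mul_left ha b
    _ = b := one_mul b
    _ < 1 := hb

variable {V}

theorem natCast_le (n : ℕ) : V (n : L) ≤ 1 := by
  induction n with
  | zero => simp
  | succ n ih => rw [Nat.cast_succ]; exact Valuation.map_add_le _ ih (by simp)

theorem eval_le {P : L[X]} (hP : IntP V P) {x : L} (hx : V x ≤ 1) : V (P.eval x) ≤ 1 := by
  rw [eval_eq_sum_range]
  apply Valuation.map_sum_le
  intro i _
  rw [map_mul, map_pow]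
  exact mul_le_one' (hP i) (pow_le_one' hx i)

theorem IntP.hasse {P : L[X]} (hP : IntP V P) (k : ℕ) : IntP V (hasseDeriv k P) := by
  intro i
  rw [hasseDeriv_coeff, map_mul]
  exact mul_le_one' (natCast_le _) (hP _)

theorem IntP.derivative {P : L[X]} (hP : IntP V P) : IntP V (derivative P) := by
  rw [← hasseDeriv_one]
  exact hP.hasse 1

theorem IntP.taylor {P : L[X]} (hP : IntP V P) {y : L} (hy : V y ≤ 1) :
    IntP V (taylor y P) := by
  intro k
  rw [taylor_coeff]
  exact eval_le (hP.hasse k) hy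

theorem exists_lift {P : L[X]} (hP : IntP V P) :
    ∃ Q : (V.integer)[X], Q.map V.integer.subtype = P := by
  have h : P ∈ lifts V.integer.subtype := by
    rw [lifts_iff_coeff_lifts]
    intro n
    exact ⟨⟨P.coeff n, hP n⟩, rfl⟩
  exact h

theorem binom {P : L[X]} (hP : IntP V P) {y u : L} (hy : V y ≤ 1) (hu : V u ≤ 1) :
    ∃ q : L, V q ≤ 1 ∧ P.eval (y + u) = P.eval y + (derivative P).eval y * u + q * u ^ 2 := by
  obtain ⟨Q, rfl⟩ := exists_lift hP
  obtain ⟨k, hk⟩ := Q.binomExpansion (⟨y, hy⟩ : V.integer) ⟨u, hu⟩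
  refine ⟨k, k.2, ?_⟩
  have h1 := congrArg V.integer.subtype hk
  rw [map_add, map_add, map_mul, map_mul, map_pow, ← eval_map_apply, ← eval_map_apply,
    ← eval_map_apply, ← derivative_map] at h1
  simpa using h1

/-- uniqueness of simple roots modulo `V` -/
theorem eq_of_simple {P : L[X]} (hP : IntP V P) {y z : L} (hy : V y ≤ 1) (hyz : V (z - y) < 1)
    (he : P.eval z = P.eval y) (hd : V ((derivative P).eval y) = 1) : z = y := by
  obtain ⟨q, hq, h⟩ := binom hP hy hyz.le
  rw [add_sub_cancel, he] at h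
  have h2 : (z - y) * ((derivative P).eval y + q * (z - y)) = 0 := by linear_combination -h
  rcases mul_eq_zero.mp h2 with h3 | h3
  · exact sub_eq_zero.mp h3
  · exfalso
    have h4 : V (q * (z - y)) < V ((derivative P).eval y) := by
      rw [hd, map_mul]
      exact mul_lt_one_aux hq hyz
    have h5 := Valuation.map_add_eq_of_lt_left V h4
    rw [h3, map_zero, hd] at h5
    exact zero_ne_one h5

theorem cong_eval {P : L[X]} (hP : IntP V P) {y z : L} (hy : V y ≤ 1) (hz : V z ≤ 1) :
    V (P.eval z - P.eval y) ≤ V (z - y) := by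
  have hzy : V (z - y) ≤ 1 := Valuation.map_sub_le V hz hy
  obtain ⟨q, hq, h⟩ := binom hP hy hzy
  rw [add_sub_cancel] at h
  have h2 : P.eval z - P.eval y = (z - y) * ((derivative P).eval y + q * (z - y)) := by
    linear_combination h
  rw [h2, map_mul]
  apply mul_le_of_le_one_right' 
  apply Valuation.map_add_le _ (eval_le hP.derivative hy)
  rw [map_mul]
  exact mul_le_one' hq hzy

/-- outside the unit disc -/
theorem val_eval_gt {P : L[X]} (hP : IntP V P) (hl : V P.leadingCoeff = 1) {x : L} (hx : 1 < V x) :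
    V (P.eval x) = V x ^ P.natDegree := by
  rw [eval_eq_sum_range, Finset.sum_range_succ]
  have h1 : V (P.coeff P.natDegree * x ^ P.natDegree) = V x ^ P.natDegree := by
    rw [map_mul, map_pow, coeff_natDegree, hl, one_mul]
  rw [← h1]
  apply Valuation.map_add_eq_of_lt_right
  rw [h1]
  rcases Nat.eq_zero_or_pos P.natDegree with h0 | h0
  · rw [h0]; simp
  obtain ⟨m, hm⟩ : ∃ m, P.natDegree = m + 1 := ⟨P.natDegree - 1, by omega⟩
  rw [hm]
  have hx0 : 0 < V x := zero_lt_one.trans hx
  have h2 : V (∑ i ∈ Finset.range (m + 1), P.coeff i * x ^ i) ≤ V x ^ m := by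
    apply Valuation.map_sum_le
    intro i hi
    rw [Finset.mem_range] at hi
    rw [map_mul, map_pow]
    calc V (P.coeff i) * V x ^ i ≤ 1 * V x ^ i := mul_le_mul_left (hP i) _
      _ = V x ^ i := one_mul _
      _ ≤ V x ^ m := pow_le_pow_right₀ hx.le (by omega)
  refine h2.trans_lt ?_
  rw [pow_succ]
  exact lt_mul_of_one_lt_right (pow_pos hx0 m) hx

/-! ### number of roots modulo `V` -/

/-- the maximal ideal of the valuation ring -/
def mI (V : Valuation L Γ₀) : Ideal V.integer where
  carrier := {x | V (x : L) < 1}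
  add_mem' {a b} ha hb := Valuation.map_add_lt _ ha hb
  zero_mem' := by simp
  smul_mem' c x hx := by
    show V ((c : L) * x) < 1
    rw [map_mul]
    exact mul_lt_one_aux c.2 hx

theorem mem_mI {x : V.integer} : x ∈ mI V ↔ V (x : L) < 1 := Iff.rfl

instance mI_prime (V : Valuation L Γ₀) : (mI V).IsPrime := by
  refine ⟨?_, ?_⟩
  · rw [Ideal.ne_top_iff_one, mem_mI]
    simp
  · intro x y hxy
    rw [mem_mI] at *
    rw [mem_mI]
    by_contra hcon
    push Not at hcon
    obtain ⟨h1, h2⟩ := hcon
    have h3 : V ((x * y : V.integer) : L) = 1 := by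
      push_cast
      rw [map_mul]
      rw [le_antisymm x.2 h1, le_antisymm y.2 h2, one_mul]
    rw [h3] at hxy
    exact lt_irrefl _ hxy

/-- the number of pairwise incongruent roots modulo `V` is at most the degree -/
theorem card_roots_mod {P : L[X]} (hP : IntP V P) (hl : V P.leadingCoeff = 1) (s : Finset L)
    (h1 : ∀ x ∈ s, V x ≤ 1) (h2 : ∀ x ∈ s, V (P.eval x) < 1)
    (h3 : ∀ x ∈ s, ∀ y ∈ s, x ≠ y → ¬ V (x - y) < 1) : s.card ≤ P.natDegree := by
  classical
  obtain ⟨Q, hQ⟩ := exists_lift hP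
  set ρ := Ideal.Quotient.mk (mI V) with hρ
  have hco : ∀ n, ((Q.coeff n : V.integer) : L) = P.coeff n := by
    intro n
    rw [← hQ, coeff_map]; rfl
  have hQd : Q.natDegree = P.natDegree := by
    rw [← hQ]
    exact (natDegree_map_eq_of_injective Subtype.val_injective Q).symm
  have hlead : ρ (Q.coeff P.natDegree) ≠ 0 := by
    rw [hρ, Ne, Ideal.Quotient.eq_zero_iff_mem, mem_mI, hco, coeff_natDegree, hl]
    exact lt_irrefl _
  have hne : Q.map ρ ≠ 0 := by
    intro h
    apply hlead
    rw [← coeff_map, h, coeff_zero]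
  let f : {x // x ∈ s} → V.integer ⧸ mI V := fun x => ρ ⟨x.1, h1 x.1 x.2⟩
  have hf : Function.Injective f := by
    intro x y hxy
    by_contra hne
    have hne' : x.1 ≠ y.1 := fun h => hne (Subtype.ext h)
    apply h3 x.1 x.2 y.1 y.2 hne'
    have h4 := (Ideal.Quotient.mk_eq_mk_iff_sub_mem _ _).mp hxy
    exact h4
  have hsub : (Finset.univ.image f) ⊆ (Q.map ρ).roots.toFinset := by
    intro a ha
    rw [Finset.mem_image] at ha
    obtain ⟨x, -, rfl⟩ := ha
    rw [Multiset.mem_toFinset, mem_roots hne, IsRoot.def, eval_map_apply,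
      Ideal.Quotient.eq_zero_iff_mem, mem_mI]
    have h5 : ((Q.eval (⟨x.1, h1 x.1 x.2⟩ : V.integer) : V.integer) : L) = P.eval x.1 := by
      rw [← hQ]
      exact (eval_map_apply (f := V.integer.subtype) (p := Q) _).symm
    rw [h5]
    exact h2 x.1 x.2
  calc s.card = (Finset.univ.image f).card := by
        rw [Finset.card_image_of_injective _ hf, Finset.card_univ, Fintype.card_coe]
    _ ≤ (Q.map ρ).roots.toFinset.card := Finset.card_le_card hsub
    _ ≤ Multiset.card (Q.map ρ).roots := Multiset.toFinset_card_le _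
    _ ≤ (Q.map ρ).natDegree := card_roots' _
    _ ≤ Q.natDegree := natDegree_map_le
    _ = P.natDegree := hQd

end val

end Pool.Agent.TameArb
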