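import Pool.Agent.TameArb.Basic

/-!
# Iterates, fibres and inertia
-/

set_option autoImplicit false

open Polynomial
open scoped WithZero

namespace Pool.Agent.TameArb

/-! ### iterated polynomials -/

section itp

variable {K : Type*} [Field K] {A : Type*} [CommRing A] [Algebra K A]

/-- the `n`-th iterate as a polynomial -/
noncomputable def itp (φ : K[X]) (n : ℕ) : K[X] := φ.comp^[n] X

theorem itp_succ (φ : K[X]) (n : ℕ) : itp φ (n + 1) = φ.comp (itp φ n) := by
  rw [itp, Function.iterate_succ_apply']; rfl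

theorem itp_aeval (φ : K[X]) (n : ℕ) (x : A) : aeval x (itp φ n) = (ph φ)^[n] x := by
  induction n with
  | zero => simp [itp]
  | succ n ih =>
    rw [itp_succ, aeval_comp, ih, Function.iterate_succ_apply']; rfl

theorem itp_natDegree (φ : K[X]) (n : ℕ) : (itp φ n).natDegree = φ.natDegree ^ n := by
  rw [itp, natDegree_iterate_comp, natDegree_X, mul_one]

theorem itp_eval (φ : K[X]) (n : ℕ) (x : K) : (itp φ n).eval x = (ph φ)^[n] x := by
  rw [← itp_aeval, coe_aeval_eq_eval]

end itp

section fibre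

variable {K : Type*} [Field K] {L : Type*} [Field L] [Algebra K L]

/-- the points of `L` mapped to `y` by the `m`-th iterate form a finite set -/
theorem exists_fibre (φ : K[X]) (hd : 2 ≤ φ.natDegree) (m : ℕ) (y : L) :
    ∃ S : Finset L, S.card ≤ φ.natDegree ^ m ∧ ∀ x : L, x ∈ S ↔ (ph φ)^[m] x = y := by
  classical
  set P : L[X] := (itp φ m).map (algebraMap K L) with hP
  have hdeg : P.natDegree = φ.natDegree ^ m := by
    rw [hP, natDegree_map, itp_natDegree]
  have hpos : 0 < P.natDegree := by rw [hdeg]; positivity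
  have hne : P - C y ≠ 0 := by
    intro h
    have h1 : P = C y := sub_eq_zero.mp h
    rw [h1, natDegree_C] at hpos
    exact lt_irrefl _ hpos
  refine ⟨(P - C y).roots.toFinset, ?_, ?_⟩
  · calc _ ≤ Multiset.card (P - C y).roots := Multiset.toFinset_card_le _
      _ ≤ (P - C y).natDegree := card_roots' _
      _ = φ.natDegree ^ m := by rw [natDegree_sub_C, hdeg]
  · intro x
    rw [Multiset.mem_toFinset, mem_roots hne, IsRoot.def, eval_sub, eval_C, sub_eq_zero,
      hP, eval_map_algebraMap, itp_aeval]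

theorem pow_fix_of_card (g : L ≃ₐ[K] L) (S : Finset L) (hS : ∀ x ∈ S, g x ∈ S) (N : ℕ)
    (hN : S.card ≤ N) : ∀ x ∈ S, (g ^ (Nat.factorial N)) x = x := by
  classical
  intro x hx
  have hpow : ∀ j : ℕ, (g ^ j) x ∈ S := by
    intro j
    induction j with
    | zero => exact hx
    | succ j ih => rw [pow_succ', AlgEquiv.mul_apply]; exact hS _ ih
  obtain ⟨a, ha, b, hb, hab, hEq⟩ := Finset.exists_ne_map_eq_of_card_lt_of_maps_to
    (s := Finset.range (N + 1)) (t := S) (by rw [Finset.card_range]; omega)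
    (f := fun j => (g ^ j) x) (fun j _ => hpow j)
  have key : ∀ a b : ℕ, a < b → b < N + 1 → (g ^ a) x = (g ^ b) x →
      (g ^ (Nat.factorial N)) x = x := by
    intro a b hab hb hEq
    have h1 : (g ^ (b - a)) x = x := by
      have h2 : (g ^ a) ((g ^ (b - a)) x) = (g ^ a) x := by
        rw [← AlgEquiv.mul_apply, ← pow_add, show a + (b - a) = b by omega, hEq]
      exact (g ^ a).injective h2
    obtain ⟨c, hc⟩ := Nat.dvd_factorial (show 0 < b - a by omega) (show b - a ≤ N by omega)
    rw [hc]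
    have : ∀ c : ℕ, (g ^ ((b - a) * c)) x = x := by
      intro c
      induction c with
      | zero => rfl
      | succ c ih => rw [Nat.mul_succ, pow_add, AlgEquiv.mul_apply, h1, ih]
    exact this c
  rw [Finset.mem_range] at ha hb
  rcases lt_or_gt_of_ne hab with h | h
  · exact key a b h hb hEq
  · exact key b a h ha hEq.symm

theorem pow_fix_mul {g : L ≃ₐ[K] L} {x : L} {a : ℕ} (h : (g ^ a) x = x) (c : ℕ) :
    (g ^ (a * c)) x = x := by
  induction c with
  | zero => rfl
  | succ c ih => rw [Nat.mul_succ, pow_add, AlgEquiv.mul_apply, h, ih]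

theorem pow_fix_dvd {g : L ≃ₐ[K] L} {x : L} {a b : ℕ} (h : (g ^ a) x = x) (hab : a ∣ b) :
    (g ^ b) x = x := by
  obtain ⟨c, rfl⟩ := hab
  exact pow_fix_mul h c

/-- every automorphism has a power trivial on a fibre over a fixed point -/
theorem pow_fix_fibre (φ : K[X]) (hd : 2 ≤ φ.natDegree) (g : L ≃ₐ[K] L) {m : ℕ} {x : L}
    (h : g ((ph φ)^[m] x) = (ph φ)^[m] x) :
    (g ^ (Nat.factorial (φ.natDegree ^ m))) x = x := by
  obtain ⟨S, hS, hS2⟩ := exists_fibre (L := L) φ hd m ((ph φ)^[m] x)
  refine pow_fix_of_card g S ?_ _ hS x ((hS2 x).mpr rfl)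
  intro y hy
  rw [hS2] at hy ⊢
  have := iter_hom φ (g : L →ₐ[K] L) m y
  rw [hy] at this
  exact this.symm.trans h

end fibre

/-! ### valuations on `K` and `L` -/

section val

variable {K : Type*} [Field K] {L : Type*} [Field L] [Algebra K L]
  {v : Valuation K ℤᵐ⁰} {V : Valuation L ℤᵐ⁰} {e : ℕ}

/-- good reduction of a polynomial -/
structure Good (v : Valuation K ℤᵐ⁰) (φ : K[X]) : Prop where
  int : IntP v φ
  lead : v φ.leadingCoeff = 1

/-- `V` extends `v` with ramification index `e` -/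
structure Over (v : Valuation K ℤᵐ⁰) (V : Valuation L ℤᵐ⁰) (e : ℕ) : Prop where
  ne : e ≠ 0
  val : ∀ x : K, v x ^ e = V (algebraMap K L x)

theorem Over.le_one (h : Over v V e) {x : K} : V (algebraMap K L x) ≤ 1 ↔ v x ≤ 1 := by
  rw [← h.val]
  exact pow_le_one_iff h.ne

theorem Over.lt_one (h : Over v V e) {x : K} : V (algebraMap K L x) < 1 ↔ v x < 1 := by
  constructor
  · intro h1
    by_contra h2
    push Not at h2
    have := one_le_pow₀ h2 (n := e)
    rw [h.val] at this
    exact absurd h1 (not_lt.mpr this)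
  · intro h1
    rw [← h.val]
    exact pow_lt_one₀ zero_le h1 h.ne

theorem Over.eq_one (h : Over v V e) {x : K} : V (algebraMap K L x) = 1 ↔ v x = 1 := by
  constructor
  · intro h1
    apply le_antisymm (h.le_one.mp h1.le)
    by_contra h2
    push Not at h2
    exact absurd h1 (h.lt_one.mpr h2).ne
  · intro h1
    rw [← h.val, h1, one_pow]

theorem Over.intP (h : Over v V e) {φ : K[X]} (hφ : IntP v φ) :
    IntP V (φ.map (algebraMap K L)) := by
  intro i
  rw [coeff_map, h.le_one]
  exact hφ i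

theorem Over.lead (h : Over v V e) {φ : K[X]} (hφ : Good v φ) :
    V (φ.map (algebraMap K L)).leadingCoeff = 1 := by
  rw [leadingCoeff_map, h.eq_one]
  exact hφ.lead

theorem Over.good_le (h : Over v V e) {φ : K[X]} (hφ : Good v φ) {x : L} (hx : V x ≤ 1) :
    V (ph φ x) ≤ 1 := by
  rw [ph_eq_eval_map]
  exact eval_le (h.intP hφ.int) hx

theorem Over.iter_le (h : Over v V e) {φ : K[X]} (hφ : Good v φ) {x : L} (hx : V x ≤ 1) (n : ℕ) :
    V ((ph φ)^[n] x) ≤ 1 := by
  induction n with
  | zero => exact hx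
  | succ n ih => rw [Function.iterate_succ_apply']; exact h.good_le hφ ih

theorem Over.gt (h : Over v V e) {φ : K[X]} (hφ : Good v φ) {x : L} (hx : 1 < V x) :
    V (ph φ x) = V x ^ φ.natDegree := by
  rw [ph_eq_eval_map, val_eval_gt (h.intP hφ.int) (h.lead hφ) hx, natDegree_map]

/-- preimages of integral points are integral -/
theorem Over.le_of_iter (h : Over v V e) {φ : K[X]} (hφ : Good v φ) (hd : 2 ≤ φ.natDegree) {x : L}
    {n : ℕ} (hx : V ((ph φ)^[n] x) ≤ 1) : V x ≤ 1 := by
  induction n with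
  | zero => exact hx
  | succ n ih =>
    apply ih
    rw [Function.iterate_succ_apply'] at hx
    by_contra hcon
    push Not at hcon
    rw [h.gt hφ hcon] at hx
    exact absurd hx (not_le.mpr (one_lt_pow₀ hcon (by omega)))

theorem Over.cong (h : Over v V e) {φ : K[X]} (hφ : Good v φ) {x y : L} (hx : V x ≤ 1)
    (hy : V y ≤ 1) (hxy : V (x - y) < 1) : V (ph φ x - ph φ y) < 1 := by
  rw [ph_eq_eval_map, ph_eq_eval_map]
  exact (cong_eval (h.intP hφ.int) hy hx).trans_lt hxy

theorem Over.cong_iter (h : Over v V e) {φ : K[X]} (hφ : Good v φ) {x y : L} (hx : V x ≤ 1)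
    (hy : V y ≤ 1) (hxy : V (x - y) < 1) (n : ℕ) :
    V ((ph φ)^[n] x - (ph φ)^[n] y) < 1 := by
  induction n with
  | zero => exact hxy
  | succ n ih =>
    rw [Function.iterate_succ_apply', Function.iterate_succ_apply']
    exact h.cong hφ (h.iter_le hφ hx n) (h.iter_le hφ hy n) ih

/-- the derivative of `φ` -/
noncomputable def dph (φ : K[X]) (x : L) : L := ph (derivative φ) x

/-- `σ` acts trivially on residues -/
def Inert (V : Valuation L ℤᵐ⁰) (σ : L ≃ₐ[K] L) : Prop := ∀ x, V x ≤ 1 → V (σ x - x) < 1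

theorem Inert.mul {σ τ : L ≃ₐ[K] L} (h1 : Inert V σ) (h2 : Inert V τ) : Inert V (σ * τ) := by
  intro x hx
  have h3 := h2 x hx
  have h4 : V (τ x) ≤ 1 := by
    have : τ x = (τ x - x) + x := by ring
    rw [this]; exact Valuation.map_add_le _ h3.le hx
  have h5 := h1 _ h4
  rw [AlgEquiv.mul_apply]
  have : σ (τ x) - x = (σ (τ x) - τ x) + (τ x - x) := by ring
  rw [this]; exact Valuation.map_add_lt _ h5 h3

theorem Inert.pow {σ : L ≃ₐ[K] L} (h1 : Inert V σ) (n : ℕ) : Inert V (σ ^ n) := by
  induction n with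
  | zero => intro x _; simp
  | succ n ih => rw [pow_succ]; exact ih.mul h1

/-- an inertia element fixing `φ(x)` fixes `x` unless `x` is critical -/
theorem Over.fix_of_simple (h : Over v V e) {φ : K[X]} (hφ : Good v φ) {σ : L ≃ₐ[K] L}
    (hσ : Inert V σ) {x : L} (hx : V x ≤ 1) (h1 : σ (ph φ x) = ph φ x) (h2 : V (dph φ x) = 1) :
    σ x = x := by
  apply eq_of_simple (h.intP hφ.int) hx (hσ x hx)
  · rw [← ph_eq_eval_map, ← ph_eq_eval_map]
    have := ph_hom φ (σ : L →ₐ[K] L) x
    exact this.symm.trans h1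
  · rw [derivative_map, ← ph_eq_eval_map]
    exact h2

theorem Over.dph_le (h : Over v V e) {φ : K[X]} (hφ : Good v φ) {x : L} (hx : V x ≤ 1) :
    V (dph φ x) ≤ 1 := by
  rw [dph, ph_eq_eval_map, ← derivative_map]
  exact eval_le (h.intP hφ.int).derivative hx

/-- the critical passings on the way from `x` down to `φ^n(x)` -/
noncomputable def crits (V : Valuation L ℤᵐ⁰) (φ : K[X]) (n : ℕ) (x : L) : Finset ℕ :=
  (Finset.range n).filter (fun j => V (dph φ ((ph φ)^[j] x)) < 1)

theorem crits_succ (φ : K[X]) (n : ℕ) (x : L) :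
    (crits V φ (n + 1) x).card = (crits V φ n (ph φ x)).card + (if V (dph φ x) < 1 then 1 else 0) := by
  classical
  unfold crits
  rw [Finset.card_filter, Finset.card_filter, Finset.sum_range_succ']
  rfl

theorem Over.fix_pow (h : Over v V e) {φ : K[X]} (hφ : Good v φ) (hd : 2 ≤ φ.natDegree)
    {σ : L ≃ₐ[K] L} (hσ : Inert V σ) {n : ℕ} {x : L} (hx : V x ≤ 1)
    (h1 : σ ((ph φ)^[n] x) = (ph φ)^[n] x) :
    (σ ^ (Nat.factorial φ.natDegree ^ (crits V φ n x).card)) x = x := by
  classical
  induction n generalizing x with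
  | zero => simpa [crits] using h1
  | succ n ih =>
    rw [Function.iterate_succ_apply] at h1
    have h2 := ih (h.good_le hφ hx) h1
    rw [crits_succ]
    split_ifs with h3
    · rw [pow_succ, pow_mul]
      have h4 := pow_fix_fibre φ hd
        (σ ^ (Nat.factorial φ.natDegree ^ (crits V φ n (ph φ x)).card)) (m := 1) (x := x) h2
      rwa [pow_one] at h4
    · rw [add_zero]
      apply h.fix_of_simple hφ (hσ.pow _) hx h2
      exact le_antisymm (h.dph_le hφ hx) (not_lt.mp h3)

/-- at most `d - 1` critical passings among incongruent points -/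
theorem Over.crits_card (h : Over v V e) {φ : K[X]} (hφ : Good v φ)
    (hvd : v (φ.natDegree : K) = 1) {n : ℕ} {x : L} (hx : V x ≤ 1)
    (hinc : ∀ i ∈ crits V φ n x, ∀ j ∈ crits V φ n x, i < j →
      ¬ V ((ph φ)^[i] x - (ph φ)^[j] x) < 1) :
    (crits V φ n x).card ≤ φ.natDegree - 1 := by
  classical
  have hinc' : ∀ i ∈ crits V φ n x, ∀ j ∈ crits V φ n x, i ≠ j →
      ¬ V ((ph φ)^[i] x - (ph φ)^[j] x) < 1 := by
    intro i hi j hj hij
    rcases lt_or_gt_of_ne hij with h1 | h1
    · exact hinc i hi j hj h1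
    · rw [Valuation.map_sub_swap]
      exact hinc j hj i hi h1
  set P : L[X] := (derivative φ).map (algebraMap K L) with hPdef
  have hd0 : (φ.natDegree : K) ≠ 0 := by
    intro h0
    rw [h0, map_zero] at hvd
    exact zero_ne_one hvd
  have hdn : φ.natDegree ≠ 0 := by
    intro h0; rw [h0] at hd0; simp at hd0
  have hcoef : (derivative φ).coeff (φ.natDegree - 1) = φ.leadingCoeff * φ.natDegree := by
    rw [coeff_derivative, show φ.natDegree - 1 + 1 = φ.natDegree by omega, coeff_natDegree]
    congr 1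
    have : ((φ.natDegree - 1 : ℕ) : K) + 1 = ((φ.natDegree - 1 + 1 : ℕ) : K) := by push_cast; rfl
    rw [this, show φ.natDegree - 1 + 1 = φ.natDegree by omega]
  have hφ0 : φ.leadingCoeff ≠ 0 := by
    intro h0
    have := hφ.lead
    rw [h0, map_zero] at this
    exact zero_ne_one this
  have hdeg : (derivative φ).natDegree = φ.natDegree - 1 := by
    apply natDegree_eq_of_le_of_coeff_ne_zero (natDegree_derivative_le φ)
    rw [hcoef]
    exact mul_ne_zero hφ0 hd0
  have hP : IntP V P := by
    rw [hPdef, ← derivative_map]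
    exact (h.intP hφ.int).derivative
  have hl : V P.leadingCoeff = 1 := by
    rw [hPdef, leadingCoeff_map, h.eq_one, leadingCoeff, hdeg, hcoef, map_mul, hφ.lead, hvd, one_mul]
  have hinj : Set.InjOn (fun j => (ph φ)^[j] x) (crits V φ n x : Set ℕ) := by
    intro i hi j hj hij
    by_contra hne
    apply hinc' i hi j hj hne
    have : (ph φ)^[i] x - (ph φ)^[j] x = 0 := sub_eq_zero.mpr hij
    rw [this, map_zero]
    exact zero_lt_one
  have h1 := card_roots_mod hP hl ((crits V φ n x).image (fun j => (ph φ)^[j] x)) ?_ ?_ ?_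
  · rw [Finset.card_image_of_injOn hinj] at h1
    rwa [hPdef, natDegree_map, hdeg] at h1
  · intro y hy
    obtain ⟨j, -, rfl⟩ := Finset.mem_image.mp hy
    exact h.iter_le hφ hx j
  · intro y hy
    obtain ⟨j, hj, rfl⟩ := Finset.mem_image.mp hy
    have := (Finset.mem_filter.mp hj).2
    rw [hPdef, ← ph_eq_eval_map]
    exact this
  · intro y hy z hz hyz
    obtain ⟨i, hi, rfl⟩ := Finset.mem_image.mp hy
    obtain ⟨j, hj, rfl⟩ := Finset.mem_image.mp hz
    apply hinc' i hi j hj
    rintro rfl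
    exact hyz rfl

end val

end Pool.Agent.TameArb
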