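import Pool.Agent.TameArb.Iter

/-!
# Points that are periodic modulo a prime, noncritical case
-/

set_option autoImplicit false

open Polynomial
open scoped WithZero

namespace Pool.Agent.TameArb

section

variable {K : Type*} [Field K] {L : Type*} [Field L] [Algebra K L]
  {v : Valuation K ℤᵐ⁰} {V : Valuation L ℤᵐ⁰} {e : ℕ}

/-- `γ` is periodic modulo `v` -/
def PerMod (v : Valuation K ℤᵐ⁰) (φ : K[X]) (γ : K) : Prop :=
  ∃ n, 0 < n ∧ v ((ph φ)^[n] γ - γ) < 1

/-- `y` is congruent to a point of the forward orbit of `γ` -/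
def InC (V : Valuation L ℤᵐ⁰) (φ : K[X]) (γ : K) (y : L) : Prop :=
  ∃ r : ℕ, V (y - (ph φ)^[r] (algebraMap K L γ)) < 1

theorem Over.inC_iter (h : Over v V e) {φ : K[X]} (hφ : Good v φ) {γ : K} (hγ : v γ ≤ 1) {y : L}
    (hy : V y ≤ 1) (hC : InC V φ γ y) (n : ℕ) : InC V φ γ ((ph φ)^[n] y) := by
  obtain ⟨r, hr⟩ := hC
  refine ⟨n + r, ?_⟩
  rw [Function.iterate_add_apply]
  exact h.cong_iter hφ hy (h.iter_le hφ (h.le_one.mpr hγ) r) hr n

theorem Over.distinct_before (h : Over v V e) {φ : K[X]} (hφ : Good v φ)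
    {γ : K} {n : ℕ} {x : L} (hx1 : V x ≤ 1)
    (hx : (ph φ)^[n] x = algebraMap K L γ) {i j : ℕ} (hij : i < j) (hjn : j ≤ n)
    (hC : ¬ InC V φ γ ((ph φ)^[i] x)) : ¬ V ((ph φ)^[i] x - (ph φ)^[j] x) < 1 := by
  intro hcon
  apply hC
  obtain ⟨m, rfl⟩ : ∃ m, j = m + i := ⟨j - i, by omega⟩
  have hi := h.iter_le hφ hx1 i
  have key : ∀ k : ℕ, V ((ph φ)^[i] x - (ph φ)^[k * m] ((ph φ)^[i] x)) < 1 := by
    intro k
    induction k with
    | zero => simp
    | succ k ih =>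
      have h1 := h.cong_iter hφ hi (h.iter_le hφ hx1 (m + i)) hcon (k * m)
      have e1 : (ph φ)^[i] x - (ph φ)^[(k + 1) * m] ((ph φ)^[i] x) =
          ((ph φ)^[i] x - (ph φ)^[k * m] ((ph φ)^[i] x)) +
          ((ph φ)^[k * m] ((ph φ)^[i] x) - (ph φ)^[k * m] ((ph φ)^[m + i] x)) := by
        rw [show (k + 1) * m = k * m + m by ring, Function.iterate_add_apply (ph φ) (k * m) m,
          Function.iterate_add_apply (ph φ) m i]
        ring
      rw [e1]
      exact Valuation.map_add_lt _ ih h1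
  have h2 := key n
  have hm : 0 < m := by omega
  obtain ⟨q, hq⟩ : ∃ q, n * m + i = q + n := ⟨n * m + i - n, by
    have : n ≤ n * m := Nat.le_mul_of_pos_right n hm
    omega⟩
  rw [← Function.iterate_add_apply, hq, Function.iterate_add_apply, hx] at h2
  exact ⟨q, h2⟩

/-- few critical passings if critical points are outside of the cycle -/
theorem Over.crits_card_le (h : Over v V e) {φ : K[X]} (hφ : Good v φ)
    (hvd : v (φ.natDegree : K) = 1) {γ : K} {n : ℕ} {x : L} (hx1 : V x ≤ 1)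
    (hx : (ph φ)^[n] x = algebraMap K L γ)
    (hC : ∀ i ∈ crits V φ n x, ¬ InC V φ γ ((ph φ)^[i] x)) :
    (crits V φ n x).card ≤ φ.natDegree - 1 := by
  apply h.crits_card hφ hvd hx1
  intro i hi j hj hij
  exact h.distinct_before hφ hx1 hx hij
    (Finset.mem_range.mp (Finset.mem_filter.mp hj).1).le (hC i hi)

theorem Over.fix_all (h : Over v V e) {φ : K[X]} (hφ : Good v φ) (hd : 2 ≤ φ.natDegree)
    (hvd : v (φ.natDegree : K) = 1) {γ : K} {n : ℕ} {x : L} (hx1 : V x ≤ 1)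
    (hx : (ph φ)^[n] x = algebraMap K L γ)
    (hC : ∀ i ∈ crits V φ n x, ¬ InC V φ γ ((ph φ)^[i] x))
    {σ : L ≃ₐ[K] L} (hσ : Inert V σ) {i : ℕ}
    (hi : Nat.factorial φ.natDegree ^ (φ.natDegree - 1) ∣ i) : (σ ^ i) x = x := by
  have h1 := h.fix_pow hφ hd hσ (n := n) hx1 (by rw [hx]; exact σ.commutes γ)
  exact pow_fix_dvd h1 ((pow_dvd_pow _ (h.crits_card_le hφ hvd hx1 hx hC)).trans hi)

/-- case 1: `γ` is not periodic modulo `v` -/
theorem Over.notInC_of_not_per (h : Over v V e) {φ : K[X]} (hφ : Good v φ) {γ : K}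
    (hγ : v γ ≤ 1) (hnp : ¬ PerMod v φ γ) {n : ℕ} {x : L} (hx1 : V x ≤ 1)
    (hx : (ph φ)^[n] x = algebraMap K L γ) {i : ℕ} (hi : i < n) :
    ¬ InC V φ γ ((ph φ)^[i] x) := by
  rintro ⟨r, hr⟩
  apply hnp
  have h1 := h.cong_iter hφ (h.iter_le hφ hx1 i) (h.iter_le hφ (h.le_one.mpr hγ) r) hr (n - i)
  rw [← Function.iterate_add_apply, ← Function.iterate_add_apply, show n - i + i = n by omega,
    hx, ← iter_algebraMap, ← map_sub, h.lt_one, Valuation.map_sub_swap] at h1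
  exact ⟨n - i + r, by omega, h1⟩

/-- case 2a: the cycle is not critical -/
theorem Over.notInC_of_noncrit (h : Over v V e) {φ : K[X]} (hφ : Good v φ) {γ : K}
    (hγ : v γ ≤ 1) (hnc : ∀ r, v (dph φ ((ph φ)^[r] γ)) = 1) {y : L} (hy : V y ≤ 1)
    (hc : V (dph φ y) < 1) : ¬ InC V φ γ y := by
  rintro ⟨r, hr⟩
  have hγr := h.iter_le hφ (h.le_one.mpr hγ) r
  have h1 : V (dph φ y - dph φ ((ph φ)^[r] (algebraMap K L γ))) < 1 := by
    rw [dph, dph, ph_eq_eval_map, ph_eq_eval_map, ← derivative_map]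
    exact (cong_eval (h.intP hφ.int).derivative hγr hy).trans_lt hr
  have h2 : V (dph φ ((ph φ)^[r] (algebraMap K L γ))) < 1 := by
    have : dph φ ((ph φ)^[r] (algebraMap K L γ)) = dph φ y -
      (dph φ y - dph φ ((ph φ)^[r] (algebraMap K L γ))) := by ring
    rw [this]
    exact Valuation.map_sub_lt _ hc h1
  rw [← iter_algebraMap, dph, ← ph_algebraMap, h.lt_one] at h2
  exact absurd (hnc r) h2.ne

end

end Pool.Agent.TameArb
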