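import Pool.Agent.TameArb.Per

/-!
# Preperiods of critical points modulo a prime are bounded
-/

set_option autoImplicit false

open Polynomial
open scoped WithZero

namespace Pool.Agent.TameArb

universe u

section

variable {K : Type*} [Field K] {v : Valuation K ℤᵐ⁰}

instance mI_maximal {L : Type*} [Field L] {Γ₀ : Type*} [LinearOrderedCommGroupWithZero Γ₀]
    (V : Valuation L Γ₀) : (mI V).IsMaximal := by
  rw [Ideal.isMaximal_iff]
  refine ⟨fun h => (mI_prime V).ne_top ((Ideal.eq_top_iff_one _).mpr h), ?_⟩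
  intro J x _ hx hxJ
  have h1 : V (x : L) = 1 := le_antisymm x.2 (not_lt.mp hx)
  have h2 : V ((x : L)⁻¹) ≤ 1 := by rw [map_inv₀, h1, inv_one]
  have h3 : (x : L) ≠ 0 := by
    intro h0
    rw [h0, map_zero] at h1
    exact zero_ne_one h1
  have h4 : (1 : V.integer) = ⟨(x : L)⁻¹, h2⟩ * x := by
    apply Subtype.ext
    push_cast
    exact (inv_mul_cancel₀ h3).symm
  rw [h4]
  exact J.mul_mem_left _ hxJ

theorem map_comp_iter {R S : Type*} [CommRing R] [CommRing S] (f : R →+* S) (Q : R[X]) (n : ℕ) :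
    (Q.comp^[n] X).map f = (Q.map f).comp^[n] X := by
  induction n with
  | zero => simp
  | succ n ih => rw [Function.iterate_succ_apply', Function.iterate_succ_apply', Polynomial.map_comp, ih]

theorem t_lemma (hfin : Finite (v.integer ⧸ mI v)) {φ : K[X]} (hφ : Good v φ)
    (hvd : v (φ.natDegree : K) = 1) :
    ∃ t : ℕ, ∀ (L : Type u) [Field L] [Algebra K L] (V : Valuation L ℤᵐ⁰) (e : ℕ)
      (_ : Over v V e) (x : L), V x ≤ 1 → V (dph φ x) < 1 →
      ∃ i j : ℕ, i < j ∧ j ≤ t ∧ V ((ph φ)^[i] x - (ph φ)^[j] x) < 1 := by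
  classical
  obtain ⟨Q, hQ⟩ := exists_lift hφ.int
  set ρ := Ideal.Quotient.mk (mI v) with hρ
  let _ : Field (v.integer ⧸ mI v) := Ideal.Quotient.field (mI v)
  set f : (v.integer ⧸ mI v)[X] := Q.map ρ with hf
  set P := derivative f with hP
  have hco : ∀ n, ((Q.coeff n : v.integer) : K) = φ.coeff n := by
    intro n
    rw [← hQ, coeff_map]; rfl
  have hdn : φ.natDegree ≠ 0 := by
    intro h0; rw [h0] at hvd; simp at hvd
  have hP0 : P ≠ 0 := by
    intro h0
    have h1 : P.coeff (φ.natDegree - 1) = 0 := by rw [h0, coeff_zero]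
    rw [hP, coeff_derivative, show φ.natDegree - 1 + 1 = φ.natDegree by omega, hf, coeff_map] at h1
    have h2 : ((φ.natDegree - 1 : ℕ) : v.integer ⧸ mI v) + 1 = ρ (φ.natDegree : v.integer) := by
      rw [map_natCast]
      have : ((φ.natDegree - 1 : ℕ) : v.integer ⧸ mI v) + 1 =
        ((φ.natDegree - 1 + 1 : ℕ) : v.integer ⧸ mI v) := by push_cast; rfl
      rw [this, show φ.natDegree - 1 + 1 = φ.natDegree by omega]
    rw [h2, ← map_mul, hρ, Ideal.Quotient.eq_zero_iff_mem, mem_mI] at h1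
    push_cast at h1
    rw [map_mul, hco, coeff_natDegree, hφ.lead, hvd, one_mul] at h1
    exact lt_irrefl _ h1
  have hfinA : Finite (AdjoinRoot P) := by
    have : Module.Finite (v.integer ⧸ mI v) (AdjoinRoot P) := (AdjoinRoot.powerBasis hP0).finite
    exact Module.finite_of_finite (v.integer ⧸ mI v)
  let _ : Fintype (AdjoinRoot P) := Fintype.ofFinite _
  refine ⟨Fintype.card (AdjoinRoot P), ?_⟩
  obtain ⟨a, ha, b, hb, hab, hEq⟩ := Finset.exists_ne_map_eq_of_card_lt_of_maps_to
    (s := Finset.range (Fintype.card (AdjoinRoot P) + 1)) (t := Finset.univ)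
    (by rw [Finset.card_range, Finset.card_univ]; omega)
    (f := fun i => AdjoinRoot.mk P (f.comp^[i] X)) (fun i _ => Finset.mem_univ _)
  rw [Finset.mem_range] at ha hb
  obtain ⟨i, j, hij, hj, hE⟩ : ∃ i j, i < j ∧ j ≤ Fintype.card (AdjoinRoot P) ∧
      AdjoinRoot.mk P (f.comp^[i] X) = AdjoinRoot.mk P (f.comp^[j] X) := by
    rcases lt_or_gt_of_ne hab with h | h
    · exact ⟨a, b, h, by omega, hEq⟩
    · exact ⟨b, a, h, by omega, hEq.symm⟩
  rw [AdjoinRoot.mk_eq_mk] at hE
  obtain ⟨S, hS⟩ := hE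
  obtain ⟨S₀, rfl⟩ := Polynomial.map_surjective ρ Ideal.Quotient.mk_surjective S
  set D := Q.comp^[i] X - Q.comp^[j] X - derivative Q * S₀ with hD
  have hDρ : D.map ρ = 0 := by
    rw [hD, Polynomial.map_sub, Polynomial.map_sub, Polynomial.map_mul, map_comp_iter,
      map_comp_iter, ← derivative_map, ← hf, ← hP, hS, sub_self]
  have hDc : ∀ n, v ((D.map v.integer.subtype).coeff n) < 1 := by
    intro n
    have h1 : ρ (D.coeff n) = 0 := by rw [← coeff_map, hDρ, coeff_zero]
    rw [hρ, Ideal.Quotient.eq_zero_iff_mem, mem_mI] at h1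
    rw [coeff_map]
    exact h1
  have hDm : D.map v.integer.subtype = itp φ i - itp φ j -
      derivative φ * S₀.map v.integer.subtype := by
    rw [hD, Polynomial.map_sub, Polynomial.map_sub, Polynomial.map_mul, map_comp_iter,
      map_comp_iter, ← derivative_map, hQ]
    rfl
  have hS₁ : IntP v (S₀.map v.integer.subtype) := by
    intro n
    rw [coeff_map]
    exact (S₀.coeff n).2
  intro L _ _ V e h x hx hc
  refine ⟨i, j, hij, hj, ?_⟩
  have h1 : V (aeval x (D.map v.integer.subtype)) < 1 := by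
    rw [aeval_eq_sum_range]
    apply Valuation.map_sum_lt _ one_ne_zero
    intro k _
    rw [Algebra.smul_def, map_mul, map_pow, mul_comm]
    exact mul_lt_one_aux (pow_le_one' hx k) (h.lt_one.mpr (hDc k))
  have e1 : aeval x (itp φ i - itp φ j - derivative φ * S₀.map v.integer.subtype) =
      (ph φ)^[i] x - (ph φ)^[j] x - aeval x (derivative φ) *
        aeval x (S₀.map v.integer.subtype) := by
    simp only [map_sub, map_mul, itp_aeval]
  rw [hDm, e1] at h1
  have h2 : V (aeval x (derivative φ) * aeval x (S₀.map v.integer.subtype)) < 1 := by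
    rw [map_mul, mul_comm]
    apply mul_lt_one_aux _ hc
    rw [← eval_map_algebraMap]
    exact eval_le (h.intP hS₁) hx
  have h3 := Valuation.map_add_lt _ h1 h2
  rwa [sub_add_cancel] at h3

end

end Pool.Agent.TameArb
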