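import Pool.Agent.Arb.Zeta

/-!
# The sum over primes of `N(P)^(-s)` near `s = 1`
-/

set_option autoImplicit false

open NumberField IsDedekindDomain

namespace Pool.Agent.TameArb

/-- the term of the prime zeta function -/
noncomputable def pt {F : Type*} [Field F] [NumberField F] (s : ℝ)
    (v : HeightOneSpectrum (𝓞 F)) : ℝ := (Ideal.absNorm v.asIdeal : ℝ) ^ (-s)

section aux

open Pool.Agent.Arb Filter Topology ENNReal

variable (F : Type*) [Field F] [NumberField F]

lemma summable_zt {s : ℝ} (hs : 1 < s) :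
    Summable (fun I : Ideal (𝓞 F) => (Ideal.absNorm I : ℝ) ^ (-s)) := by
  have h := Z_ne_top F hs
  rw [Z_empty F (by linarith)] at h
  have h2 := ENNReal.summable_toReal h
  refine h2.congr fun I => ?_
  unfold zt
  rw [ENNReal.toReal_ofReal (by positivity)]

lemma two_le_norm (v : HeightOneSpectrum (𝓞 F)) : 2 ≤ Ideal.absNorm v.asIdeal := by
  have h3 : Ideal.absNorm v.asIdeal ≠ 0 := fun h => v.ne_bot (Ideal.absNorm_eq_zero_iff.1 h)
  have h4 : Ideal.absNorm v.asIdeal ≠ 1 := fun h => v.isPrime.ne_top (Ideal.absNorm_eq_one_iff.1 h)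
  omega

lemma pt_pos (s : ℝ) (v : HeightOneSpectrum (𝓞 F)) : 0 < pt s v := by
  have := two_le_norm F v
  unfold pt
  apply Real.rpow_pos_of_pos
  exact_mod_cast (by omega : 0 < Ideal.absNorm v.asIdeal)

lemma pt_le_half {s : ℝ} (hs : 1 ≤ s) (v : HeightOneSpectrum (𝓞 F)) : pt s v ≤ 1 / 2 := by
  have h4 : (2 : ℝ) ≤ Ideal.absNorm v.asIdeal := by exact_mod_cast two_le_norm F v
  unfold pt
  calc ((Ideal.absNorm v.asIdeal : ℕ) : ℝ) ^ (-s) ≤ (2 : ℝ) ^ (-s) :=
        Real.rpow_le_rpow_of_nonpos (by norm_num) h4 (by linarith)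
    _ ≤ (2 : ℝ) ^ (-1 : ℝ) := Real.rpow_le_rpow_of_exponent_le (by norm_num) (by linarith)
    _ = 1 / 2 := by rw [Real.rpow_neg_one]; norm_num

lemma pt_sq_le {s : ℝ} (hs : 1 ≤ s) (v : HeightOneSpectrum (𝓞 F)) : pt s v ^ 2 ≤ pt 2 v := by
  have h4 : (2 : ℝ) ≤ Ideal.absNorm v.asIdeal := by exact_mod_cast two_le_norm F v
  unfold pt
  rw [← Real.rpow_natCast, ← Real.rpow_mul (by linarith)]
  apply Real.rpow_le_rpow_of_exponent_le (by linarith)
  push_cast
  linarith

end aux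

theorem pt_summable (F : Type*) [Field F] [NumberField F] {s : ℝ} (hs : 1 < s) :
    Summable (fun v : HeightOneSpectrum (𝓞 F) => pt s v) := by
  have h := summable_zt F hs
  have hinj : Function.Injective (fun v : HeightOneSpectrum (𝓞 F) => v.asIdeal) :=
    fun v w h => HeightOneSpectrum.ext h
  exact h.comp_injective hinj

section aux2

open Pool.Agent.Arb Filter Topology ENNReal

variable (F : Type*) [Field F] [NumberField F]

/-- zeta without the primes of `T` -/
noncomputable def ZT (T : Finset (HeightOneSpectrum (𝓞 F))) (s : ℝ) : ℝ≥0∞ :=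
  Z F ((fun v : HeightOneSpectrum (𝓞 F) => v.asIdeal) '' (T : Set (HeightOneSpectrum (𝓞 F)))) s

lemma ZT_empty (s : ℝ) : ZT F ∅ s = Z F ∅ s := by
  unfold ZT
  simp

lemma ZT_ne_top (T : Finset (HeightOneSpectrum (𝓞 F))) {s : ℝ} (hs : 1 < s) : ZT F T s ≠ ⊤ :=
  ne_top_of_le_ne_top (Z_ne_top F hs) (Z_anti F (Set.empty_subset _) s)

lemma ZT_insert [DecidableEq (HeightOneSpectrum (𝓞 F))] (T : Finset (HeightOneSpectrum (𝓞 F)))
    {v : HeightOneSpectrum (𝓞 F)} (hv : v ∉ T)
    (s : ℝ) : ZT F T s = ZT F (insert v T) s + ENNReal.ofReal (pt s v) * ZT F T s := by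
  set A : Set (Ideal (𝓞 F)) := (fun v : HeightOneSpectrum (𝓞 F) => v.asIdeal) ''
    (T : Set (HeightOneSpectrum (𝓞 F))) with hA
  have hA' : (fun v : HeightOneSpectrum (𝓞 F) => v.asIdeal) ''
    ((insert v T : Finset _) : Set (HeightOneSpectrum (𝓞 F))) = insert v.asIdeal A := by
    rw [Finset.coe_insert, Set.image_insert_eq]
  have hset : prTo F A = prTo F (insert v.asIdeal A) ∪ (v.asIdeal * ·) '' (prTo F A) := by
    ext I
    constructor
    · rintro ⟨h1, h2⟩
      by_cases h3 : v.asIdeal ∣ I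
      · right
        obtain ⟨J, rfl⟩ := h3
        refine ⟨J, ⟨?_, ?_⟩, rfl⟩
        · rintro rfl
          exact h1 (by simp)
        · intro Q hQ h4
          exact h2 Q hQ (h4.mul_left _)
      · left
        refine ⟨h1, ?_⟩
        intro Q hQ
        rcases hQ with rfl | hQ
        · exact h3
        · exact h2 Q hQ
    · rintro (⟨h1, h2⟩ | ⟨J, ⟨h1, h2⟩, rfl⟩)
      · exact ⟨h1, fun Q hQ => h2 Q (Set.mem_insert_of_mem _ hQ)⟩
      · refine ⟨?_, ?_⟩
        · show v.asIdeal * J ≠ ⊥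
          intro h
          rcases mul_eq_zero.1 (show v.asIdeal * J = 0 from h) with h | h
          · exact v.ne_bot h
          · exact h1 h
        · rintro _ ⟨w, hw, rfl⟩ h4
          have hwp : Prime w.asIdeal := w.prime
          rcases hwp.dvd_or_dvd h4 with h5 | h5
          · have h6 : w.asIdeal = v.asIdeal :=
              ((v.isMaximal.eq_of_le w.isPrime.ne_top (Ideal.dvd_iff_le.1 h5))).symm
            have h7 : w = v := HeightOneSpectrum.ext h6
            rw [h7] at hw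
            exact hv hw
          · exact h2 _ ⟨w, hw, rfl⟩ h5
  have hdisj : Disjoint (prTo F (insert v.asIdeal A)) ((v.asIdeal * ·) '' (prTo F A)) := by
    rw [Set.disjoint_left]
    rintro I ⟨h1, h2⟩ ⟨J, hJ, rfl⟩
    exact h2 v.asIdeal (Set.mem_insert _ _) (Dvd.intro J rfl)
  have hinj : Set.InjOn (v.asIdeal * ·) (prTo F A) := by
    intro I _ J _ h
    exact mul_left_cancel₀ v.ne_bot h
  have e1 : ZT F T s = ∑' I : ↑(prTo F (insert v.asIdeal A) ∪ (v.asIdeal * ·) '' (prTo F A)),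
      zt s I.1 := congrArg (fun B : Set (Ideal (𝓞 F)) => ∑' I : B, zt s I.1) hset
  have e2 : ∑' I : ↑((v.asIdeal * ·) '' (prTo F A)), zt s I.1 =
      ENNReal.ofReal (pt s v) * ZT F T s := by
    rw [tsum_image (zt s) hinj]
    show _ = _ * ∑' I : prTo F A, zt s I.1
    rw [← ENNReal.tsum_mul_left]
    apply tsum_congr
    rintro ⟨I, hI⟩
    show zt s (v.asIdeal * I) = ENNReal.ofReal (pt s v) * zt s I
    rw [zt_mul]
    rfl
  have e3 : ZT F (insert v T) s = ∑' I : ↑(prTo F (insert v.asIdeal A)), zt s I.1 := by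
    unfold ZT
    rw [hA']
    rfl
  calc ZT F T s = ∑' I : ↑(prTo F (insert v.asIdeal A) ∪ (v.asIdeal * ·) '' (prTo F A)),
        zt s I.1 := e1
    _ = ∑' I : ↑(prTo F (insert v.asIdeal A)), zt s I.1 +
        ∑' I : ↑((v.asIdeal * ·) '' (prTo F A)), zt s I.1 :=
        Summable.tsum_union_disjoint hdisj ENNReal.summable ENNReal.summable
    _ = _ := by rw [e2, e3]

/-- real version -/
noncomputable def zr (T : Finset (HeightOneSpectrum (𝓞 F))) (s : ℝ) : ℝ := (ZT F T s).toReal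

lemma zr_insert [DecidableEq (HeightOneSpectrum (𝓞 F))] (T : Finset (HeightOneSpectrum (𝓞 F)))
    {v : HeightOneSpectrum (𝓞 F)} (hv : v ∉ T)
    {s : ℝ} (hs : 1 < s) : zr F (insert v T) s = (1 - pt s v) * zr F T s := by
  have h := congrArg ENNReal.toReal (ZT_insert F T hv s)
  rw [ENNReal.toReal_add (ZT_ne_top F _ hs) (ENNReal.mul_ne_top ENNReal.ofReal_ne_top
    (ZT_ne_top F _ hs)), ENNReal.toReal_mul, ENNReal.toReal_ofReal (pt_pos F s v).le] at h
  unfold zr
  linarith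

lemma zr_prod (T : Finset (HeightOneSpectrum (𝓞 F))) {s : ℝ} (hs : 1 < s) :
    zr F T s = (∏ v ∈ T, (1 - pt s v)) * zr F ∅ s := by
  classical
  induction T using Finset.induction_on with
  | empty => simp
  | insert v T hv ih => rw [zr_insert F T hv hs, ih, Finset.prod_insert hv, mul_assoc]

lemma one_le_zr (T : Finset (HeightOneSpectrum (𝓞 F))) {s : ℝ} (hs : 1 < s) : 1 ≤ zr F T s := by
  have h : (1 : ℝ≥0∞) ≤ ZT F T s := by
    have hmem : (⊤ : Ideal (𝓞 F)) ∈ prTo F ((fun v : HeightOneSpectrum (𝓞 F) => v.asIdeal) ''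
        (T : Set (HeightOneSpectrum (𝓞 F)))) := by
      refine ⟨top_ne_bot, ?_⟩
      rintro _ ⟨w, hw, rfl⟩ h
      exact w.isPrime.ne_top (top_le_iff.1 (Ideal.dvd_iff_le.1 h))
    calc (1 : ℝ≥0∞) = zt s (⊤ : Ideal (𝓞 F)) := by simp [zt]
      _ ≤ ZT F T s := ENNReal.le_tsum (f := fun I : prTo F ((fun v : HeightOneSpectrum (𝓞 F) =>
          v.asIdeal) '' (T : Set (HeightOneSpectrum (𝓞 F)))) => zt s I.1) ⟨⊤, hmem⟩
  have := ENNReal.toReal_mono (ZT_ne_top F T hs) h
  simpa [zr] using this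

lemma exists_zr_le {s : ℝ} (hs : 1 < s) : ∃ T : Finset (HeightOneSpectrum (𝓞 F)),
    zr F T s ≤ 2 := by
  classical
  have h0 : ∑' I : Ideal (𝓞 F), zt s I ≠ ⊤ := by
    rw [← Z_empty F (by linarith)]
    exact Z_ne_top F hs
  have h1 := ENNReal.tendsto_tsum_compl_atTop_zero h0
  have h2 : ∀ᶠ S : Finset (Ideal (𝓞 F)) in atTop, ∑' b : {x // x ∉ S}, zt s b.1 < 1 :=
    h1.eventually (gt_mem_nhds one_pos)
  obtain ⟨S, hS⟩ := h2.exists
  have hfin : ({v : HeightOneSpectrum (𝓞 F) | ∃ I ∈ S, I ≠ 0 ∧ v.asIdeal ∣ I}).Finite := by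
    have : {v : HeightOneSpectrum (𝓞 F) | ∃ I ∈ S, I ≠ 0 ∧ v.asIdeal ∣ I} ⊆
        ⋃ I ∈ (S.filter (· ≠ 0)), {v : HeightOneSpectrum (𝓞 F) | v.asIdeal ∣ I} := by
      rintro v ⟨I, hI, hI0, hv⟩
      simp only [Set.mem_iUnion]
      exact ⟨I, Finset.mem_filter.2 ⟨hI, hI0⟩, hv⟩
    refine Set.Finite.subset ?_ this
    apply Set.Finite.biUnion (Finset.finite_toSet _)
    intro I hI
    exact Ideal.finite_factors (by simpa using (Finset.mem_filter.1 hI).2)
  refine ⟨hfin.toFinset, ?_⟩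
  set T := hfin.toFinset with hT
  have hsub : prTo F ((fun v : HeightOneSpectrum (𝓞 F) => v.asIdeal) ''
        (T : Set (HeightOneSpectrum (𝓞 F)))) ⊆ {⊤} ∪ {x | x ∉ S} := by
    rintro I ⟨h1, h2⟩
    by_cases hIS : I ∈ S
    · left
      by_contra hI
      obtain ⟨P, hP, hIP⟩ := Ideal.exists_le_maximal I hI
      have hPbot : P ≠ ⊥ := by
        rintro rfl
        exact h1 (le_bot_iff.1 hIP)
      let v : HeightOneSpectrum (𝓞 F) := ⟨P, hP.isPrime, hPbot⟩
      have hv : v ∈ T := by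
        rw [hT, Set.Finite.mem_toFinset]
        exact ⟨I, hIS, h1, Ideal.dvd_iff_le.2 hIP⟩
      exact h2 P ⟨v, hv, rfl⟩ (Ideal.dvd_iff_le.2 hIP)
    · right
      exact hIS
  have h3 : ZT F T s ≤ 2 := by
    calc ZT F T s ≤ ∑' I : ↑({⊤} ∪ {x | x ∉ S} : Set (Ideal (𝓞 F))), zt s I.1 :=
          ENNReal.tsum_mono_subtype (zt s) hsub
      _ ≤ ∑' I : ↑({⊤} : Set (Ideal (𝓞 F))), zt s I.1 +
          ∑' I : ↑({x | x ∉ S} : Set (Ideal (𝓞 F))), zt s I.1 := ENNReal.tsum_union_le _ _ _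
      _ ≤ 1 + 1 := by
          apply add_le_add
          · rw [tsum_singleton (⊤ : Ideal (𝓞 F)) (zt s)]
            simp [zt]
          · exact hS.le
      _ = 2 := one_add_one_eq_two
  have := ENNReal.toReal_mono (by simp) h3
  simpa [zr] using this

lemma log_one_sub {x : ℝ} (h0 : 0 < x) (h1 : x ≤ 1 / 2) :
    x ≤ - Real.log (1 - x) ∧ - Real.log (1 - x) ≤ x + 2 * x ^ 2 := by
  constructor
  · have := Real.log_le_sub_one_of_pos (show 0 < 1 - x by linarith)
    linarith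
  · have h2 := Real.one_sub_inv_le_log_of_pos (show 0 < 1 - x by linarith)
    have h3 : (1 - x)⁻¹ ≤ 1 + x + 2 * x ^ 2 := by
      rw [inv_le_iff_one_le_mul₀ (by linarith)]
      nlinarith [sq_nonneg x, mul_pos h0 h0]
    linarith

lemma log_zr_identity (T : Finset (HeightOneSpectrum (𝓞 F))) {s : ℝ} (hs : 1 < s) :
    Real.log (zr F ∅ s) = Real.log (zr F T s) + ∑ v ∈ T, (- Real.log (1 - pt s v)) := by
  have hne : ∀ v ∈ T, (1 - pt s v) ≠ 0 := fun v _ => by
    have := pt_le_half F hs.le v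
    linarith
  have h1 := one_le_zr F ∅ hs
  have hprod : ∏ v ∈ T, (1 - pt s v) ≠ 0 := Finset.prod_ne_zero_iff.2 hne
  rw [zr_prod F T hs, Real.log_mul hprod (by linarith), Real.log_prod hne,
    Finset.sum_neg_distrib]
  ring

lemma log_zr_est {s : ℝ} (hs : 1 < s) :
    |Real.log (zr F ∅ s) - ∑' v : HeightOneSpectrum (𝓞 F), pt s v| ≤
      Real.log 2 + 2 * ∑' v : HeightOneSpectrum (𝓞 F), pt 2 v := by
  have hsum := pt_summable F hs
  have hsum2 := pt_summable F (show (1 : ℝ) < 2 by norm_num)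
  have hnn : 0 ≤ ∑' v : HeightOneSpectrum (𝓞 F), pt 2 v := tsum_nonneg fun v => (pt_pos F 2 v).le
  have hl2 : 0 ≤ Real.log 2 := Real.log_nonneg (by norm_num)
  rw [abs_le]
  constructor
  · have : ∑' v : HeightOneSpectrum (𝓞 F), pt s v ≤ Real.log (zr F ∅ s) := by
      apply hsum.tsum_le_of_sum_le
      intro T
      rw [log_zr_identity F T hs]
      have h1 := Real.log_nonneg (one_le_zr F T hs)
      have h2 : ∑ v ∈ T, pt s v ≤ ∑ v ∈ T, (- Real.log (1 - pt s v)) :=
        Finset.sum_le_sum fun v _ => (log_one_sub (pt_pos F s v) (pt_le_half F hs.le v)).1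
      linarith
    linarith
  · obtain ⟨T, hT⟩ := exists_zr_le F hs
    rw [log_zr_identity F T hs]
    have h1 : Real.log (zr F T s) ≤ Real.log 2 :=
      Real.log_le_log (by have := one_le_zr F T hs; linarith) hT
    have h2 : ∑ v ∈ T, (- Real.log (1 - pt s v)) ≤ ∑ v ∈ T, (pt s v + 2 * pt 2 v) := by
      apply Finset.sum_le_sum
      intro v _
      have := (log_one_sub (pt_pos F s v) (pt_le_half F hs.le v)).2
      have h3 := pt_sq_le F hs.le v
      linarith
    rw [Finset.sum_add_distrib, ← Finset.mul_sum] at h2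
    have h4 := hsum.sum_le_tsum T fun v _ => (pt_pos F s v).le
    have h5 := hsum2.sum_le_tsum T fun v _ => (pt_pos F 2 v).le
    linarith

lemma zr_anti {s t : ℝ} (hs : 1 < s) (hst : s ≤ t) : zr F ∅ t ≤ zr F ∅ s := by
  have h : ZT F ∅ t ≤ ZT F ∅ s := by
    unfold ZT Z
    apply ENNReal.tsum_le_tsum
    rintro ⟨I, hI⟩
    show zt t I ≤ zt s I
    unfold zt
    apply ENNReal.ofReal_le_ofReal
    have h1 : (1 : ℝ) ≤ Ideal.absNorm I := by
      have : Ideal.absNorm I ≠ 0 := fun h => hI.1 (Ideal.absNorm_eq_zero_iff.1 h)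
      exact_mod_cast Nat.one_le_iff_ne_zero.2 this
    exact Real.rpow_le_rpow_of_exponent_le h1 (by linarith)
  exact ENNReal.toReal_mono (ZT_ne_top F ∅ hs) h

lemma log_pole : ∃ C : ℝ, ∀ s : ℝ, 1 < s → s < 2 →
    |Real.log (1 / (s - 1)) - Real.log (zr F ∅ s)| ≤ C := by
  have hres := dedekindZeta_residue_pos F
  set r := dedekindZeta_residue F with hr
  have ht := Z_tendsto F
  have hev : ∀ᶠ s : ℝ in 𝓝[>] 1, (s - 1) * (Z F ∅ s).toReal ∈ Set.Ioo (r / 2) (2 * r) :=
    ht.eventually (Ioo_mem_nhds (by linarith) (by linarith))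
  rw [eventually_nhdsWithin_iff, Metric.eventually_nhds_iff] at hev
  obtain ⟨δ, hδ, hev⟩ := hev
  set e := min (δ / 2) (1 / 2) with he
  have he0 : 0 < e := lt_min (by linarith) (by norm_num)
  have hed : e < δ := lt_of_le_of_lt (min_le_left _ _) (by linarith)
  have hz : ∀ s : ℝ, zr F ∅ s = (Z F ∅ s).toReal := fun s => by unfold zr; rw [ZT_empty]
  refine ⟨|Real.log (r / 2)| + |Real.log (2 * r)| + |Real.log e| + Real.log (zr F ∅ (1 + e)),
    fun s hs1 hs2 => ?_⟩
  have h1 := one_le_zr F ∅ hs1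
  have h1e := one_le_zr F ∅ (show 1 < 1 + e by linarith)
  have hle0 := Real.log_nonneg h1e
  have hd : Real.log (1 / (s - 1)) - Real.log (zr F ∅ s) =
      - Real.log ((s - 1) * zr F ∅ s) := by
    rw [Real.log_mul (by linarith) (by linarith), one_div, Real.log_inv]
    ring
  rw [hd, abs_neg]
  by_cases hse : s ≤ 1 + e
  · have h2 := hev (show dist s 1 < δ by
      rw [Real.dist_eq, abs_lt]; constructor <;> linarith) hs1
    rw [← hz] at h2
    obtain ⟨h3, h4⟩ := h2
    have h5 : Real.log (r / 2) ≤ Real.log ((s - 1) * zr F ∅ s) :=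
      Real.log_le_log (by linarith) h3.le
    have h6 : Real.log ((s - 1) * zr F ∅ s) ≤ Real.log (2 * r) :=
      Real.log_le_log (by linarith) h4.le
    have h7 := neg_abs_le (Real.log (r / 2))
    have h8 := le_abs_self (Real.log (2 * r))
    have h9 := abs_nonneg (Real.log (r / 2))
    have h10 := abs_nonneg (Real.log (2 * r))
    have h11 := abs_nonneg (Real.log e)
    rw [abs_le]
    constructor <;> linarith
  · push Not at hse
    rw [Real.log_mul (by linarith) (by linarith)]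
    have h2 : Real.log e ≤ Real.log (s - 1) := Real.log_le_log he0 (by linarith)
    have h3 : Real.log (s - 1) ≤ 0 := Real.log_nonpos (by linarith) (by linarith)
    have h4 : Real.log (zr F ∅ s) ≤ Real.log (zr F ∅ (1 + e)) :=
      Real.log_le_log (by linarith) (zr_anti F (by linarith) hse.le)
    have h5 := Real.log_nonneg h1
    have h7 := neg_abs_le (Real.log e)
    have h9 := abs_nonneg (Real.log (r / 2))
    have h10 := abs_nonneg (Real.log (2 * r))
    have h11 := abs_nonneg (Real.log e)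
    rw [abs_le]
    constructor <;> linarith

end aux2

/-- CHEB1 -/
theorem log_zeta_est (F : Type*) [Field F] [NumberField F] :
    ∃ C : ℝ, ∀ s : ℝ, 1 < s → s < 2 →
      |Real.log (1 / (s - 1)) - ∑' v : HeightOneSpectrum (𝓞 F), pt s v| ≤ C := by
  obtain ⟨C, hC⟩ := log_pole F
  refine ⟨C + (Real.log 2 + 2 * ∑' v : HeightOneSpectrum (𝓞 F), pt 2 v), fun s hs1 hs2 => ?_⟩
  have h1 := hC s hs1 hs2
  have h2 := log_zr_est F hs1
  calc |Real.log (1 / (s - 1)) - ∑' v : HeightOneSpectrum (𝓞 F), pt s v|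
      = |(Real.log (1 / (s - 1)) - Real.log (zr F ∅ s)) +
        (Real.log (zr F ∅ s) - ∑' v : HeightOneSpectrum (𝓞 F), pt s v)| := by congr 1; ring
    _ ≤ _ := (abs_add_le _ _).trans (add_le_add h1 h2)

end Pool.Agent.TameArb
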